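import Pool.Agent.W2helper93.NV.Var
import Pool.Agent.Q97.UM.Base2
import Pool.Agent.Q257.UM.STM

set_option autoImplicit false

/-! # The second moment of the weighted counts -/

namespace Pool.Agent.W2helper93.NV

open Complex Filter Topology MeasureTheory Set
open H370 (zz hh mult Zf zset AA good_zeta mem_Zf)
open Pool.Agent.Q97.UM (SS ZD mz dp N2 S_STM b_TAIL)

theorem stm : S_STM :=
  Pool.Agent.Q257.UM.ST.t_STM Pool.Agent.Q84.UM.t_DPM Pool.Agent.Q84.UM.t_MVL
    Pool.Agent.Q178.UM.ZF2.t_ZF2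

/-- pointwise comparison of the two weighted counts -/
lemma WW_le_SS {lam δ T : ℝ} (hlam : 1 ≤ lam) (hδ : 0 < δ) (hd : 1 ≤ 4 * δ * lam) (hT : 16 ≤ T)
    {U1 U2 : ℝ} (h1 : T ≤ U1) (h2 : U2 ≤ 2 * T) (t : ℝ) :
    WW (Real.log T / lam) (Zf riemannZeta U1 U2) t ≤ 2 * (2 * Real.pi * lam) ^ 2 * SS δ T t := by
  have hlam0 : 0 < lam := by linarith
  have hpi := Real.pi_gt_three
  have hL0 : 0 < Real.log T := Real.log_pos (by linarith)
  set L := Real.log T with hL
  have hsub : Zf riemannZeta U1 U2 ⊆ ZD T := by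
    intro s hs
    rw [mem_Zf good_zeta (by linarith)] at hs
    unfold ZD
    rw [mem_Zf good_zeta (by linarith)]
    exact ⟨hs.1, hs.2.1, by linarith [hs.2.2.1], by linarith [hs.2.2.2.1], hs.2.2.2.2⟩
  unfold WW SS
  rw [Finset.mul_sum]
  refine (Finset.sum_le_sum_of_subset_of_nonneg hsub fun s _ _ =>
    mul_nonneg (mm_nonneg s) (by positivity)).trans (Finset.sum_le_sum fun s _ => ?_)
  have hm : mm s = (mz s : ℝ) := rfl
  rw [← hm]
  have e1 : Real.exp (Real.pi * |yy (L / lam) s|) ≤ Real.exp (2 * δ * (L * |s.re - 1 / 2|)) := by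
    apply Real.exp_le_exp.2
    unfold yy
    rw [abs_mul, abs_of_pos (by positivity : 0 < L / lam / (2 * Real.pi))]
    have : Real.pi * (|s.re - 1 / 2| * (L / lam / (2 * Real.pi))) =
        (L * |s.re - 1 / 2|) * (1 / (2 * lam)) := by field_simp
    rw [this]
    have h3 : 1 / (2 * lam) ≤ 2 * δ := by
      rw [div_le_iff₀ (by positivity)]
      nlinarith
    have h4 : 0 ≤ L * |s.re - 1 / 2| := by positivity
    nlinarith
  have e2 : 1 / (1 + xx (L / lam) s t ^ 2) ≤ 2 * (2 * Real.pi * lam) ^ 2 *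
      (1 / (1 + L * |s.im - t|) ^ 2) := by
    rw [div_le_iff₀ (by positivity), mul_one_div, div_mul_eq_mul_div, le_div_iff₀ (by positivity)]
    have h3 : xx (L / lam) s t = (t - s.im) * L / (2 * Real.pi * lam) := by
      unfold xx; field_simp
    have h4 : (2 * Real.pi * lam) ^ 2 * (1 + xx (L / lam) s t ^ 2) =
        (2 * Real.pi * lam) ^ 2 + (L * |s.im - t|) ^ 2 := by
      rw [h3, mul_pow L, sq_abs]
      field_simp
      ring
    have h5 : 1 ≤ (2 * Real.pi * lam) ^ 2 := by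
      apply one_le_pow₀
      nlinarith
    have h6 : 2 * (2 * Real.pi * lam) ^ 2 * (1 + xx (L / lam) s t ^ 2) =
        2 * ((2 * Real.pi * lam) ^ 2 * (1 + xx (L / lam) s t ^ 2)) := by ring
    rw [h6, h4]
    nlinarith [sq_nonneg (1 - L * |s.im - t|)]
  have h0 := mm_nonneg s
  calc mm s * (Real.exp (Real.pi * |yy (L / lam) s|) / (1 + xx (L / lam) s t ^ 2)) =
      mm s * (Real.exp (Real.pi * |yy (L / lam) s|) * (1 / (1 + xx (L / lam) s t ^ 2))) := by ring
    _ ≤ mm s * (Real.exp (2 * δ * (L * |s.re - 1 / 2|)) * (2 * (2 * Real.pi * lam) ^ 2 *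
      (1 / (1 + L * |s.im - t|) ^ 2))) := by
        gcongr
    _ = _ := by ring

theorem wmom : ∃ lam : ℝ, 16 ≤ lam ∧ WMom lam := by
  obtain ⟨θ, c, C, hθ, hθ1, hc, hC, hTB⟩ := b_TAIL
  set δ : ℝ := min (c / 48) (1 / 64) with hδ
  have hδ0 : 0 < δ := by rw [hδ]; positivity
  have hδc : 48 * δ ≤ c := by
    have := min_le_left (c / 48) (1 / 64 : ℝ)
    rw [← hδ] at this
    linarith
  have hδ64 : δ ≤ 1 / 64 := min_le_right _ _
  obtain ⟨C', hC', hst⟩ := stm θ c C hθ hθ1 hc hC hTB 2 δ hδ0 (by push_cast; linarith)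
  obtain ⟨T0, hT0⟩ := eventually_atTop.1 hst
  set lam : ℝ := 1 / (4 * δ) with hlam
  have hlam16 : 16 ≤ lam := by
    rw [hlam, le_div_iff₀ (by positivity)]
    linarith
  have hd : 1 ≤ 4 * δ * lam := by
    rw [hlam]
    apply le_of_eq
    field_simp
  refine ⟨lam, hlam16, (2 * (2 * Real.pi * lam) ^ 2) ^ 2 * (C' + 1), max T0 16, ?_, ?_, ?_⟩
  · have hpi := Real.pi_pos
    positivity
  · exact (by norm_num : (10 : ℝ) ≤ 16).trans (le_max_right _ _)
  intro T hT U1 U2 h1 h2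
  have hTT := (le_max_left _ _).trans hT
  have hT16 : 16 ≤ T := (le_max_right _ _).trans hT
  have hL0 : 0 < Real.log T := Real.log_pos (by linarith)
  have k := hT0 T hTT 1 (by
    push_cast
    exact Real.one_le_rpow (by linarith) (by positivity)) (fun _ => 1)
  have e1 : ∀ t, dp 1 (fun _ => 1) t = 1 := by
    intro t
    unfold dp
    simp
  have e2 : N2 1 (fun _ => 1) = 1 := by
    unfold N2
    simp
  simp only [e1, e2, norm_one, one_pow, mul_one] at k
  have hSc : Continuous (SS δ T) := Pool.Agent.Q257.UM.SS_cont hL0.le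
  have h3 : ∫ t in (T / 2)..(4 * T), WW (Real.log T / lam) (Zf riemannZeta U1 U2) t ^ 2 ≤
      ∫ t in (T / 2)..(4 * T), (2 * (2 * Real.pi * lam) ^ 2) ^ 2 * SS δ T t ^ 2 := by
    refine intervalIntegral.integral_mono_on (by linarith)
      (((WW_cont _ _).pow 2).intervalIntegrable _ _)
      ((continuous_const.mul (hSc.pow 2)).intervalIntegrable _ _) fun t _ => ?_
    rw [← mul_pow]
    exact pow_le_pow_left₀ (WW_nonneg _ _ _)
      (WW_le_SS (by linarith) hδ0 hd hT16 h1 h2 t) 2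
  rw [intervalIntegral.integral_const_mul] at h3
  have h4 : ∫ t in (T / 2)..(4 * T), SS δ T t ^ 2 ≤ ∫ t in (T / 4)..(8 * T), SS δ T t ^ 2 :=
    sub_int (hSc.pow 2) (fun t => sq_nonneg _) (by linarith) (by linarith) (by linarith)
  have h5 : 0 ≤ (2 * (2 * Real.pi * lam) ^ 2) ^ 2 := sq_nonneg _
  have h6 : C' * T ≤ (C' + 1) * T := by nlinarith
  refine (h3.trans (mul_le_mul_of_nonneg_left (h4.trans (k.trans h6)) h5)).trans (le_of_eq ?_)
  ring

end Pool.Agent.W2helper93.NV
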