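import Pool.Agent.W2helper93.NV.Pair

set_option autoImplicit false

/-! # From the sum over pairs to the one-sided pair counts -/

namespace Pool.Agent.W2helper93.NV

open Complex Filter Topology MeasureTheory Set

/-- one-sided pair count -/
noncomputable def RR (S : Finset ℂ) (h : ℝ) : ℝ :=
  ∑ s ∈ S, ∑ s' ∈ S, mm s * mm s' * (if 0 < s.im - s'.im ∧ s.im - s'.im ≤ h then 1 else 0)

/-- pairs at the same height -/
noncomputable def EQ (S : Finset ℂ) : ℝ :=
  ∑ s ∈ S, ∑ s' ∈ S, mm s * mm s' * (if s.im = s'.im then 1 else 0)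

/-- one-sided sum over pairs -/
noncomputable def QQ (S : Finset ℂ) (h : ℝ) : ℝ :=
  ∑ s ∈ S, ∑ s' ∈ S, mm s * mm s' * (if 0 < s.im - s'.im then max 0 (h - (s.im - s'.im)) else 0)

lemma mm2 (s s' : ℂ) : 0 ≤ mm s * mm s' := mul_nonneg (mm_nonneg s) (mm_nonneg s')

lemma RR_nonneg (S : Finset ℂ) (h : ℝ) : 0 ≤ RR S h :=
  Finset.sum_nonneg fun s _ => Finset.sum_nonneg fun s' _ => mul_nonneg (mm2 s s') (by
    split_ifs <;> simp)

lemma EQ_nonneg (S : Finset ℂ) : 0 ≤ EQ S :=
  Finset.sum_nonneg fun s _ => Finset.sum_nonneg fun s' _ => mul_nonneg (mm2 s s') (by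
    split_ifs <;> simp)

lemma RR_mono (S : Finset ℂ) {h h' : ℝ} (hh : h ≤ h') : RR S h ≤ RR S h' := by
  refine Finset.sum_le_sum fun s _ => Finset.sum_le_sum fun s' _ =>
    mul_le_mul_of_nonneg_left ?_ (mm2 s s')
  by_cases h1 : 0 < s.im - s'.im ∧ s.im - s'.im ≤ h
  · rw [if_pos h1, if_pos ⟨h1.1, h1.2.trans hh⟩]
  · rw [if_neg h1]
    split_ifs <;> simp

lemma PSum_eq (S : Finset ℂ) {h : ℝ} (hh : 0 ≤ h) : PSum S h = EQ S * h + 2 * QQ S h := by
  have e1 : QQ S h = ∑ s ∈ S, ∑ s' ∈ S, mm s * mm s' *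
      (if 0 < s'.im - s.im then max 0 (h - (s'.im - s.im)) else 0) := by
    unfold QQ
    rw [Finset.sum_comm]
    refine Finset.sum_congr rfl fun s _ => Finset.sum_congr rfl fun s' _ => ?_
    rw [mul_comm (mm s') (mm s)]
  have e2 : 2 * QQ S h = QQ S h + QQ S h := by ring
  rw [e2]
  nth_rewrite 2 [e1]
  unfold PSum QQ EQ
  rw [Finset.sum_mul, ← Finset.sum_add_distrib, ← Finset.sum_add_distrib]
  refine Finset.sum_congr rfl fun s _ => ?_
  rw [Finset.sum_mul, ← Finset.sum_add_distrib, ← Finset.sum_add_distrib]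
  refine Finset.sum_congr rfl fun s' _ => ?_
  rcases lt_trichotomy s.im s'.im with h1 | h1 | h1
  · rw [if_neg h1.ne, if_neg (by linarith), if_pos (by linarith), abs_of_neg (by linarith),
      show h - -(s.im - s'.im) = h - (s'.im - s.im) by ring]
    ring
  · rw [if_pos h1, h1, sub_self, if_neg (lt_irrefl 0), abs_zero, sub_zero, max_eq_right hh]
    ring
  · rw [if_neg h1.ne', if_pos (by linarith), if_neg (by linarith), abs_of_pos (by linarith)]
    ring

lemma QQ_diff (S : Finset ℂ) {h h' : ℝ} (hh : h ≤ h') :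
    (h' - h) * RR S h ≤ QQ S h' - QQ S h ∧ QQ S h' - QQ S h ≤ (h' - h) * RR S h' := by
  unfold QQ RR
  rw [← Finset.sum_sub_distrib, Finset.mul_sum, Finset.mul_sum]
  have key : ∀ s s' : ℂ, (h' - h) * (mm s * mm s' *
      (if 0 < s.im - s'.im ∧ s.im - s'.im ≤ h then 1 else 0)) ≤
      mm s * mm s' * (if 0 < s.im - s'.im then max 0 (h' - (s.im - s'.im)) else 0) -
      mm s * mm s' * (if 0 < s.im - s'.im then max 0 (h - (s.im - s'.im)) else 0) ∧
      mm s * mm s' * (if 0 < s.im - s'.im then max 0 (h' - (s.im - s'.im)) else 0) -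
      mm s * mm s' * (if 0 < s.im - s'.im then max 0 (h - (s.im - s'.im)) else 0) ≤
      (h' - h) * (mm s * mm s' *
      (if 0 < s.im - s'.im ∧ s.im - s'.im ≤ h' then 1 else 0)) := by
    intro s s'
    rw [← mul_sub, mul_left_comm, mul_left_comm (h' - h)]
    set d := s.im - s'.im with hd
    have h0 := mm2 s s'
    by_cases h1 : 0 < d
    · rw [if_pos h1, if_pos h1]
      constructor
      · apply mul_le_mul_of_nonneg_left _ h0
        by_cases h2 : d ≤ h
        · rw [if_pos ⟨h1, h2⟩, max_eq_right (by linarith), max_eq_right (by linarith)]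
          linarith
        · rw [if_neg (fun h => h2 h.2), max_eq_left (by linarith : h - d ≤ 0), mul_zero, sub_zero]
          exact le_max_left _ _
      · apply mul_le_mul_of_nonneg_left _ h0
        by_cases h2 : d ≤ h'
        · rw [if_pos ⟨h1, h2⟩, max_eq_right (by linarith : 0 ≤ h' - d)]
          have := le_max_right 0 (h - d)
          linarith
        · rw [if_neg (fun h => h2 h.2), max_eq_left (by linarith : h' - d ≤ 0),
            max_eq_left (by linarith : h - d ≤ 0)]
          simp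
    · rw [if_neg h1, if_neg h1, if_neg (fun h => h1 h.1), if_neg (fun h => h1 h.1)]
      simp
  constructor
  · refine Finset.sum_le_sum fun s _ => ?_
    rw [← Finset.sum_sub_distrib, Finset.mul_sum]
    exact Finset.sum_le_sum fun s' _ => (key s s').1
  · refine Finset.sum_le_sum fun s _ => ?_
    rw [← Finset.sum_sub_distrib, Finset.mul_sum]
    exact Finset.sum_le_sum fun s' _ => (key s s').2

/-- differences of the sum over pairs -/
theorem PSum_diff (S : Finset ℂ) {h h' : ℝ} (h0 : 0 ≤ h) (hh : h ≤ h') :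
    (h' - h) * (EQ S + 2 * RR S h) ≤ PSum S h' - PSum S h ∧
      PSum S h' - PSum S h ≤ (h' - h) * (EQ S + 2 * RR S h') := by
  obtain ⟨h1, h2⟩ := QQ_diff S hh
  rw [PSum_eq S h0, PSum_eq S (h0.trans hh)]
  constructor <;> nlinarith

lemma int_ici {α β : ℝ} (hαβ : α ≤ β) (x : ℝ) :
    ∫ a in α..β, (Ici x).indicator (fun _ => (1 : ℝ)) a = max 0 (β - x) - max 0 (α - x) := by
  have e1 : ∫ a in α..β, (Ici x).indicator (fun _ => (1 : ℝ)) a =
      ∫ a in α..β, (Ioi x).indicator (fun _ => (1 : ℝ)) a := by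
    refine intervalIntegral.integral_congr_ae ?_
    have h1 : ∀ᵐ a : ℝ, a ≠ x := by
      rw [ae_iff]
      simp
    filter_upwards [h1] with a ha _
    by_cases h2 : a ∈ Ioi x
    · rw [Set.indicator_of_mem h2, Set.indicator_of_mem (Ioi_subset_Ici_self h2)]
    · have h3 : a ∉ Ici x := fun h => h2 (lt_of_le_of_ne h (Ne.symm ha))
      rw [Set.indicator_of_notMem h2, Set.indicator_of_notMem h3]
  rw [e1, intervalIntegral.integral_of_le hαβ, setIntegral_indicator measurableSet_Ioi,
    Set.Ioc_inter_Ioi]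
  simp only [integral_const, smul_eq_mul, mul_one]
  rw [measureReal_restrict_apply_univ, Real.volume_real_Ioc]
  rcases le_total x α with h1 | h1
  · rw [sup_eq_left.2 h1, max_eq_right (by linarith : 0 ≤ β - x), max_eq_right (by linarith : 0 ≤ α - x),
      max_eq_left (by linarith)]
    ring
  · rw [sup_eq_right.2 h1, max_eq_left (by linarith : α - x ≤ 0), sub_zero, max_comm]

/-- the average of the one-sided counts -/
theorem RR_int (S : Finset ℂ) {α β c : ℝ} (hc : 0 < c) (hαβ : α ≤ β) :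
    ∫ a in α..β, RR S (c * a) = (QQ S (c * β) - QQ S (c * α)) / c := by
  have e1 : ∀ a, RR S (c * a) = ∑ s ∈ S, ∑ s' ∈ S, (mm s * mm s' *
      (if 0 < s.im - s'.im then 1 else 0)) * (Ici ((s.im - s'.im) / c)).indicator (fun _ => (1 : ℝ)) a := by
    intro a
    unfold RR
    refine Finset.sum_congr rfl fun s _ => Finset.sum_congr rfl fun s' _ => ?_
    have h3 : s.im - s'.im ≤ c * a ↔ a ∈ Ici ((s.im - s'.im) / c) := by
      rw [Set.mem_Ici, div_le_iff₀ hc, mul_comm a c]
    by_cases h1 : 0 < s.im - s'.im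
    · by_cases h2 : s.im - s'.im ≤ c * a
      · rw [if_pos ⟨h1, h2⟩, if_pos h1, Set.indicator_of_mem (h3.1 h2)]
        ring
      · rw [if_neg (fun h => h2 h.2), if_pos h1, Set.indicator_of_notMem (fun h => h2 (h3.2 h))]
        ring
    · rw [if_neg (fun h => h1 h.1), if_neg h1]
      ring
  simp_rw [e1]
  have i0 : ∀ x : ℝ, IntervalIntegrable ((Ici x).indicator (fun _ => (1 : ℝ))) volume α β := by
    intro x
    refine NV.ii (measurable_const.indicator measurableSet_Ici) 1 (fun t => ?_) α β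
    by_cases h : t ∈ Ici x
    · rw [Set.indicator_of_mem h]; simp
    · rw [Set.indicator_of_notMem h]; simp
  have i1 : ∀ s s' : ℂ, IntervalIntegrable (fun a => (mm s * mm s' *
      (if 0 < s.im - s'.im then 1 else 0)) * (Ici ((s.im - s'.im) / c)).indicator (fun _ => (1 : ℝ)) a)
      volume α β := fun s s' => (i0 _).const_mul _
  rw [intervalIntegral.integral_finsetSum fun s _ => by
    have := IntervalIntegrable.sum S (f := fun s' a => (mm s * mm s' *
      (if 0 < s.im - s'.im then 1 else 0)) * (Ici ((s.im - s'.im) / c)).indicator (fun _ => (1 : ℝ)) a)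
      (μ := volume) (a := α) (b := β) fun s' _ => i1 s s'
    refine this.congr fun t _ => ?_
    simp [Finset.sum_apply]]
  unfold QQ
  rw [← Finset.sum_sub_distrib, Finset.sum_div]
  refine Finset.sum_congr rfl fun s _ => ?_
  rw [intervalIntegral.integral_finsetSum fun s' _ => i1 s s', ← Finset.sum_sub_distrib,
    Finset.sum_div]
  refine Finset.sum_congr rfl fun s' _ => ?_
  rw [intervalIntegral.integral_const_mul, int_ici hαβ]
  by_cases h1 : 0 < s.im - s'.im
  · rw [if_pos h1, if_pos h1, if_pos h1]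
    have e2 : ∀ y : ℝ, max 0 (c * y - (s.im - s'.im)) = c * max 0 (y - (s.im - s'.im) / c) := by
      intro y
      rw [mul_max_of_nonneg _ _ hc.le, mul_zero]
      congr 1
      field_simp
    rw [e2, e2]
    field_simp
  · rw [if_neg h1, if_neg h1, if_neg h1]
    simp

end Pool.Agent.W2helper93.NV
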