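import Pool.Agent.W2helper93.NV.Loc
import Pool.Agent.W2helper93.NV.Star

set_option autoImplicit false

/-! # The quantities of the problem -/

namespace Pool.Agent.W2helper93.NV

open Complex Filter Topology MeasureTheory Set
open H370 (zz hh mult Zf zset AA good_zeta mem_Zf NN NN_add NN_mono zcount nn_asymp finsum_Zf)

/-- multiplicity of `s` as a zero of the Riemann zeta function (order of vanishing at `s`) -/
noncomputable def zmult (s : ℂ) : ℕ := analyticOrderNatAt riemannZeta s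

/-- the nontrivial zeros of `ζ` -/
def ZZ : Set ℂ := {s : ℂ | riemannZeta s = 0 ∧ 0 < s.re ∧ s.re < 1}

/-- `N*(T, a)` as in the problem -/
noncomputable def Nstar (T a : ℝ) : ℕ :=
  ∑ᶠ p ∈ {p : ℂ × ℂ | p.1 ∈ ZZ ∧ p.2 ∈ ZZ ∧ 0 < p.1.im ∧ p.1.im ≤ T ∧
    0 < p.1.im - p.2.im ∧ p.1.im - p.2.im ≤ 2 * Real.pi * a / Real.log T}, zmult p.1 * zmult p.2

/-- the number of zeros with ordinate in `(0, T]`, counted with multiplicity -/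
noncomputable def NT (T : ℝ) : ℕ :=
  ∑ᶠ s ∈ {s : ℂ | s ∈ ZZ ∧ 0 < s.im ∧ s.im ≤ T}, zmult s

/-- the number of ordered pairs of zeros with the same ordinate in `(0, T]` -/
noncomputable def NE (T : ℝ) : ℕ :=
  ∑ᶠ p ∈ {p : ℂ × ℂ | p.1 ∈ ZZ ∧ p.2 ∈ ZZ ∧ 0 < p.1.im ∧ p.1.im ≤ T ∧ p.1.im = p.2.im},
    zmult p.1 * zmult p.2

/-- the number of zeros with ordinate in `(0, T]` that are off the critical line or multiple -/
noncomputable def Nbad (T : ℝ) : ℕ :=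
  ∑ᶠ s ∈ {s : ℂ | s ∈ ZZ ∧ 0 < s.im ∧ s.im ≤ T ∧ (s.re ≠ 1 / 2 ∨ deriv riemannZeta s = 0)}, zmult s

/-- the number of zeros with ordinate in `[t, t + h)` -/
noncomputable def Nwin (t h : ℝ) : ℕ :=
  ∑ᶠ s ∈ {s : ℂ | s ∈ ZZ ∧ t ≤ s.im ∧ s.im < t + h}, zmult s

/-- the conjectured limit -/
noncomputable def MM (a : ℝ) : ℝ :=
  1 / (2 * Real.pi) * ∫ u in (0 : ℝ)..a, (1 - (Real.sin (Real.pi * u) / (Real.pi * u)) ^ 2)

lemma mm_eq (s : ℂ) : mm s = (zmult s : ℝ) := rfl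

lemma ZZ_fin (A B : ℝ) : {s : ℂ | s ∈ ZZ ∧ A ≤ s.im ∧ s.im ≤ B}.Finite := by
  have hcomp : IsCompact (Icc (0 : ℝ) 1 ×ℂ Icc A B) := isCompact_Icc.reProdIm isCompact_Icc
  refine hcomp.inter_riemannZetaZeros_finite.subset ?_
  rintro s ⟨⟨h0, h1, h2⟩, h3, h4⟩
  exact ⟨⟨⟨h1.le, h2.le⟩, ⟨h3, h4⟩⟩, h0⟩

/-- the low zeros -/
noncomputable def B0 : Finset ℂ := (ZZ_fin (-8) 8).toFinset

lemma mem_B0 {s : ℂ} : s ∈ B0 ↔ s ∈ ZZ ∧ -8 ≤ s.im ∧ s.im ≤ 8 := by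
  unfold B0
  rw [Set.Finite.mem_toFinset]
  rfl

noncomputable def KLow : ℝ := (∑ s ∈ B0, mm s) + ∑ p ∈ B0 ×ˢ B0, mm p.1 * mm p.2

lemma KLow_nonneg : 0 ≤ KLow :=
  add_nonneg (Finset.sum_nonneg fun s _ => mm_nonneg s) (Finset.sum_nonneg fun p _ => mm2 p.1 p.2)

lemma mem_S {T : ℝ} {s : ℂ} : s ∈ Zf riemannZeta 1 T ↔ s ∈ ZZ ∧ 1 < s.im ∧ s.im ≤ T := by
  rw [mem_Zf good_zeta le_rfl]
  constructor
  · rintro ⟨h1, h2, h3, h4, h5⟩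
    exact ⟨⟨h5, h1, h2⟩, h3, h4⟩
  · rintro ⟨⟨h5, h1, h2⟩, h3, h4⟩
    exact ⟨h1, h2, h3, h4, h5⟩

/-- comparison of a set of pairs with the pairs of zeros above height one -/
lemma pairs_cmp {T : ℝ} {D : ℂ × ℂ → Prop} [DecidablePred D] {P : Set (ℂ × ℂ)} (hP : P.Finite)
    (h1 : ∀ p : ℂ × ℂ, p.1 ∈ Zf riemannZeta 1 T → p.2 ∈ Zf riemannZeta 1 T → D p → p ∈ P)
    (h2 : ∀ p ∈ P, (p.1 ∈ Zf riemannZeta 1 T ∧ p.2 ∈ Zf riemannZeta 1 T ∧ D p) ∨ (p.1 ∈ B0 ∧ p.2 ∈ B0)) :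
    ∑ s ∈ Zf riemannZeta 1 T, ∑ s' ∈ Zf riemannZeta 1 T, mm s * mm s' * (if D (s, s') then 1 else 0) ≤
      ((∑ᶠ p ∈ P, zmult p.1 * zmult p.2 : ℕ) : ℝ) ∧
    ((∑ᶠ p ∈ P, zmult p.1 * zmult p.2 : ℕ) : ℝ) ≤
      ∑ s ∈ Zf riemannZeta 1 T, ∑ s' ∈ Zf riemannZeta 1 T, mm s * mm s' * (if D (s, s') then 1 else 0) +
        KLow := by
  classical
  set S := Zf riemannZeta 1 T with hS
  set G : Finset (ℂ × ℂ) := (S ×ˢ S).filter D with hG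
  have e1 : ∑ s ∈ S, ∑ s' ∈ S, mm s * mm s' * (if D (s, s') then 1 else 0) =
      ∑ p ∈ G, mm p.1 * mm p.2 := by
    rw [hG, Finset.sum_filter, Finset.sum_product]
    refine Finset.sum_congr rfl fun s _ => Finset.sum_congr rfl fun s' _ => ?_
    by_cases h : D (s, s')
    · rw [if_pos h, if_pos h, mul_one]
    · rw [if_neg h, if_neg h, mul_zero]
  have e2 : ((∑ᶠ p ∈ P, zmult p.1 * zmult p.2 : ℕ) : ℝ) = ∑ p ∈ hP.toFinset, mm p.1 * mm p.2 := by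
    rw [finsum_mem_eq_finite_toFinset_sum _ hP]
    push_cast
    rfl
  rw [e1, e2]
  constructor
  · refine Finset.sum_le_sum_of_subset_of_nonneg ?_ fun p _ _ => mm2 p.1 p.2
    intro p hp
    rw [hG, Finset.mem_filter, Finset.mem_product] at hp
    rw [Set.Finite.mem_toFinset]
    exact h1 p hp.1.1 hp.1.2 hp.2
  · have hsub : hP.toFinset ⊆ G ∪ (B0 ×ˢ B0) := by
      intro p hp
      rw [Set.Finite.mem_toFinset] at hp
      rw [Finset.mem_union, hG, Finset.mem_filter, Finset.mem_product, Finset.mem_product]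
      rcases h2 p hp with h | h
      · exact Or.inl ⟨⟨h.1, h.2.1⟩, h.2.2⟩
      · exact Or.inr h
    have h3 := Finset.sum_le_sum_of_subset_of_nonneg hsub (f := fun p => mm p.1 * mm p.2)
      fun p _ _ => mm2 p.1 p.2
    have h4 : ∑ p ∈ G ∪ (B0 ×ˢ B0), mm p.1 * mm p.2 ≤ ∑ p ∈ G, mm p.1 * mm p.2 +
        ∑ p ∈ B0 ×ˢ B0, mm p.1 * mm p.2 := by
      rw [← Finset.sum_union_inter]
      have : 0 ≤ ∑ p ∈ G ∩ B0 ×ˢ B0, mm p.1 * mm p.2 := Finset.sum_nonneg fun p _ => mm2 p.1 p.2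
      linarith
    have h5 : 0 ≤ ∑ s ∈ B0, mm s := Finset.sum_nonneg fun s _ => mm_nonneg s
    unfold KLow
    linarith

lemma Nstar_fin (T a : ℝ) : {p : ℂ × ℂ | p.1 ∈ ZZ ∧ p.2 ∈ ZZ ∧ 0 < p.1.im ∧ p.1.im ≤ T ∧
    0 < p.1.im - p.2.im ∧ p.1.im - p.2.im ≤ 2 * Real.pi * a / Real.log T}.Finite := by
  refine ((ZZ_fin 0 T).prod (ZZ_fin (-(2 * Real.pi * a / Real.log T)) T)).subset ?_
  rintro ⟨s, s'⟩ ⟨h1, h2, h3, h4, h5, h6⟩
  simp only at h3 h4 h5 h6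
  exact ⟨⟨h1, h3.le, h4⟩, ⟨h2, by linarith, by linarith⟩⟩

lemma Nstar_cmp {T a : ℝ} (h7 : 2 * Real.pi * a / Real.log T ≤ 7) :
    RR (Zf riemannZeta 1 T) (2 * Real.pi * a / Real.log T) ≤ (Nstar T a : ℝ) ∧
      (Nstar T a : ℝ) ≤ RR (Zf riemannZeta 1 T) (2 * Real.pi * a / Real.log T) + KLow := by
  classical
  refine pairs_cmp (D := fun p => 0 < p.1.im - p.2.im ∧ p.1.im - p.2.im ≤
    2 * Real.pi * a / Real.log T) (Nstar_fin T a) ?_ ?_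
  · rintro ⟨s, s'⟩ h1 h2 ⟨h3, h4⟩
    rw [mem_S] at h1 h2
    exact ⟨h1.1, h2.1, by linarith [h1.2.1], h1.2.2, h3, h4⟩
  · rintro ⟨s, s'⟩ ⟨h1, h2, h3, h4, h5, h6⟩
    simp only at h1 h2 h3 h4 h5 h6
    by_cases h : 1 < s'.im
    · left
      refine ⟨?_, ?_, h5, h6⟩
      · rw [mem_S]; exact ⟨h1, by linarith, h4⟩
      · rw [mem_S]; exact ⟨h2, h, by linarith⟩
    · right
      push Not at h
      refine ⟨?_, ?_⟩
      · rw [mem_B0]; exact ⟨h1, by linarith, by linarith⟩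
      · rw [mem_B0]; exact ⟨h2, by linarith, by linarith⟩

lemma NE_fin (T : ℝ) : {p : ℂ × ℂ | p.1 ∈ ZZ ∧ p.2 ∈ ZZ ∧ 0 < p.1.im ∧ p.1.im ≤ T ∧
    p.1.im = p.2.im}.Finite := by
  refine ((ZZ_fin 0 T).prod (ZZ_fin 0 T)).subset ?_
  rintro ⟨s, s'⟩ ⟨h1, h2, h3, h4, h5⟩
  simp only at h3 h4 h5
  exact ⟨⟨h1, h3.le, h4⟩, ⟨h2, by linarith, by linarith⟩⟩

lemma NE_cmp (T : ℝ) : EQ (Zf riemannZeta 1 T) ≤ (NE T : ℝ) ∧
    (NE T : ℝ) ≤ EQ (Zf riemannZeta 1 T) + KLow := by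
  classical
  refine pairs_cmp (D := fun p => p.1.im = p.2.im) (NE_fin T) ?_ ?_
  · rintro ⟨s, s'⟩ h1 h2 h3
    rw [mem_S] at h1 h2
    exact ⟨h1.1, h2.1, by linarith [h1.2.1], h1.2.2, h3⟩
  · rintro ⟨s, s'⟩ ⟨h1, h2, h3, h4, h5⟩
    simp only at h1 h2 h3 h4 h5
    by_cases h : 1 < s'.im
    · left
      refine ⟨?_, ?_, h5⟩
      · rw [mem_S]; exact ⟨h1, by linarith, h4⟩
      · rw [mem_S]; exact ⟨h2, h, by linarith⟩
    · right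
      push Not at h
      refine ⟨?_, ?_⟩
      · rw [mem_B0]; exact ⟨h1, by linarith, by linarith⟩
      · rw [mem_B0]; exact ⟨h2, by linarith, by linarith⟩

lemma NT_fin (T : ℝ) : {s : ℂ | s ∈ ZZ ∧ 0 < s.im ∧ s.im ≤ T}.Finite :=
  (ZZ_fin 0 T).subset fun _ hs => ⟨hs.1, hs.2.1.le, hs.2.2⟩

lemma NT_cmp (T : ℝ) : (NN riemannZeta 1 T : ℝ) ≤ (NT T : ℝ) ∧
    (NT T : ℝ) ≤ (NN riemannZeta 1 T : ℝ) + KLow := by
  classical
  have e2 : (NT T : ℝ) = ∑ s ∈ (NT_fin T).toFinset, mm s := by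
    unfold NT
    rw [finsum_mem_eq_finite_toFinset_sum _ (NT_fin T)]
    push_cast
    rfl
  rw [e2, NN_sum le_rfl]
  constructor
  · refine Finset.sum_le_sum_of_subset_of_nonneg ?_ fun p _ _ => mm_nonneg p
    intro s hs
    rw [mem_S] at hs
    rw [Set.Finite.mem_toFinset]
    exact ⟨hs.1, by linarith [hs.2.1], hs.2.2⟩
  · have hsub : (NT_fin T).toFinset ⊆ Zf riemannZeta 1 T ∪ B0 := by
      intro s hs
      rw [Set.Finite.mem_toFinset] at hs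
      rw [Finset.mem_union]
      by_cases h : 1 < s.im
      · left; rw [mem_S]; exact ⟨hs.1, h, hs.2.2⟩
      · right
        push Not at h
        rw [mem_B0]; exact ⟨hs.1, by linarith [hs.2.1], by linarith⟩
    have h3 := Finset.sum_le_sum_of_subset_of_nonneg hsub (f := fun p => mm p)
      fun p _ _ => mm_nonneg p
    have h4 : ∑ p ∈ Zf riemannZeta 1 T ∪ B0, mm p ≤ ∑ p ∈ Zf riemannZeta 1 T, mm p +
        ∑ p ∈ B0, mm p := by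
      rw [← Finset.sum_union_inter]
      have : 0 ≤ ∑ p ∈ Zf riemannZeta 1 T ∩ B0, mm p := Finset.sum_nonneg fun p _ => mm_nonneg p
      linarith
    have h5 : 0 ≤ ∑ p ∈ B0 ×ˢ B0, mm p.1 * mm p.2 := Finset.sum_nonneg fun p _ => mm2 p.1 p.2
    unfold KLow
    linarith

lemma Nstar_mono {T : ℝ} (hT : 1 < T) {a b : ℝ} (hab : a ≤ b) : Nstar T a ≤ Nstar T b := by
  unfold Nstar
  rw [finsum_mem_eq_finite_toFinset_sum _ (Nstar_fin T a),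
    finsum_mem_eq_finite_toFinset_sum _ (Nstar_fin T b)]
  refine Finset.sum_le_sum_of_subset ?_
  intro p hp
  rw [Set.Finite.mem_toFinset] at hp ⊢
  obtain ⟨h1, h2, h3, h4, h5, h6⟩ := hp
  refine ⟨h1, h2, h3, h4, h5, h6.trans ?_⟩
  have hL := Real.log_pos hT
  have hpi := Real.pi_pos
  gcongr

/-- windows -/
lemma Nwin_eq {T t h : ℝ} (ht : 1 < t) (hh : 0 ≤ h) (h2 : t + h ≤ T) :
    (Nwin t h : ℝ) = Nb (Zf riemannZeta 1 T) (t + h) - Nb (Zf riemannZeta 1 T) t := by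
  have hf : {s : ℂ | s ∈ ZZ ∧ t ≤ s.im ∧ s.im < t + h}.Finite :=
    (ZZ_fin t (t + h)).subset fun _ hs => ⟨hs.1, hs.2.1, hs.2.2.le⟩
  unfold Nwin
  rw [finsum_mem_eq_finite_toFinset_sum _ hf, Nb_sub_eq _ (by linarith)]
  push_cast
  refine Finset.sum_congr ?_ fun _ _ => rfl
  ext s
  rw [Set.Finite.mem_toFinset, Finset.mem_filter, mem_S]
  constructor
  · rintro ⟨h1, h3, h4⟩
    exact ⟨⟨h1, by linarith, by linarith⟩, h3, h4⟩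
  · rintro ⟨⟨h1, h3, h4⟩, h5, h6⟩
    exact ⟨h1, h5, h6⟩

end Pool.Agent.W2helper93.NV
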