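import Pool.Agent.Helper7.OT.Sinc

set_option autoImplicit false

/-! # The integral of `(sin π u / π u)²` -/

namespace Pool.Agent.W2helper93.NV

open Filter Topology MeasureTheory Set

/-- `∫_0^a (sin π u / π u)² du` -/
noncomputable def II (a : ℝ) : ℝ := ∫ u in (0 : ℝ)..a, Real.sinc (Real.pi * u) ^ 2

lemma sc_cont : Continuous fun u : ℝ => Real.sinc (Real.pi * u) ^ 2 := by
  have := Real.continuous_sinc
  fun_prop

lemma II_deriv (a : ℝ) : HasDerivAt II (Real.sinc (Real.pi * a) ^ 2) a :=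
  (sc_cont.integral_hasStrictDerivAt 0 a).hasDerivAt

lemma II_cont : Continuous II :=
  continuous_iff_continuousAt.2 fun a => (II_deriv a).continuousAt

lemma II_mono {a b : ℝ} (hab : a ≤ b) : II a ≤ II b := by
  have h : II b - II a = ∫ u in a..b, Real.sinc (Real.pi * u) ^ 2 := by
    unfold II
    rw [intervalIntegral.integral_interval_sub_left (sc_cont.intervalIntegrable _ _)
      (sc_cont.intervalIntegrable _ _)]
  have h2 : 0 ≤ ∫ u in a..b, Real.sinc (Real.pi * u) ^ 2 :=
    intervalIntegral.integral_nonneg hab fun u _ => sq_nonneg _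
  linarith

lemma II_zero : II 0 = 0 := by
  unfold II
  exact intervalIntegral.integral_same

lemma II_lim : Tendsto II atTop (𝓝 (1 / 2)) := by
  obtain ⟨hi, h1⟩ := Pool.Agent.Helper7.Simplex.OT.J26884.sinc_fourier 0
  simp only [mul_zero, zero_mul, Real.cos_zero, mul_one, abs_zero, sub_zero] at h1
  rw [max_eq_right zero_le_one] at h1
  have h2 : ∫ t in Ioi (0 : ℝ), Real.sinc (Real.pi * t) ^ 2 = 1 / 2 := by
    have h3 := integral_comp_abs (f := fun t : ℝ => Real.sinc (Real.pi * t) ^ 2)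
    have h4 : ∀ t : ℝ, Real.sinc (Real.pi * |t|) ^ 2 = Real.sinc (Real.pi * t) ^ 2 := by
      intro t
      rcases abs_choice t with h | h
      · rw [h]
      · rw [h, mul_neg, Real.sinc_neg]
    simp_rw [h4] at h3
    rw [h1] at h3
    linarith
  rw [← h2]
  exact intervalIntegral_tendsto_integral_Ioi 0 hi.integrableOn tendsto_id

lemma II_le_half (a : ℝ) : II a ≤ 1 / 2 := by
  refine ge_of_tendsto II_lim ?_
  filter_upwards [eventually_ge_atTop a] with b hb
  exact II_mono hb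

lemma sinc_sq_eq {a : ℝ} (ha : 0 < a) : Real.sinc (Real.pi * a) ^ 2 =
    (1 - Real.cos (2 * (Real.pi * a))) / (2 * Real.pi ^ 2 * a ^ 2) := by
  have hpi := Real.pi_pos
  rw [Real.sinc_of_ne_zero (by positivity), div_pow, Real.sin_sq, Real.cos_two_mul]
  field_simp
  ring

/-- the corrected tail -/
noncomputable def GG (a : ℝ) : ℝ :=
  II a - 1 / 2 + 1 / (2 * Real.pi ^ 2 * a) + Real.sin (2 * (Real.pi * a)) / (4 * Real.pi ^ 3 * a ^ 2)

lemma GG_deriv {a : ℝ} (ha : 0 < a) :
    HasDerivAt GG (-(Real.sin (2 * (Real.pi * a)) / (2 * Real.pi ^ 3 * a ^ 3))) a := by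
  have hpi := Real.pi_pos
  have h1 := II_deriv a
  have h2 : HasDerivAt (fun a : ℝ => 1 / (2 * Real.pi ^ 2 * a)) (-(1 / (2 * Real.pi ^ 2 * a ^ 2))) a := by
    have h3 := ((hasDerivAt_id' a).const_mul (2 * Real.pi ^ 2)).inv (by positivity)
    refine (h3.congr_deriv ?_).congr_of_eventuallyEq (Eventually.of_forall fun x => ?_)
    · field_simp
    · simp [one_div]
  have h3 : HasDerivAt (fun a : ℝ => Real.sin (2 * (Real.pi * a)))
      (Real.cos (2 * (Real.pi * a)) * (2 * Real.pi)) a := by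
    have h4 : HasDerivAt (fun a : ℝ => 2 * (Real.pi * a)) (2 * Real.pi) a := by
      have := ((hasDerivAt_id' a).const_mul Real.pi).const_mul 2
      simpa using this
    exact (Real.hasDerivAt_sin _).comp a h4
  have h4 : HasDerivAt (fun a : ℝ => 4 * Real.pi ^ 3 * a ^ 2) (4 * Real.pi ^ 3 * (2 * a)) a := by
    have := (hasDerivAt_pow 2 a).const_mul (4 * Real.pi ^ 3)
    simpa using this
  have h5 := h3.div h4 (by positivity)
  have h6 := ((h1.sub_const (1 / 2)).add h2).add h5
  refine h6.congr_deriv ?_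
  rw [sinc_sq_eq ha]
  field_simp
  ring

lemma GG_lim : Tendsto GG atTop (𝓝 0) := by
  have hpi := Real.pi_pos
  have h1 : Tendsto (fun a : ℝ => II a - 1 / 2) atTop (𝓝 0) := by
    have := II_lim.sub_const (1 / 2)
    simpa using this
  have h2 : Tendsto (fun a : ℝ => 1 / (2 * Real.pi ^ 2 * a)) atTop (𝓝 0) := by
    have := (tendsto_inv_atTop_zero (𝕜 := ℝ)).const_mul (1 / (2 * Real.pi ^ 2))
    rw [mul_zero] at this
    refine this.congr fun a => ?_
    rw [one_div, one_div, ← mul_inv]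
  have h3 : Tendsto (fun a : ℝ => Real.sin (2 * (Real.pi * a)) / (4 * Real.pi ^ 3 * a ^ 2)) atTop (𝓝 0) := by
    have h4 : Tendsto (fun a : ℝ => 1 / (4 * Real.pi ^ 3 * a ^ 2)) atTop (𝓝 0) := by
      have := ((tendsto_inv_atTop_zero (𝕜 := ℝ)).comp
        (tendsto_pow_atTop (α := ℝ) (n := 2) two_ne_zero)).const_mul (1 / (4 * Real.pi ^ 3))
      rw [mul_zero] at this
      refine this.congr fun a => ?_
      show 1 / (4 * Real.pi ^ 3) * (a ^ 2)⁻¹ = _
      rw [one_div, one_div, ← mul_inv]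
    refine squeeze_zero_norm (fun a => ?_) h4
    rw [norm_div, Real.norm_of_nonneg (by positivity : (0 : ℝ) ≤ 4 * Real.pi ^ 3 * a ^ 2)]
    apply div_le_div_of_nonneg_right (Real.abs_sin_le_one _) (by positivity)
  have h4 := (h1.add h2).add h3
  rw [add_zero, add_zero] at h4
  exact h4

lemma q_deriv {a : ℝ} (ha : 0 < a) :
    HasDerivAt (fun a : ℝ => 1 / (4 * Real.pi ^ 3 * a ^ 2)) (-(1 / (2 * Real.pi ^ 3 * a ^ 3))) a := by
  have hpi := Real.pi_pos
  have h4 : HasDerivAt (fun a : ℝ => 4 * Real.pi ^ 3 * a ^ 2) (4 * Real.pi ^ 3 * (2 * a)) a := by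
    have := (hasDerivAt_pow 2 a).const_mul (4 * Real.pi ^ 3)
    simpa using this
  have h3 := h4.inv (by positivity)
  refine (h3.congr_deriv ?_).congr_of_eventuallyEq (Eventually.of_forall fun x => ?_)
  · field_simp
    ring
  · simp [one_div]

lemma q_lim : Tendsto (fun a : ℝ => 1 / (4 * Real.pi ^ 3 * a ^ 2)) atTop (𝓝 0) := by
  have := ((tendsto_inv_atTop_zero (𝕜 := ℝ)).comp
    (tendsto_pow_atTop (α := ℝ) (n := 2) two_ne_zero)).const_mul (1 / (4 * Real.pi ^ 3))
  rw [mul_zero] at this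
  refine this.congr fun a => ?_
  show 1 / (4 * Real.pi ^ 3) * (a ^ 2)⁻¹ = _
  rw [one_div, one_div, ← mul_inv]

/-- a function with nonpositive derivative and limit zero is nonnegative -/
lemma nonneg_of_deriv {g g' : ℝ → ℝ} (hd : ∀ a, 0 < a → HasDerivAt g (g' a) a)
    (h0 : ∀ a, 0 < a → g' a ≤ 0) (hl : Tendsto g atTop (𝓝 0)) {a : ℝ} (ha : 0 < a) : 0 ≤ g a := by
  have h1 : AntitoneOn g (Ici a) := by
    refine antitoneOn_of_deriv_nonpos (convex_Ici a) ?_ ?_ ?_
    · intro x hx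
      exact (hd x (lt_of_lt_of_le ha hx)).continuousAt.continuousWithinAt
    · intro x hx
      rw [interior_Ici] at hx
      exact (hd x (ha.trans hx)).differentiableAt.differentiableWithinAt
    · intro x hx
      rw [interior_Ici] at hx
      rw [(hd x (ha.trans hx)).deriv]
      exact h0 x (ha.trans hx)
  refine le_of_tendsto hl ?_
  filter_upwards [eventually_ge_atTop a] with b hb
  exact h1 self_mem_Ici hb hb

lemma GG_bd {a : ℝ} (ha : 0 < a) : |GG a| ≤ 1 / (4 * Real.pi ^ 3 * a ^ 2) := by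
  have hpi := Real.pi_pos
  have hq : ∀ x : ℝ, 0 < x → |Real.sin (2 * (Real.pi * x)) / (2 * Real.pi ^ 3 * x ^ 3)| ≤
      1 / (2 * Real.pi ^ 3 * x ^ 3) := by
    intro x hx
    rw [abs_div, abs_of_pos (by positivity : 0 < 2 * Real.pi ^ 3 * x ^ 3)]
    exact div_le_div_of_nonneg_right (Real.abs_sin_le_one _) (by positivity)
  rw [abs_le]
  constructor
  · have h1 := nonneg_of_deriv (g := fun a => GG a + 1 / (4 * Real.pi ^ 3 * a ^ 2))
      (fun a ha => (GG_deriv ha).add (q_deriv ha)) (fun x hx => ?_)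
      (by have := GG_lim.add q_lim; rwa [add_zero] at this) ha
    · linarith
    · have := (abs_le.1 (hq x hx)).1
      linarith
  · have h1 := nonneg_of_deriv (g := fun a => 1 / (4 * Real.pi ^ 3 * a ^ 2) - GG a)
      (fun a ha => (q_deriv ha).sub (GG_deriv ha)) (fun x hx => ?_)
      (by have := q_lim.sub GG_lim; rwa [sub_zero] at this) ha
    · linarith
    · have := (abs_le.1 (hq x hx)).2
      linarith

lemma II_asymp {a : ℝ} (ha : 0 < a) :
    |II a - (1 / 2 - 1 / (2 * Real.pi ^ 2 * a))| ≤ 1 / a ^ 2 := by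
  have hpi := Real.pi_gt_three
  have h1 := GG_bd ha
  have h2 : |Real.sin (2 * (Real.pi * a)) / (4 * Real.pi ^ 3 * a ^ 2)| ≤
      1 / (4 * Real.pi ^ 3 * a ^ 2) := by
    rw [abs_div, abs_of_pos (by positivity : 0 < 4 * Real.pi ^ 3 * a ^ 2)]
    exact div_le_div_of_nonneg_right (Real.abs_sin_le_one _) (by positivity)
  have h3 : II a - (1 / 2 - 1 / (2 * Real.pi ^ 2 * a)) =
      GG a - Real.sin (2 * (Real.pi * a)) / (4 * Real.pi ^ 3 * a ^ 2) := by
    unfold GG
    ring
  rw [h3]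
  refine (abs_sub _ _).trans ((add_le_add h1 h2).trans ?_)
  rw [← add_div]
  rw [div_le_div_iff₀ (by positivity) (by positivity)]
  have h4 : (1 : ℝ) ≤ Real.pi ^ 3 := one_le_pow₀ (by linarith)
  have h5 : 0 < a ^ 2 := by positivity
  nlinarith

/-- the integral of `II` -/
theorem II_int {α β : ℝ} (hα : 1 ≤ α) (hαβ : α ≤ β) :
    |(∫ a in α..β, II a) - ((β - α) / 2 - (Real.log β - Real.log α) / (2 * Real.pi ^ 2))| ≤ 1 := by
  have hpi := Real.pi_pos
  have hne : ∀ x ∈ Set.uIcc α β, x ≠ 0 := by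
    intro x hx
    rw [Set.uIcc_of_le hαβ] at hx
    linarith [hx.1]
  have hpos : (0 : ℝ) ∉ Set.uIcc α β := fun h => hne 0 h rfl
  have c1 : ContinuousOn (fun a : ℝ => 1 / (2 * Real.pi ^ 2 * a)) (Set.uIcc α β) := by
    refine continuousOn_const.div (continuousOn_const.mul continuousOn_id) fun x hx => ?_
    have := hne x hx
    positivity
  have c2 : ContinuousOn (fun a : ℝ => 1 / a ^ 2) (Set.uIcc α β) := by
    refine continuousOn_const.div (continuousOn_id.pow 2) fun x hx => ?_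
    have := hne x hx
    positivity
  have c3 : ContinuousOn (fun a : ℝ => 1 / 2 - 1 / (2 * Real.pi ^ 2 * a)) (Set.uIcc α β) :=
    continuousOn_const.sub c1
  have e1 : ∫ a in α..β, (1 / 2 - 1 / (2 * Real.pi ^ 2 * a)) =
      (β - α) / 2 - (Real.log β - Real.log α) / (2 * Real.pi ^ 2) := by
    rw [intervalIntegral.integral_sub (continuous_const.intervalIntegrable _ _)
      c1.intervalIntegrable, intervalIntegral.integral_const]
    have e2 : ∀ a : ℝ, 1 / (2 * Real.pi ^ 2 * a) = 1 / (2 * Real.pi ^ 2) * a⁻¹ := by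
      intro a
      rw [one_div, one_div, mul_inv]
    simp_rw [e2]
    rw [intervalIntegral.integral_const_mul, integral_inv hpos, Real.log_div (by linarith) (by linarith),
      smul_eq_mul]
    ring
  rw [← e1, ← intervalIntegral.integral_sub (II_cont.intervalIntegrable _ _)
    c3.intervalIntegrable]
  refine (intervalIntegral.abs_integral_le_integral_abs hαβ).trans ?_
  have h2 : ∫ a in α..β, |II a - (1 / 2 - 1 / (2 * Real.pi ^ 2 * a))| ≤ ∫ a in α..β, 1 / a ^ 2 := by
    refine intervalIntegral.integral_mono_on hαβ ?_ c2.intervalIntegrable fun x hx => ?_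
    · exact ((II_cont.continuousOn.sub c3).abs).intervalIntegrable
    · exact II_asymp (by linarith [hx.1])
  refine h2.trans ?_
  have e3 : ∫ a in α..β, 1 / a ^ 2 = α⁻¹ - β⁻¹ := by
    have h3 : ∀ x ∈ Set.uIcc α β, HasDerivAt (fun x : ℝ => -x⁻¹) (1 / x ^ 2) x := by
      intro x hx
      have h4 : HasDerivAt (fun x : ℝ => -x⁻¹) (-(-(x ^ 2)⁻¹)) x := (hasDerivAt_inv (hne x hx)).neg
      refine h4.congr_deriv ?_
      rw [neg_neg, one_div]
    rw [intervalIntegral.integral_eq_sub_of_hasDerivAt h3 c2.intervalIntegrable]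
    ring
  rw [e3]
  have h4 : α⁻¹ ≤ 1 := inv_le_one_of_one_le₀ hα
  have h5 : 0 ≤ β⁻¹ := by
    have : 0 < β := by linarith
    positivity
  linarith

end Pool.Agent.W2helper93.NV
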