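import Pool.Agent.W2helper93.NV.Glob

set_option autoImplicit false

/-! # The number of zeros up to `T` -/

namespace Pool.Agent.W2helper93.NV

open Complex Filter Topology MeasureTheory Set
open H370 (zz hh mult Zf zset AA good_zeta mem_Zf NN NN_add NN_mono zcount nn_asymp finsum_Zf)

/-- a trivial bound -/
lemma low_count : ∃ C T0 : ℝ, 0 < C ∧ 10 ≤ T0 ∧ ∀ T : ℝ, T0 ≤ T → ∀ x : ℝ, 1 ≤ x → x ≤ T →
    (NN riemannZeta 1 x : ℝ) ≤ C * (x * Real.log T) := by
  obtain ⟨C, T1, hC, hT1, hloc⟩ := loc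
  refine ⟨3 * C, T1, by positivity, hT1, fun T hT x hx hxT => ?_⟩
  have hT10 : 10 ≤ T := hT1.trans hT
  have hL0 : 0 < Real.log T := Real.log_pos (by linarith)
  set S := Zf riemannZeta 1 T with hS
  have h1 : ∀ n : ℕ, Nb S (7 * n) ≤ n * (C * Real.log T) := by
    intro n
    induction n with
    | zero =>
      have : Nb S (7 * (0 : ℕ)) = 0 := by
        unfold Nb
        refine Finset.sum_eq_zero fun s hs => ?_
        rw [hS, mem_Zf good_zeta le_rfl] at hs
        have := hs.2.2.1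
        rw [if_neg (by push_cast; linarith)]
      rw [this]
      simp
    | succ n ih =>
      have h2 := hloc T hT (7 * n)
      push_cast
      rw [show (7 : ℝ) * (n + 1) = 7 * n + 7 by ring]
      linarith
  set n := ⌊x⌋₊ + 1 with hn
  have hn1 : x < n := by rw [hn]; push_cast; exact Nat.lt_floor_add_one x
  have hn2 : (n : ℝ) ≤ 2 * x := by
    have := Nat.floor_le (by linarith : 0 ≤ x)
    rw [hn]; push_cast; linarith
  have h2 : (NN riemannZeta 1 x : ℝ) ≤ Nb S (7 * n) := by
    rw [NN_sum le_rfl]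
    unfold Nb
    have hsub : Zf riemannZeta 1 x ⊆ S := by
      intro s hs
      rw [mem_Zf good_zeta le_rfl] at hs
      rw [hS, mem_Zf good_zeta le_rfl]
      exact ⟨hs.1, hs.2.1, hs.2.2.1, by linarith [hs.2.2.2.1], hs.2.2.2.2⟩
    calc ∑ s ∈ Zf riemannZeta 1 x, mm s = ∑ s ∈ Zf riemannZeta 1 x, if s.im < 7 * n then mm s else 0 := by
          refine Finset.sum_congr rfl fun s hs => ?_
          rw [mem_Zf good_zeta le_rfl] at hs
          have := hs.2.2.2.1
          rw [if_pos (by linarith)]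
      _ ≤ _ := Finset.sum_le_sum_of_subset_of_nonneg hsub fun s _ _ => by
          split_ifs
          · exact mm_nonneg s
          · exact le_rfl
  have h3 := h1 n
  have h4 : (n : ℝ) * (C * Real.log T) ≤ 2 * x * (C * Real.log T) :=
    mul_le_mul_of_nonneg_right hn2 (by positivity)
  have h5 : 0 ≤ C * (x * Real.log T) := by positivity
  nlinarith

theorem tot : ∃ C T0 : ℝ, 0 < C ∧ 10 ≤ T0 ∧ ∀ T : ℝ, T0 ≤ T →
    |(NN riemannZeta 1 T : ℝ) - T * Real.log T / (2 * Real.pi)| ≤ C * T := by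
  obtain ⟨Cl, T1, hCl, hT1, hlow⟩ := low_count
  obtain ⟨Cn, V1, hCn, hV1, hnn⟩ := nn_asymp good_zeta
  have hpi := Real.pi_gt_three
  have hpi0 := Real.pi_pos
  have ev1 : ∀ᶠ T : ℝ in atTop, 2 * Real.sqrt T * Real.log T ≤ T := by
    have h1 : (fun T : ℝ => Real.log T) =o[atTop] fun T : ℝ => T ^ (1 / 2 : ℝ) :=
      isLittleO_log_rpow_atTop (by norm_num)
    have h2 := h1.bound (c := 1 / 2) (by norm_num)
    filter_upwards [h2, eventually_ge_atTop 1] with T hT hT1
    have hs : T ^ (1 / 2 : ℝ) = Real.sqrt T := (Real.sqrt_eq_rpow T).symm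
    have hs1 : 1 ≤ Real.sqrt T := Real.one_le_sqrt.2 hT1
    have hss : Real.sqrt T * Real.sqrt T = T := Real.mul_self_sqrt (by linarith)
    rw [hs, Real.norm_of_nonneg (by linarith : (0 : ℝ) ≤ Real.sqrt T)] at hT
    have h3 := (le_abs_self _).trans hT
    nlinarith
  have ev2 : ∀ᶠ T : ℝ in atTop, V1 ≤ Real.sqrt T :=
    (Filter.Tendsto.eventually_ge_atTop Real.tendsto_sqrt_atTop _)
  obtain ⟨T2, hT2⟩ := (ev1.and ev2).exists_forall_of_atTop
  refine ⟨Cl + Cn + 2, max T1 T2, by positivity, hT1.trans (le_max_left _ _), fun T hT => ?_⟩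
  obtain ⟨g1, g2⟩ := hT2 T ((le_max_right _ _).trans hT)
  have hT10 : 10 ≤ T := hT1.trans ((le_max_left _ _).trans hT)
  have hT0 : 0 < T := by linarith
  have hs10 : 10 ≤ Real.sqrt T := hV1.trans g2
  have hss : Real.sqrt T * Real.sqrt T = T := Real.mul_self_sqrt (by linarith)
  obtain ⟨J, hJ1, hJ2⟩ := dy_J (by linarith : (1 : ℝ) ≤ T)
  set L := Real.log T with hL
  have hL0 : 0 < L := Real.log_pos (by linarith)
  set V : ℕ → ℝ := fun j => T / 2 ^ j with hV
  have hVpos : ∀ j, 0 < V j := fun j => by rw [hV]; positivity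
  have hVs : ∀ j, V j = 2 * V (j + 1) := by
    intro j
    simp only [hV, pow_succ]
    field_simp
  have hVJ : ∀ j, j ≤ J → Real.sqrt T ≤ V j := by
    intro j hj
    refine hJ1.trans ?_
    simp only [hV]
    apply div_le_div_of_nonneg_left (by linarith) (by positivity)
    exact pow_le_pow_right₀ (by norm_num) hj
  have hVlog : ∀ j, Real.log (V j) = L - j * Real.log 2 := by
    intro j
    simp only [hV]
    rw [Real.log_div (by linarith) (by positivity), Real.log_pow]
  have hlog2 : Real.log 2 ≤ 1 := by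
    have := Real.log_two_lt_d9
    linarith
  have hlog2p : 0 < Real.log 2 := Real.log_pos one_lt_two
  have hsum0 : ∑ j ∈ Finset.range J, V (j + 1) = T - V J := dy_sum0 T J
  have hsum1 : ∑ j ∈ Finset.range J, (j + 1 : ℝ) * V (j + 1) ≤ 2 * T := dy_sum1 (by linarith) J
  have hadd : ∀ k, k ≤ J → (NN riemannZeta 1 T : ℝ) = (NN riemannZeta 1 (V k) : ℝ) +
      ∑ j ∈ Finset.range k, (NN riemannZeta (V (j + 1)) (V j) : ℝ) := by
    intro k
    induction k with
    | zero =>
      intro _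
      simp [hV]
    | succ k ih =>
      intro hk
      rw [ih (by omega), Finset.sum_range_succ]
      have h1 := hVJ (k + 1) hk
      have h2 : NN riemannZeta 1 (V k) = NN riemannZeta 1 (V (k + 1)) +
          NN riemannZeta (V (k + 1)) (V k) :=
        NN_add good_zeta le_rfl (by linarith) (by rw [hVs k]; linarith [hVpos (k + 1)])
      rw [h2]
      push_cast
      ring
  have hVJT : V J ≤ T := by
    simp only [hV]
    exact div_le_self (by linarith) (one_le_pow₀ (by norm_num))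
  have hVJL : V J * L ≤ T := by
    have : V J ≤ 2 * Real.sqrt T := hJ2
    exact (mul_le_mul_of_nonneg_right this hL0.le).trans g1
  have hlo := hlow T ((le_max_left _ _).trans hT) (V J) (by linarith [hVJ J le_rfl]) hVJT
  have hlo0 : (0 : ℝ) ≤ (NN riemannZeta 1 (V J) : ℝ) := Nat.cast_nonneg _
  have h1 : ∀ j ∈ Finset.range J, |(NN riemannZeta (V (j + 1)) (V j) : ℝ) - V (j + 1) * L / (2 * Real.pi)| ≤
      Cn * V (j + 1) + (j + 1 : ℝ) * V (j + 1) / (2 * Real.pi) := by
    intro j hj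
    rw [Finset.mem_range] at hj
    have h2 := hnn (V (j + 1)) (g2.trans (hVJ _ hj)) (V (j + 1)) (V j) le_rfl (by linarith)
      (by rw [hVs j]; linarith) (by rw [hVs j])
    rw [hVlog] at h2
    have hW := hVpos (j + 1)
    have e1 : (NN riemannZeta (V (j + 1)) (V j) : ℝ) - V (j + 1) * L / (2 * Real.pi) =
        ((NN riemannZeta (V (j + 1)) (V j) : ℝ) -
          V (j + 1) * (L - ((j + 1 : ℕ) : ℝ) * Real.log 2) / (2 * Real.pi)) -
          (j + 1 : ℝ) * V (j + 1) / (2 * Real.pi) * Real.log 2 := by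
      push_cast
      ring
    rw [e1]
    refine (abs_sub _ _).trans (add_le_add h2 ?_)
    rw [abs_of_nonneg (by positivity)]
    exact mul_le_of_le_one_right (by positivity) hlog2
  have h2 : |∑ j ∈ Finset.range J, (NN riemannZeta (V (j + 1)) (V j) : ℝ) -
      (T - V J) * L / (2 * Real.pi)| ≤ Cn * (T - V J) + 2 * T / (2 * Real.pi) := by
    have e3 : ∑ j ∈ Finset.range J, (NN riemannZeta (V (j + 1)) (V j) : ℝ) -
        (T - V J) * L / (2 * Real.pi) = ∑ j ∈ Finset.range J,
        ((NN riemannZeta (V (j + 1)) (V j) : ℝ) - V (j + 1) * L / (2 * Real.pi)) := by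
      rw [Finset.sum_sub_distrib, ← Finset.sum_div, ← Finset.sum_mul, hsum0]
    rw [e3]
    refine (Finset.abs_sum_le_sum_abs _ _).trans ((Finset.sum_le_sum h1).trans ?_)
    rw [Finset.sum_add_distrib, ← Finset.mul_sum, hsum0, ← Finset.sum_div]
    have : (∑ j ∈ Finset.range J, (j + 1 : ℝ) * V (j + 1)) / (2 * Real.pi) ≤ 2 * T / (2 * Real.pi) :=
      div_le_div_of_nonneg_right hsum1 (by positivity)
    linarith
  rw [hadd J le_rfl]
  have hVp := hVpos J
  have e4 : (NN riemannZeta 1 (V J) : ℝ) + ∑ j ∈ Finset.range J, (NN riemannZeta (V (j + 1)) (V j) : ℝ) -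
      T * L / (2 * Real.pi) = (NN riemannZeta 1 (V J) : ℝ) +
      (∑ j ∈ Finset.range J, (NN riemannZeta (V (j + 1)) (V j) : ℝ) -
        (T - V J) * L / (2 * Real.pi)) - V J * L / (2 * Real.pi) := by
    ring
  rw [e4]
  have h5 : 2 * T / (2 * Real.pi) ≤ T := by
    rw [div_le_iff₀ (by positivity)]
    nlinarith
  have h6 : V J * L / (2 * Real.pi) ≤ T := by
    refine (div_le_self (by positivity) (by linarith)).trans hVJL
  have h7 : 0 ≤ V J * L / (2 * Real.pi) := by positivity
  have h8 : Cn * (T - V J) ≤ Cn * T := mul_le_mul_of_nonneg_left (by linarith) hCn.le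
  have h9 : Cl * (V J * L) ≤ Cl * T := mul_le_mul_of_nonneg_left hVJL hCl.le
  have h10 : 0 ≤ Cl * T := by positivity
  rw [abs_le] at h2 ⊢
  constructor <;> linarith [h2.1, h2.2]

end Pool.Agent.W2helper93.NV
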