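import Pool.Agent.W2helper93.NV.Fin
import Pool.Agent.W2helper93.NV.Tot
import Pool.Agent.W2helper93.NV.Prob
import Pool.Agent.W2helper93.NV.SincI

set_option autoImplicit false

/-! # The pair counts of the problem -/

namespace Pool.Agent.W2helper93.NV

open Complex Filter Topology MeasureTheory Set
open H370 (zz hh mult Zf zset AA good_zeta mem_Zf NN NN_add NN_mono zcount nn_asymp finsum_Zf)

lemma MM_eq (a : ℝ) : MM a = (a - II a) / (2 * Real.pi) := by
  have hpi := Real.pi_pos
  unfold MM II
  have h1 : ∫ u in (0 : ℝ)..a, (1 - (Real.sin (Real.pi * u) / (Real.pi * u)) ^ 2) =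
      ∫ u in (0 : ℝ)..a, (1 - Real.sinc (Real.pi * u) ^ 2) := by
    refine intervalIntegral.integral_congr_ae ?_
    have h2 : ∀ᵐ u : ℝ, u ≠ 0 := by
      rw [ae_iff]
      simp
    filter_upwards [h2] with u hu _
    rw [Real.sinc_of_ne_zero (by positivity)]
  rw [h1, intervalIntegral.integral_sub (continuous_const.intervalIntegrable _ _)
    (sc_cont.intervalIntegrable _ _), intervalIntegral.integral_const, smul_eq_mul]
  ring

lemma MM_cont : Continuous MM := by
  have h : MM = fun a => (a - II a) / (2 * Real.pi) := funext MM_eq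
  rw [h]
  exact (continuous_id.sub II_cont).div_const _

lemma h_le7 {a L : ℝ} (ha : 0 < a) (hL : 16 ≤ L) (haL : a * Real.log a ≤ L / 2) :
    2 * Real.pi * a / L ≤ 7 := by
  have hpi := Real.pi_lt_d2
  have hpi0 := Real.pi_pos
  rcases le_or_gt 16 a with h | h
  · exact (h_size h (by linarith) (by linarith)).2.1
  · rw [div_le_iff₀ (by linarith)]
    nlinarith

/-- the correction term -/
noncomputable def DD (T : ℝ) : ℝ := ((NE T : ℝ) - (NT T : ℝ)) / 2

/-- the discrepancy -/
noncomputable def gg (T a : ℝ) : ℝ := (Nstar T a : ℝ) + DD T - MM a * (T * Real.log T)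

lemma Nstar_ii {T : ℝ} (hT : 1 < T) (α β : ℝ) :
    IntervalIntegrable (fun a => (Nstar T a : ℝ)) volume α β := by
  have h : Monotone fun a => (Nstar T a : ℝ) := fun a b hab =>
    Nat.cast_le.2 (Nstar_mono hT hab)
  exact h.intervalIntegrable

lemma gg_ii {T : ℝ} (hT : 1 < T) (α β : ℝ) : IntervalIntegrable (gg T) volume α β :=
  ((Nstar_ii hT α β).add (continuous_const.intervalIntegrable _ _)).sub
    ((MM_cont.mul continuous_const).intervalIntegrable _ _)

theorem main1 {lam : ℝ} (hlam : 16 ≤ lam) (hW : WMom lam) : ∃ C T0 : ℝ, 0 < C ∧ 10 ≤ T0 ∧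
    ∀ T : ℝ, T0 ≤ T →
      (∀ a : ℝ, 0 < a → a * Real.log a ≤ Real.log T / 2 →
        |(Nstar T a : ℝ) - MM a * (T * Real.log T)| ≤ C * (T * Real.log T)) ∧
      (∀ a : ℝ, 0 < a → a * Real.log a ≤ Real.log T / 2 → |gg T a| ≤ C * (T * Real.log T)) ∧
      (∀ α β : ℝ, 2 * lam ≤ α → α ≤ β → β * Real.log β ≤ Real.log T / 2 →
        |∫ a in α..β, gg T a| ≤ C * T * (Real.log T + β * (β - α))) := by
  obtain ⟨C1, T1, hC1, hT1, hfin⟩ := fin hlam hW
  obtain ⟨C2, T2, hC2, hT2, htot⟩ := tot
  have hpi := Real.pi_gt_three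
  have hpi0 := Real.pi_pos
  have hK := KLow_nonneg
  set K := KLow with hKdef
  have ev : ∀ᶠ T : ℝ in atTop, 16 ≤ Real.log T :=
    Real.tendsto_log_atTop.eventually_ge_atTop _
  obtain ⟨T3, hT3⟩ := ev.exists_forall_of_atTop
  refine ⟨4 * (C1 + C2 + K + 1), max (max T1 T2) T3, by positivity,
    hT1.trans ((le_max_left _ _).trans (le_max_left _ _)), fun T hT => ?_⟩
  obtain ⟨hE, hP, hI⟩ := hfin T (((le_max_left _ _).trans (le_max_left _ _)).trans hT)
  have hN := htot T (((le_max_right _ _).trans (le_max_left _ _)).trans hT)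
  have hL16 := hT3 T ((le_max_right _ _).trans hT)
  have hT10 : 10 ≤ T := (hT1.trans ((le_max_left _ _).trans (le_max_left _ _))).trans hT
  have hT0 : 0 < T := by linarith
  set L := Real.log T with hL
  have hL0 : 0 < L := by linarith
  have hTL : 0 < T * L := by positivity
  have hTTL : T ≤ T * L := le_mul_of_one_le_right hT0.le (by linarith)
  have h1TL : 1 ≤ T * L := by linarith
  set S := Zf riemannZeta 1 T with hS
  have hNE := NE_cmp T
  have hNT := NT_cmp T
  have hEQ0 := EQ_nonneg S
  have hKTL : K ≤ K * (T * L) := le_mul_of_one_le_right hK h1TL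
  have hC2TL : C2 * T ≤ C2 * (T * L) := mul_le_mul_of_nonneg_left hTTL hC2.le
  have hTL2 : T * L / (2 * Real.pi) ≤ T * L := div_le_self hTL.le (by linarith)
  have hTL20 : 0 < T * L / (2 * Real.pi) := by positivity
  have hpt : ∀ a : ℝ, 0 < a → a * Real.log a ≤ L / 2 →
      |(Nstar T a : ℝ) - MM a * (T * L)| ≤ (C1 + K + 1) * (T * L) := by
    intro a ha haL
    have h7 := h_le7 ha hL16 haL
    have k1 := Nstar_cmp (T := T) (a := a) h7
    have k2 := hP a ha haL
    have k3 : 0 ≤ II a := by
      rw [← II_zero]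
      exact II_mono ha.le
    have k4 := II_le_half a
    have e1 : MM a * (T * L) = T * L * (a / (2 * Real.pi)) - T * L / (2 * Real.pi) * II a := by
      rw [MM_eq]; ring
    have k5 : T * L / (2 * Real.pi) * II a ≤ T * L * 1 :=
      mul_le_mul hTL2 (by linarith) k3 hTL.le
    have k6 : 0 ≤ T * L / (2 * Real.pi) * II a := mul_nonneg hTL20.le k3
    rw [e1]
    rw [abs_le] at k2 ⊢
    constructor <;> linarith [k1.1, k1.2, k2.1, k2.2]
  have hDD : |DD T| ≤ (C1 + C2 + K + 1) * (T * L) := by
    unfold DD
    rw [abs_le] at hN ⊢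
    have hNN0 : (0 : ℝ) ≤ (NN riemannZeta 1 T : ℝ) := Nat.cast_nonneg _
    have p1 : 0 ≤ C1 * (T * L) := by positivity
    have p2 : 0 ≤ C2 * (T * L) := by positivity
    have p3 : 0 ≤ K * (T * L) := by positivity
    constructor <;> linarith [hN.1, hN.2, hNE.1, hNE.2, hNT.1, hNT.2]
  refine ⟨?_, ?_, ?_⟩
  · intro a ha haL
    refine (hpt a ha haL).trans ?_
    have : 0 ≤ (3 * C1 + 4 * C2 + 3 * K + 3) * (T * L) := by positivity
    linarith
  · intro a ha haL
    have e : gg T a = ((Nstar T a : ℝ) - MM a * (T * L)) + DD T := by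
      unfold gg; ring
    rw [e]
    refine (abs_add_le _ _).trans ((add_le_add (hpt a ha haL) hDD).trans ?_)
    have : 0 ≤ (2 * C1 + 3 * C2 + 2 * K + 2) * (T * L) := by positivity
    linarith
  · intro α β hα hαβ hβ
    have hα1 : 1 ≤ α := by linarith
    have hβ1 : 1 ≤ β := by linarith
    have hβα : 0 ≤ β - α := by linarith
    have k1 := hI α β hα hαβ (by linarith)
    have k2 := II_int hα1 hαβ
    have hT1' : 1 < T := by linarith
    -- the integral of the counts
    have hcmp : ∀ a ∈ Set.Icc α β, RR S (2 * Real.pi * a / L) ≤ (Nstar T a : ℝ) ∧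
        (Nstar T a : ℝ) ≤ RR S (2 * Real.pi * a / L) + K := by
      intro a ha
      have ha0 : 0 < a := by linarith [ha.1]
      refine Nstar_cmp (h_le7 ha0 hL16 ?_)
      refine le_trans ?_ hβ
      exact mul_le_mul ha.2 (Real.log_le_log ha0 ha.2) (Real.log_nonneg (by linarith [ha.1]))
        (by linarith)
    have hRRii : IntervalIntegrable (fun a => RR S (2 * Real.pi * a / L)) volume α β := by
      have h : Monotone fun a => RR S (2 * Real.pi * a / L) := by
        intro a b hab
        apply RR_mono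
        gcongr
      exact h.intervalIntegrable
    have i1 : ∫ a in α..β, RR S (2 * Real.pi * a / L) ≤ ∫ a in α..β, (Nstar T a : ℝ) :=
      intervalIntegral.integral_mono_on hαβ hRRii (Nstar_ii hT1' _ _) fun a ha => (hcmp a ha).1
    have i2 : ∫ a in α..β, (Nstar T a : ℝ) ≤ (∫ a in α..β, RR S (2 * Real.pi * a / L)) + K * (β - α) := by
      have := intervalIntegral.integral_mono_on hαβ (Nstar_ii hT1' _ _)
        (hRRii.add (continuous_const.intervalIntegrable (μ := volume) α β)) fun a ha => (hcmp a ha).2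
      rw [intervalIntegral.integral_add hRRii (continuous_const.intervalIntegrable _ _),
        intervalIntegral.integral_const, smul_eq_mul] at this
      linarith
    -- the integral of the main term
    have e1 : ∫ a in α..β, MM a * (T * L) =
        T * L / (4 * Real.pi) * (β ^ 2 - α ^ 2) - T * L / (2 * Real.pi) * ∫ a in α..β, II a := by
      have e2 : ∀ a, MM a * (T * L) = T * L / (2 * Real.pi) * a - T * L / (2 * Real.pi) * II a := by
        intro a; rw [MM_eq]; ring
      simp_rw [e2]
      have j1 : IntervalIntegrable (fun a : ℝ => T * L / (2 * Real.pi) * a) volume α β :=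
        (continuous_const.mul continuous_id).intervalIntegrable _ _
      have j2 : IntervalIntegrable (fun a : ℝ => T * L / (2 * Real.pi) * II a) volume α β :=
        (continuous_const.mul II_cont).intervalIntegrable _ _
      rw [intervalIntegral.integral_sub j1 j2,
        intervalIntegral.integral_const_mul, intervalIntegral.integral_const_mul, integral_id]
      ring
    have e3 : ∫ a in α..β, gg T a = (∫ a in α..β, (Nstar T a : ℝ)) + DD T * (β - α) -
        ∫ a in α..β, MM a * (T * L) := by
      unfold gg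
      have j1 : IntervalIntegrable (fun a : ℝ => (Nstar T a : ℝ) + DD T) volume α β :=
        (Nstar_ii hT1' α β).add (continuous_const.intervalIntegrable _ _)
      have j2 : IntervalIntegrable (fun a : ℝ => MM a * (T * L)) volume α β :=
        (MM_cont.mul continuous_const).intervalIntegrable _ _
      rw [intervalIntegral.integral_sub j1 j2,
        intervalIntegral.integral_add (Nstar_ii hT1' α β) (continuous_const.intervalIntegrable _ _),
        intervalIntegral.integral_const, smul_eq_mul]
      ring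
    set IR := ∫ a in α..β, RR S (2 * Real.pi * a / L) with hIR
    set IN := ∫ a in α..β, (Nstar T a : ℝ) with hIN
    set IJ := ∫ a in α..β, II a with hIJ
    set q := β - α with hq
    set ℓ := Real.log β - Real.log α with hℓ
    have e4 : ∫ a in α..β, gg T a =
        (IR - (T * L / (4 * Real.pi) * (β ^ 2 - α ^ 2) + T * L / (4 * Real.pi ^ 3) * ℓ -
          EQ S / 2 * q)) + (IN - IR) + ((NE T : ℝ) - EQ S) / 2 * q -
          ((NT T : ℝ) - T * L / (2 * Real.pi)) / 2 * q +
          T * L / (2 * Real.pi) * (IJ - (q / 2 - ℓ / (2 * Real.pi ^ 2))) := by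
      rw [e3, e1]
      unfold DD
      field_simp
      ring
    have b1 : |IN - IR| ≤ K * q := by
      rw [abs_le]
      have : 0 ≤ K * q := mul_nonneg hK hβα
      constructor <;> linarith
    have b2 : |((NE T : ℝ) - EQ S) / 2 * q| ≤ K * q := by
      rw [abs_mul, abs_of_nonneg hβα, abs_of_nonneg (by linarith [hNE.1])]
      apply mul_le_mul_of_nonneg_right _ hβα
      linarith [hNE.2]
    have b3 : |((NT T : ℝ) - T * L / (2 * Real.pi)) / 2 * q| ≤ (K + C2 * T) * q := by
      rw [abs_mul, abs_of_nonneg hβα]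
      apply mul_le_mul_of_nonneg_right _ hβα
      rw [abs_le] at hN ⊢
      have p2 : 0 ≤ C2 * T := by positivity
      constructor <;> linarith [hN.1, hN.2, hNT.1, hNT.2]
    have b4 : |T * L / (2 * Real.pi) * (IJ - (q / 2 - ℓ / (2 * Real.pi ^ 2)))| ≤ T * L := by
      rw [abs_mul, abs_of_pos hTL20]
      calc T * L / (2 * Real.pi) * |IJ - (q / 2 - ℓ / (2 * Real.pi ^ 2))| ≤ T * L * 1 :=
            mul_le_mul hTL2 k2 (abs_nonneg _) hTL.le
        _ = T * L := mul_one _
    have b5 : |∫ a in α..β, gg T a| ≤ C1 * T * (L + (β ^ 2 - α ^ 2)) + K * q + K * q +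
        (K + C2 * T) * q + T * L := by
      rw [e4]
      refine (abs_add_le _ _).trans (add_le_add ((abs_sub _ _).trans (add_le_add
        ((abs_add_le _ _).trans (add_le_add ((abs_add_le _ _).trans (add_le_add k1 b1)) b2)) b3)) b4)
    refine b5.trans ?_
    have c1 : q ≤ β * q := by
      have := mul_le_mul_of_nonneg_right hβ1 hβα
      linarith
    have c2 : β ^ 2 - α ^ 2 ≤ 2 * (β * q) := by rw [hq]; nlinarith only [hαβ, hα1]
    have c3 : 0 ≤ β * q := mul_nonneg (by linarith) hβα
    have c4 : K * q ≤ K * T * (β * q) := by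
      have h1 : K * q ≤ K * (β * q) := mul_le_mul_of_nonneg_left c1 hK
      have h2 : K * (β * q) ≤ K * T * (β * q) := by
        have : K * 1 ≤ K * T := mul_le_mul_of_nonneg_left (by linarith) hK
        have := mul_le_mul_of_nonneg_right this c3
        linarith
      linarith
    have c5 : C2 * T * q ≤ C2 * T * (β * q) := mul_le_mul_of_nonneg_left c1 (by positivity)
    have c6 : C1 * T * (L + (β ^ 2 - α ^ 2)) ≤ C1 * T * (L + 2 * (β * q)) :=
      mul_le_mul_of_nonneg_left (by linarith) (by positivity)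
    have d1 : 0 ≤ C1 * T * L := by positivity
    have d2 : 0 ≤ C2 * T * L := by positivity
    have d3 : 0 ≤ K * T * L := by positivity
    have d4 : 0 ≤ C1 * T * (β * q) := by positivity
    have d5 : 0 ≤ C2 * T * (β * q) := by positivity
    have d6 : 0 ≤ K * T * (β * q) := by positivity
    have d7 : 0 ≤ T * (β * q) := by positivity
    have d8 : 0 ≤ T * L := by positivity
    have e5 : 4 * (C1 + C2 + K + 1) * T * (L + β * q) =
        4 * (C1 * T * L) + 4 * (C2 * T * L) + 4 * (K * T * L) + 4 * (T * L) +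
        4 * (C1 * T * (β * q)) + 4 * (C2 * T * (β * q)) + 4 * (K * T * (β * q)) + 4 * (T * (β * q)) := by
      ring
    rw [e5]
    have e6 : C1 * T * (L + 2 * (β * q)) = C1 * T * L + 2 * (C1 * T * (β * q)) := by ring
    rw [e6] at c6
    have e7 : (K + C2 * T) * q = K * q + C2 * T * q := by ring
    rw [e7]
    linarith

end Pool.Agent.W2helper93.NV
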