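import Pool.Agent.W2helper93.NV.Block
import Pool.Agent.W2helper93.NV.Prob
import Pool.Agent.W2helper93.NV.Main

set_option autoImplicit false

/-! # The number variance over `[T, 2T]` -/

namespace Pool.Agent.W2helper93.NV

open Complex Filter Topology MeasureTheory Set
open H370 (zz hh mult Zf zset AA good_zeta mem_Zf NN NN_add NN_mono zcount nn_asymp finsum_Zf)

/-- bookkeeping: the ends of the range of integration -/
lemma ends_sq {F : ℝ → ℝ} (hF : BM F) {p q r w a K : ℝ} (hpq : p ≤ q) (hrw : r ≤ w)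
    (h0 : ∀ t, 0 ≤ F t) (h1 : ∀ t, F t ≤ K) (ha : 0 ≤ a) :
    |(∫ t in p..w, (F t - a) ^ 2) - ∫ t in q..r, (F t - a) ^ 2| ≤
      ((q - p) + (w - r)) * (K + a) ^ 2 := by
  have hK : 0 ≤ K := (h0 0).trans (h1 0)
  have hG : BM (fun t => F t - a) := hF.sub (BM.const a)
  have i2 : ∀ x y, IntervalIntegrable (fun t => (F t - a) ^ 2) volume x y := by
    intro x y
    simp_rw [sq]
    exact (hG.mul hG).ii x y
  have e1 : ∫ t in p..w, (F t - a) ^ 2 = (∫ t in p..q, (F t - a) ^ 2) +
      (∫ t in q..r, (F t - a) ^ 2) + ∫ t in r..w, (F t - a) ^ 2 := by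
    rw [intervalIntegral.integral_add_adjacent_intervals (i2 _ _) (i2 _ _),
      intervalIntegral.integral_add_adjacent_intervals (i2 _ _) (i2 _ _)]
  have hsq : ∀ t, (F t - a) ^ 2 ≤ (K + a) ^ 2 := by
    intro t
    have h2 := h0 t
    have h3 := h1 t
    apply sq_le_sq'
    · linarith
    · linarith
  have hb2 : ∀ x y, x ≤ y → 0 ≤ (∫ t in x..y, (F t - a) ^ 2) ∧
      (∫ t in x..y, (F t - a) ^ 2) ≤ (y - x) * (K + a) ^ 2 := by
    intro x y hxy
    refine ⟨intervalIntegral.integral_nonneg hxy fun t _ => sq_nonneg _, ?_⟩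
    have := intervalIntegral.integral_mono_on hxy (i2 x y)
      (continuous_const.intervalIntegrable (μ := volume) x y) fun t _ => hsq t
    rwa [intervalIntegral.integral_const, smul_eq_mul] at this
  obtain ⟨b1, b2⟩ := hb2 p q hpq
  obtain ⟨b3, b4⟩ := hb2 r w hrw
  rw [e1, abs_le]
  constructor <;> linarith

theorem numvar {lam : ℝ} (hlam : 16 ≤ lam) (hW : WMom lam) : ∃ C T0 : ℝ, 0 < C ∧ 10 ≤ T0 ∧
    ∀ T : ℝ, T0 ≤ T → ∀ a : ℝ, 1 ≤ a → a * Real.log a ≤ Real.log T →
      |(∫ t in T..(2 * T), ((Nwin t (2 * Real.pi * a / Real.log T) : ℝ) - a) ^ 2) -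
        T / Real.pi ^ 2 * Real.log a| ≤ C * T := by
  obtain ⟨Cv, V1, hCv, hV1, hvar⟩ := variance hlam hW
  obtain ⟨Cl, T1, hCl, hT1, hloc⟩ := loc
  have hpi := Real.pi_gt_three
  have hpi0 := Real.pi_pos
  have hlam0 : 0 < lam := by linarith
  have hllam : 0 ≤ Real.log lam := Real.log_nonneg (by linarith)
  have ev1 : ∀ᶠ T : ℝ in atTop, Real.log T ^ 3 ≤ T := by
    have h1 : (fun T : ℝ => Real.log T ^ 3) =o[atTop] fun T : ℝ => T ^ (1 : ℝ) := by
      have := isLittleO_log_rpow_rpow_atTop (s := 1) 3 (by norm_num : (0 : ℝ) < 1)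
      refine this.congr' ?_ (Eventually.of_forall fun _ => rfl)
      filter_upwards with T
      norm_cast
    have h2 := h1.bound (c := 1) one_pos
    filter_upwards [h2, eventually_ge_atTop 1] with T hT hT1
    rw [one_mul, Real.rpow_one, Real.norm_of_nonneg (by linarith : (0 : ℝ) ≤ T)] at hT
    exact (le_abs_self _).trans hT
  have ev2 : ∀ᶠ T : ℝ in atTop, 2 * Real.log T + 7 ≤ T := by
    have h1 : (fun T : ℝ => 2 * Real.log T + 7) =o[atTop] fun T : ℝ => T :=
      (Real.isLittleO_log_id_atTop.const_mul_left 2).add (Asymptotics.isLittleO_const_id_atTop _)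
    have h2 := h1.bound (c := 1) (by norm_num)
    filter_upwards [h2, eventually_ge_atTop 1] with T hT hT1
    rw [Real.norm_of_nonneg (by linarith : (0 : ℝ) ≤ T)] at hT
    have := (le_abs_self _).trans hT
    linarith
  have ev3 : ∀ᶠ T : ℝ in atTop, max 16 (lam * Real.log lam) ≤ Real.log T :=
    Real.tendsto_log_atTop.eventually_ge_atTop _
  obtain ⟨V2, hV2⟩ := ((ev1.and ev2).and ev3).exists_forall_of_atTop
  set K1 : ℝ := Cv + 9 * (2 * Cl + 1) ^ 2 with hK1
  refine ⟨5 * K1 + 6 * lam ^ 2 + 5 * Real.log lam, max (max V1 T1) V2, by positivity,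
    hV1.trans ((le_max_left _ _).trans (le_max_left _ _)), fun T hT => ?_⟩
  have hTV1 : V1 ≤ T := ((le_max_left _ _).trans (le_max_left _ _)).trans hT
  have hTT1 : T1 ≤ T := ((le_max_right _ _).trans (le_max_left _ _)).trans hT
  obtain ⟨⟨g1, g2⟩, g3⟩ := hV2 T ((le_max_right _ _).trans hT)
  have hT10 : 10 ≤ T := hV1.trans hTV1
  have hT0 : 0 < T := by linarith
  set L := Real.log T with hL
  have hL16 : 16 ≤ L := (le_max_left _ _).trans g3
  have hlamL : lam * Real.log lam ≤ L := (le_max_right _ _).trans g3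
  have hL0 : 0 < L := by linarith
  set T' : ℝ := 2 * T + 7 with hT'
  set S := Zf riemannZeta 1 T' with hS
  have hlogT' : Real.log T' ≤ 2 * L := by
    have h1 : Real.log T' ≤ Real.log (T ^ 2) := Real.log_le_log (by linarith) (by rw [hT']; nlinarith only [hT10])
    rw [Real.log_pow] at h1
    simpa using h1
  have hwin : ∀ t ∈ Set.Icc T (2 * T), ∀ h, 0 ≤ h → h ≤ 7 →
      (Nwin t h : ℝ) = Nb S (t + h) - Nb S t := fun t ht h h0 h7 =>
    Nwin_eq (by linarith [ht.1]) h0 (by linarith [ht.2])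
  have hF1 : ∀ h, 0 ≤ h → h ≤ 7 → ∀ t, Nb S (t + h) - Nb S t ≤ 2 * Cl * L := by
    intro h h0 h7 t
    have k1 : Nb S (t + h) ≤ Nb S (t + 7) := Nb_mono S (by linarith)
    have k2 := hloc T' (by linarith) t
    have k3 := mul_le_mul_of_nonneg_left hlogT' hCl.le
    linarith
  have hF0 : ∀ h, 0 ≤ h → ∀ t, 0 ≤ Nb S (t + h) - Nb S t := fun h h0 t =>
    sub_nonneg.2 (Nb_mono S (by linarith))
  -- the case of large `a`
  have hbig : ∀ a, lam ≤ a → a * Real.log a ≤ L →
      |(∫ t in T..(2 * T), (Nb S (t + 2 * Real.pi * a / L) - Nb S t - a) ^ 2) -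
        T / Real.pi ^ 2 * Real.log a| ≤ K1 * T := by
    intro a ha haL
    obtain ⟨hh0, hh7, hhl, hla1⟩ := h_size (hlam.trans ha) hL0 haL
    set h := 2 * Real.pi * a / L with hh
    have ha0 : 0 < a := by linarith
    have haL' : a ≤ L := by
      have : a * 1 ≤ a * Real.log a := mul_le_mul_of_nonneg_left hla1 ha0.le
      linarith
    obtain ⟨U1, U2, hU1, hU1', hU2, hU2', hv⟩ := hvar T hTV1
    have hv2 := hv a ha haL
    set F : ℝ → ℝ := fun t => Nb S (t + h) - Nb S t with hF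
    have hFB : BM F := ((Nb_BM S).shift h).sub (Nb_BM S)
    have e1 : ∫ t in (T + L)..(2 * T - L - 7), (F t - a) ^ 2 =
        ∫ t in (T + L)..(2 * T - L - 7), (Nb (Zf riemannZeta U1 U2) (t + 2 * Real.pi * a / L) -
          Nb (Zf riemannZeta U1 U2) t - a) ^ 2 := by
      refine intervalIntegral.integral_congr fun t ht => ?_
      rw [Set.uIcc_of_le (by linarith)] at ht
      show (Nb S (t + h) - Nb S t - a) ^ 2 = _
      rw [Nb_local (by linarith) (by linarith : 2 * T ≤ T') hU1 (by linarith [ht.1])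
        (by linarith [ht.2]) hU2' hh0.le]
    rw [← hL, ← e1] at hv2
    have hen := ends_sq hFB (p := T) (q := T + L) (r := 2 * T - L - 7) (w := 2 * T)
      (by linarith) (by linarith) (hF0 h hh0.le) (hF1 h hh0.le hh7) ha0.le
    have h3 : ((T + L - T) + (2 * T - (2 * T - L - 7))) * (2 * Cl * L + a) ^ 2 ≤
        9 * (2 * Cl + 1) ^ 2 * T := by
      have k1 : (T + L - T) + (2 * T - (2 * T - L - 7)) ≤ 9 * L := by linarith
      have k2 : (2 * Cl * L + a) ^ 2 ≤ ((2 * Cl + 1) * L) ^ 2 := by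
        apply pow_le_pow_left₀ (by positivity)
        linarith
      calc _ ≤ 9 * L * ((2 * Cl + 1) * L) ^ 2 := mul_le_mul k1 k2 (sq_nonneg _) (by positivity)
        _ = 9 * (2 * Cl + 1) ^ 2 * L ^ 3 := by ring
        _ ≤ _ := mul_le_mul_of_nonneg_left g1 (by positivity)
    have hen2 := hen.trans h3
    have e2 : ∫ t in T..(2 * T), (Nb S (t + h) - Nb S t - a) ^ 2 =
        ∫ t in T..(2 * T), (F t - a) ^ 2 := rfl
    rw [e2, hK1]
    rw [abs_le] at hen2 hv2 ⊢
    constructor <;> linarith [hen2.1, hen2.2, hv2.1, hv2.2]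
  intro a ha haL
  have ha0 : 0 < a := by linarith
  have hla0 : 0 ≤ Real.log a := Real.log_nonneg ha
  have hh7 : 2 * Real.pi * a / L ≤ 7 := by
    rcases le_or_gt 16 a with h | h
    · exact (h_size h hL0 haL).2.1
    · have := Real.pi_lt_d2
      rw [div_le_iff₀ hL0]
      nlinarith
  have hh0 : 0 ≤ 2 * Real.pi * a / L := by positivity
  have e0 : ∫ t in T..(2 * T), ((Nwin t (2 * Real.pi * a / L) : ℝ) - a) ^ 2 =
      ∫ t in T..(2 * T), (Nb S (t + 2 * Real.pi * a / L) - Nb S t - a) ^ 2 := by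
    refine intervalIntegral.integral_congr fun t ht => ?_
    rw [Set.uIcc_of_le (by linarith)] at ht
    rw [hwin t ht _ hh0 hh7]
  rw [e0]
  have hK10 : 0 < K1 := by positivity
  rcases le_or_gt lam a with hal | hal
  · refine (hbig a hal haL).trans ?_
    have : 0 ≤ (4 * K1 + 6 * lam ^ 2 + 5 * Real.log lam) * T := by positivity
    linarith
  · obtain ⟨hl0, hl7, -, -⟩ := h_size hlam hL0 hlamL
    set hlm := 2 * Real.pi * lam / L with hhlm
    set h := 2 * Real.pi * a / L with hh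
    have hhle : h ≤ hlm := by
      rw [hh, hhlm]
      gcongr
    have hFB : BM (fun t => Nb S (t + hlm) - Nb S t) := ((Nb_BM S).shift hlm).sub (Nb_BM S)
    have hGB : BM (fun t => Nb S (t + hlm) - Nb S t - lam) := hFB.sub (BM.const lam)
    have hHB : BM (fun t => Nb S (t + h) - Nb S t - a) :=
      (((Nb_BM S).shift h).sub (Nb_BM S)).sub (BM.const a)
    have i1 : IntervalIntegrable (fun t => (Nb S (t + h) - Nb S t - a) ^ 2) volume T (2 * T) := by
      simp_rw [sq]
      exact (hHB.mul hHB).ii _ _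
    have i2 : IntervalIntegrable (fun t => (Nb S (t + hlm) - Nb S t - lam) ^ 2) volume T (2 * T) := by
      simp_rw [sq]
      exact (hGB.mul hGB).ii _ _
    have hle : ∫ t in T..(2 * T), (Nb S (t + h) - Nb S t - a) ^ 2 ≤
        ∫ t in T..(2 * T), (4 * (Nb S (t + hlm) - Nb S t - lam) ^ 2 + 6 * lam ^ 2) := by
      refine intervalIntegral.integral_mono_on (by linarith) i1
        ((i2.const_mul 4).add (continuous_const.intervalIntegrable _ _)) fun t _ => ?_
      have k1 := hF0 h hh0 t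
      have k2 : Nb S (t + h) ≤ Nb S (t + hlm) := Nb_mono S (by linarith)
      set x := Nb S (t + h) - Nb S t with hx
      set y := Nb S (t + hlm) - Nb S t with hy
      have k3 : x ≤ y := by rw [hx, hy]; linarith
      have k4 : (x - a) ^ 2 ≤ 2 * y ^ 2 + 2 * lam ^ 2 := by
        have : (x - a) ^ 2 ≤ 2 * x ^ 2 + 2 * a ^ 2 := by nlinarith only [sq_nonneg (x + a)]
        have h5 : x ^ 2 ≤ y ^ 2 := pow_le_pow_left₀ k1 k3 2
        have h6 : a ^ 2 ≤ lam ^ 2 := pow_le_pow_left₀ ha0.le hal.le 2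
        linarith
      have k5 : y ^ 2 ≤ 2 * (y - lam) ^ 2 + 2 * lam ^ 2 := by nlinarith only [sq_nonneg (y - 2 * lam)]
      linarith
    rw [intervalIntegral.integral_add (i2.const_mul 4) (continuous_const.intervalIntegrable _ _),
      intervalIntegral.integral_const_mul, intervalIntegral.integral_const, smul_eq_mul] at hle
    have hb := (abs_le.1 (hbig lam le_rfl hlamL)).2
    have h0 : 0 ≤ ∫ t in T..(2 * T), (Nb S (t + h) - Nb S t - a) ^ 2 :=
      intervalIntegral.integral_nonneg (by linarith) fun t _ => sq_nonneg _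
    have hTpi : T / Real.pi ^ 2 ≤ T := div_le_self hT0.le (by nlinarith only [hpi])
    have hTpi0 : 0 < T / Real.pi ^ 2 := by positivity
    have h5 : 0 ≤ T / Real.pi ^ 2 * Real.log a := mul_nonneg hTpi0.le hla0
    have h6 : T / Real.pi ^ 2 * Real.log a ≤ T * Real.log lam :=
      mul_le_mul hTpi (Real.log_le_log ha0 hal.le) hla0 hT0.le
    have h7 : T / Real.pi ^ 2 * Real.log lam ≤ T * Real.log lam :=
      mul_le_mul_of_nonneg_right hTpi hllam
    have h8 : 0 ≤ K1 * T := by positivity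
    have h9 : 0 ≤ T * Real.log lam := by positivity
    have h10 : 0 ≤ 6 * lam ^ 2 * T := by positivity
    have e3 : 2 * T - T = T := by ring
    rw [e3] at hle
    rw [abs_le]
    constructor <;> linarith

end Pool.Agent.W2helper93.NV
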