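import Pool.Agent.W2helper93.NV.Var

set_option autoImplicit false

/-! # The number variance with bounded error -/

namespace Pool.Agent.W2helper93.NV

open Complex Filter Topology MeasureTheory Set
open Pool.Agent.TH850.UV
open H370 (zz hh mult Zf zset AA good_zeta mem_Zf)
open H370.A2 (lamC lamC_norm)

/-- the size of the shift -/
lemma h_size {a L : ℝ} (ha : 16 ≤ a) (hL : 0 < L) (haL : a * Real.log a ≤ L) :
    0 < 2 * Real.pi * a / L ∧ 2 * Real.pi * a / L ≤ 7 ∧ 2 * Real.pi * a / L * Real.log a ≤ 7 ∧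
      1 ≤ Real.log a := by
  have hpi := Real.pi_pos
  have hpi2 := Real.pi_lt_d2
  have ha0 : 0 < a := by linarith
  have hlog1 : 1 ≤ Real.log a := by
    rw [Real.le_log_iff_exp_le ha0]
    have := Real.exp_one_lt_d9
    linarith
  have h1 : 2 * Real.pi * a / L * Real.log a ≤ 7 := by
    have e : 2 * Real.pi * a / L * Real.log a = 2 * Real.pi * (a * Real.log a / L) := by ring
    rw [e]
    have h2 : a * Real.log a / L ≤ 1 := by rw [div_le_one hL]; exact haL
    nlinarith
  have h0 : 0 < 2 * Real.pi * a / L := by positivity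
  refine ⟨h0, ?_, h1, hlog1⟩
  nlinarith

theorem variance {lam : ℝ} (hlam : 16 ≤ lam) (hW : WMom lam) : ∃ C T0 : ℝ, 0 < C ∧ 10 ≤ T0 ∧
    ∀ T : ℝ, T0 ≤ T → ∃ U1 U2 : ℝ, T ≤ U1 ∧ U1 ≤ T + 1 ∧ 2 * T - 1 ≤ U2 ∧ U2 ≤ 2 * T ∧
      ∀ a : ℝ, lam ≤ a → a * Real.log a ≤ Real.log T →
        |(∫ t in (T + Real.log T)..(2 * T - Real.log T - 7),
          (Nb (Zf riemannZeta U1 U2) (t + 2 * Real.pi * a / Real.log T) -
            Nb (Zf riemannZeta U1 U2) t - a) ^ 2) - T / Real.pi ^ 2 * Real.log a| ≤ C * T := by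
  obtain ⟨C1, T1, hC1, hT1, hdec⟩ := dec hlam
  obtain ⟨Cw, T2, hCw, hT2, hWm⟩ := hW
  obtain ⟨Ce, hCe, hEEle⟩ := EE_le
  obtain ⟨Cg, hCg, hgd⟩ := gd_ms
  obtain ⟨Cp, hCp, hprim⟩ := prim
  obtain ⟨Cd, T3, hCd, hT3, hDms⟩ := Db_ms hlam 1 le_rfl
  obtain ⟨Cq, T4, hCq, hT4, hpt⟩ := WW_pt hlam
  have hpi := Real.pi_pos
  have hlam0 : 0 < lam := by linarith
  -- large `T`
  have ev1 : ∀ᶠ T : ℝ in atTop, 2 * Real.log T + 7 ≤ T / 2 := by
    have h1 : (fun T : ℝ => 2 * Real.log T + 7) =o[atTop] fun T : ℝ => T :=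
      (Real.isLittleO_log_id_atTop.const_mul_left 2).add (Asymptotics.isLittleO_const_id_atTop _)
    have h2 := h1.bound (c := 1 / 2) (by norm_num)
    filter_upwards [h2, eventually_ge_atTop 1] with T hT hT1
    rw [Real.norm_of_nonneg (by linarith : (0 : ℝ) ≤ T)] at hT
    have := (le_abs_self _).trans hT
    linarith
  have ev2 : ∀ᶠ T : ℝ in atTop, 8 * T ^ (1 / 8 : ℝ) * (1 + Real.log T) ≤ T := by
    have h1 : (fun T : ℝ => 8 * T ^ (1 / 8 : ℝ) * (1 + Real.log T)) =o[atTop] fun T : ℝ => T := by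
      have h2 : (fun T : ℝ => 1 + Real.log T) =o[atTop] fun T : ℝ => T ^ (7 / 8 : ℝ) := by
        refine Asymptotics.IsLittleO.add ?_ (isLittleO_log_rpow_atTop (by norm_num))
        rw [Asymptotics.isLittleO_const_left]
        right
        exact tendsto_norm_atTop_atTop.comp (tendsto_rpow_atTop (by norm_num))
      have h3 : (fun T : ℝ => 8 * T ^ (1 / 8 : ℝ)) =O[atTop] fun T : ℝ => T ^ (1 / 8 : ℝ) :=
        Asymptotics.isBigO_const_mul_self _ _ _
      refine (h3.mul_isLittleO h2).congr' (Eventually.of_forall fun _ => rfl) ?_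
      filter_upwards [eventually_gt_atTop 0] with T hT
      rw [← Real.rpow_add hT]
      norm_num
    have h2 := h1.bound (c := 1) one_pos
    filter_upwards [h2, eventually_ge_atTop 1] with T hT hT1
    rw [one_mul, Real.norm_of_nonneg (by linarith : (0 : ℝ) ≤ T)] at hT
    exact (le_abs_self _).trans hT
  have ev3 : ∀ᶠ T : ℝ in atTop, T ^ (1 / 8 : ℝ) * Real.exp (Real.log T / 64) ≤ T := by
    filter_upwards [eventually_ge_atTop 1] with T hT
    have hT0 : 0 < T := by linarith
    have e : Real.exp (Real.log T / 64) = T ^ (1 / 64 : ℝ) := by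
      rw [Real.rpow_def_of_pos hT0]; congr 1; ring
    rw [e, ← Real.rpow_add hT0]
    calc T ^ (1 / 8 + 1 / 64 : ℝ) ≤ T ^ (1 : ℝ) :=
          Real.rpow_le_rpow_of_exponent_le hT (by norm_num)
      _ = T := Real.rpow_one T
  obtain ⟨T5, hT5⟩ := ((ev1.and ev2).and ev3).exists_forall_of_atTop
  set K1 : ℝ := 196 * C1 ^ 2 * (1 + Cw) with hK1
  set K2 : ℝ := 4 * Ce ^ 2 * Cw with hK2
  set K3 : ℝ := 32 * Cg with hK3
  set K4 : ℝ := 4 * (Cp * lam) ^ 2 * Cw with hK4
  set G : ℝ := 1 / Real.pi ^ 2 + Cd + 4 * Cp * lam * Cq with hG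
  refine ⟨3 * K1 + 2 * K2 + K3 + K4 + 3 * G + Cd, max (max T1 T2) (max (max T3 T4) T5),
    by positivity, hT1.trans ((le_max_left _ _).trans (le_max_left _ _)), fun T hT => ?_⟩
  have hTT1 : T1 ≤ T := ((le_max_left _ _).trans (le_max_left _ _)).trans hT
  have hTT2 : T2 ≤ T := ((le_max_right _ _).trans (le_max_left _ _)).trans hT
  have hTT3 : T3 ≤ T := ((le_max_left _ _).trans ((le_max_left _ _).trans (le_max_right _ _))).trans hT
  have hTT4 : T4 ≤ T := ((le_max_right _ _).trans ((le_max_left _ _).trans (le_max_right _ _))).trans hT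
  have hTT5 : T5 ≤ T := ((le_max_right _ _).trans (le_max_right _ _)).trans hT
  obtain ⟨⟨g1, g2⟩, g3⟩ := hT5 T hTT5
  obtain ⟨U1, U2, hU1, hU1', hU2, hU2', hd⟩ := hdec T hTT1
  refine ⟨U1, U2, hU1, hU1', hU2, hU2', fun a ha haL => ?_⟩
  have hT10 : 10 ≤ T := hT1.trans hTT1
  have hT0 : 0 < T := by linarith
  set L := Real.log T with hL
  have hL1 : 1 ≤ L := by
    rw [hL, Real.le_log_iff_exp_le hT0]
    have := Real.exp_one_lt_d9
    linarith
  have hL0 : 0 < L := by linarith
  set l := L / lam with hl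
  have hl0 : 0 < l := by positivity
  set S := Zf riemannZeta U1 U2 with hS
  set X := XT T with hX
  set h := 2 * Real.pi * a / L with hh
  obtain ⟨hh0, hh7, hhl, hla1⟩ := h_size (hlam.trans ha) hL0 haL
  rw [← hh] at hh0 hh7 hhl
  set ρ := 1 + Real.log a with hρ
  have hρ1 : 1 ≤ ρ := by rw [hρ]; linarith
  have hX1 : 1 ≤ X := by
    rw [hX]
    unfold XT
    rw [Nat.one_le_floor_iff]
    exact Real.one_le_rpow (by linarith) (by norm_num)
  have hXR : (1 : ℝ) ≤ X := by exact_mod_cast hX1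
  have hXT : (X : ℝ) ≤ T ^ (1 / 8 : ℝ) := Nat.floor_le (by positivity)
  have hXTT : (X : ℝ) ≤ T := hXT.trans (by
    calc T ^ (1 / 8 : ℝ) ≤ T ^ (1 : ℝ) := Real.rpow_le_rpow_of_exponent_le (by linarith) (by norm_num)
      _ = T := Real.rpow_one T)
  have hlogX : Real.log X ≤ L := Real.log_le_log (by linarith) hXTT
  have hlogX0 : 0 ≤ Real.log X := Real.log_nonneg hXR
  set a0 := T + L with ha0
  set b0 := 2 * T - L - 7 with hb0
  have hab : a0 ≤ b0 := by rw [ha0, hb0]; linarith
  have hWc := WW_cont l S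
  have hW2c : Continuous fun t => WW l S t ^ 2 := hWc.pow 2
  have hW2 := hWm T hTT2 U1 U2 hU1 hU2'
  have hWsub : ∀ c d : ℝ, T / 2 ≤ c → c ≤ d → d ≤ 4 * T → ∫ t in c..d, WW l S t ^ 2 ≤ Cw * T :=
    fun c d h1 h2 h3 => (sub_int hW2c (fun t => sq_nonneg _) h1 h2 h3).trans hW2
  obtain ⟨PP, hPPc, hPPd, hPPb⟩ := hprim l S hl0
  set f : ℝ → ℝ := fun t => Nb S (t + h) - Nb S t - a with hf
  set D : ℝ → ℝ := fun t => Db l h X t with hD
  set E : ℝ → ℝ := fun t => EE l S (t + h) - EE l S t with hE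
  set r : ℝ → ℝ := fun t => f t + D t + E t with hr
  set D' : ℝ → ℝ := fun t => gd l X (t + h) - gd l X t with hD'
  set P : ℝ → ℝ := fun t => PP (t + h) - PP t with hP
  have bf : BM f := (((Nb_BM S).shift h).sub (Nb_BM S)).sub (BM.const a)
  have bD : BM D := ⟨(Db_contt l h X).measurable, X, fun t => Db_bd hl0 h X t⟩
  have bE : BM E := ((EE_BM hl0 S).shift h).sub (EE_BM hl0 S)
  have br : BM r := (bf.add bD).add bE
  have cD' : Continuous D' :=
    ((gd_cont l X).comp (continuous_id.add continuous_const)).sub (gd_cont l X)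
  have cP : Continuous P := (hPPc.comp (continuous_id.add continuous_const)).sub hPPc
  have hbaT : b0 - a0 ≤ T := by rw [ha0, hb0]; linarith
  have hba0 : 0 ≤ b0 - a0 := by linarith
  -- (1)
  have q1 : ∫ t in a0..b0, r t ^ 2 ≤ (K1 * T) / ρ := by
    have h1 : ∀ t ∈ Set.Icc a0 b0, r t ^ 2 ≤ 2 * C1 ^ 2 * h ^ 2 +
        2 * C1 ^ 2 / L ^ 2 * (h * ∫ τ in t..(t + h), WW l S τ ^ 2) := by
      intro t ht
      have h2 := hd h hh0.le hh7 t ht.1 ht.2
      have e : L / (2 * Real.pi) * h = a := by rw [hh]; field_simp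
      rw [e] at h2
      have h3 : |r t| ≤ C1 * h + C1 / L * ∫ τ in t..(t + h), WW l S τ := h2
      have h4 := cs_int hWc (t := t) hh0.le
      have h5 : 0 ≤ ∫ τ in t..(t + h), WW l S τ :=
        intervalIntegral.integral_nonneg (by linarith) fun τ _ => WW_nonneg l S τ
      set J := ∫ τ in t..(t + h), WW l S τ with hJ
      calc r t ^ 2 = |r t| ^ 2 := (sq_abs _).symm
        _ ≤ (C1 * h + C1 / L * J) ^ 2 := by
            apply pow_le_pow_left₀ (abs_nonneg _) h3
        _ ≤ 2 * (C1 * h) ^ 2 + 2 * (C1 / L * J) ^ 2 := by nlinarith only [sq_nonneg (C1 * h - C1 / L * J)]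
        _ = 2 * C1 ^ 2 * h ^ 2 + 2 * C1 ^ 2 / L ^ 2 * J ^ 2 := by ring
        _ ≤ _ := by gcongr
    have hmc : Continuous fun t => ∫ τ in t..(t + h), WW l S τ ^ 2 := by
      have e : (fun t => ∫ τ in t..(t + h), WW l S τ ^ 2) = fun t =>
          (∫ τ in (0 : ℝ)..(t + h), WW l S τ ^ 2) - ∫ τ in (0 : ℝ)..t, WW l S τ ^ 2 := by
        funext t
        rw [intervalIntegral.integral_interval_sub_left (hW2c.intervalIntegrable _ _)
          (hW2c.intervalIntegrable _ _)]
      rw [e]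
      have c1 : Continuous fun x => ∫ τ in (0 : ℝ)..x, WW l S τ ^ 2 :=
        intervalIntegral.continuous_primitive (fun x y => hW2c.intervalIntegrable x y) 0
      exact (c1.comp (continuous_id.add continuous_const)).sub c1
    have i1 : IntervalIntegrable (fun _ : ℝ => 2 * C1 ^ 2 * h ^ 2) volume a0 b0 :=
      continuous_const.intervalIntegrable _ _
    have i2 : IntervalIntegrable (fun t => 2 * C1 ^ 2 / L ^ 2 *
        (h * ∫ τ in t..(t + h), WW l S τ ^ 2)) volume a0 b0 :=
      (continuous_const.mul (continuous_const.mul hmc)).intervalIntegrable _ _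
    have h6 : ∫ t in a0..b0, r t ^ 2 ≤ ∫ t in a0..b0, (2 * C1 ^ 2 * h ^ 2 +
        2 * C1 ^ 2 / L ^ 2 * (h * ∫ τ in t..(t + h), WW l S τ ^ 2)) := by
      refine intervalIntegral.integral_mono_on hab ?_ (i1.add i2) h1
      simp_rw [sq (r _)]
      exact (br.mul br).ii _ _
    rw [intervalIntegral.integral_add i1 i2, intervalIntegral.integral_const,
      intervalIntegral.integral_const_mul, intervalIntegral.integral_const_mul, smul_eq_mul] at h6
    have h7 := moving hW2c (fun t => sq_nonneg _) hab hh0.le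
    have h8 : ∫ τ in a0..(b0 + h), WW l S τ ^ 2 ≤ Cw * T :=
      hWsub _ _ (by rw [ha0]; linarith) (by linarith) (by rw [hb0]; linarith)
    have h9 : (b0 - a0) * (2 * C1 ^ 2 * h ^ 2) + 2 * C1 ^ 2 / L ^ 2 *
        (h * ∫ t in a0..b0, ∫ τ in t..(t + h), WW l S τ ^ 2) ≤
        T * (2 * C1 ^ 2 * h ^ 2) + 2 * C1 ^ 2 / 1 * (h * (h * (Cw * T))) := by
      have hL2 : 1 ≤ L ^ 2 := one_le_pow₀ hL1
      have h9a := h7.trans (mul_le_mul_of_nonneg_left h8 hh0.le)
      have h9b : 0 ≤ 2 * C1 ^ 2 * h ^ 2 := by positivity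
      have h9c : 2 * C1 ^ 2 / L ^ 2 ≤ 2 * C1 ^ 2 / 1 := by gcongr
      have h9d : 0 ≤ h * (h * (Cw * T)) := by positivity
      exact add_le_add (mul_le_mul_of_nonneg_right hbaT h9b)
        ((mul_le_mul_of_nonneg_left (mul_le_mul_of_nonneg_left h9a hh0.le) (by positivity)).trans
          (mul_le_mul_of_nonneg_right h9c h9d))
    have h10 : h ^ 2 * ρ ≤ 98 := by
      rw [hρ]
      have : h ^ 2 * (1 + Real.log a) = h * h + h * (h * Real.log a) := by ring
      rw [this]
      have m1 : h * h ≤ 7 * 7 := mul_le_mul hh7 hh7 hh0.le (by norm_num)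
      have m2 : h * (h * Real.log a) ≤ 7 * 7 := mul_le_mul hh7 hhl (by positivity) (by norm_num)
      linarith
    rw [le_div_iff₀ (by linarith)]
    have h11 : ∫ t in a0..b0, r t ^ 2 ≤ 2 * C1 ^ 2 * (1 + Cw) * T * h ^ 2 := by
      refine h6.trans (h9.trans (le_of_eq ?_))
      ring
    calc (∫ t in a0..b0, r t ^ 2) * ρ ≤ 2 * C1 ^ 2 * (1 + Cw) * T * h ^ 2 * ρ := by
          apply mul_le_mul_of_nonneg_right h11 (by linarith)
      _ = 2 * C1 ^ 2 * (1 + Cw) * T * (h ^ 2 * ρ) := by ring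
      _ ≤ 2 * C1 ^ 2 * (1 + Cw) * T * 98 := by gcongr
      _ = K1 * T := by rw [hK1]; ring
  have hshift : ∀ g : ℝ → ℝ, Continuous g → (∫ t in a0..b0, g (t + h)) = ∫ t in (a0 + h)..(b0 + h), g t :=
    fun g hg => intervalIntegral.integral_comp_add_right g h
  have hWs : ∫ t in a0..b0, WW l S (t + h) ^ 2 ≤ Cw * T := by
    rw [hshift (fun t => WW l S t ^ 2) (hWc.pow 2)]
    exact hWsub _ _ (by rw [ha0]; linarith) (by linarith) (by rw [hb0]; linarith)
  have hWs0 : ∫ t in a0..b0, WW l S t ^ 2 ≤ Cw * T :=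
    hWsub _ _ (by rw [ha0]; linarith) hab (by rw [hb0]; linarith)
  have iWs : IntervalIntegrable (fun t => WW l S (t + h) ^ 2) volume a0 b0 :=
    ((hWc.comp (continuous_id.add continuous_const)).pow 2).intervalIntegrable _ _
  have iWs0 : IntervalIntegrable (fun t => WW l S t ^ 2) volume a0 b0 :=
    (hWc.pow 2).intervalIntegrable _ _
  -- a function bounded by `c (W(t+h) + W(t))` has a small mean square
  have hsq : ∀ (g : ℝ → ℝ) (c : ℝ), 0 ≤ c → IntervalIntegrable (fun t => g t ^ 2) volume a0 b0 →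
      (∀ t, |g t| ≤ c * (WW l S (t + h) + WW l S t)) →
      ∫ t in a0..b0, g t ^ 2 ≤ 4 * c ^ 2 * Cw * T := by
    intro g c hc ig hg
    have h1 : ∫ t in a0..b0, g t ^ 2 ≤
        ∫ t in a0..b0, (2 * c ^ 2 * WW l S (t + h) ^ 2 + 2 * c ^ 2 * WW l S t ^ 2) := by
      refine intervalIntegral.integral_mono_on hab ig ((iWs.const_mul _).add (iWs0.const_mul _))
        fun t _ => ?_
      have h2 := hg t
      have h3 := WW_nonneg l S t
      have h4 := WW_nonneg l S (t + h)
      calc g t ^ 2 = |g t| ^ 2 := (sq_abs _).symm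
        _ ≤ (c * (WW l S (t + h) + WW l S t)) ^ 2 := pow_le_pow_left₀ (abs_nonneg _) h2 2
        _ = c ^ 2 * (WW l S (t + h) + WW l S t) ^ 2 := by ring
        _ ≤ c ^ 2 * (2 * WW l S (t + h) ^ 2 + 2 * WW l S t ^ 2) := by
            apply mul_le_mul_of_nonneg_left _ (sq_nonneg c)
            nlinarith only [sq_nonneg (WW l S (t + h) - WW l S t)]
        _ = _ := by ring
    rw [intervalIntegral.integral_add (iWs.const_mul _) (iWs0.const_mul _),
      intervalIntegral.integral_const_mul, intervalIntegral.integral_const_mul] at h1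
    have hc2 : 0 ≤ 2 * c ^ 2 := by positivity
    linarith [mul_le_mul_of_nonneg_left hWs hc2, mul_le_mul_of_nonneg_left hWs0 hc2]
  -- (2)
  have q2 : ∫ t in a0..b0, E t ^ 2 ≤ K2 * T := by
    refine (hsq E Ce hCe.le ?_ fun t => ?_).trans (le_of_eq (by rw [hK2]))
    · simp_rw [sq]; exact (bE.mul bE).ii _ _
    · refine (abs_sub _ _).trans ?_
      have h1 := hEEle l S (t + h)
      have h2 := hEEle l S t
      linarith
  -- (4)
  have hPb : ∀ t, |P t| ≤ Cp / l * (WW l S (t + h) + WW l S t) := by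
    intro t
    refine (abs_sub _ _).trans ?_
    have h1 := hPPb (t + h)
    have h2 := hPPb t
    linarith
  have q4 : ∫ t in a0..b0, P t ^ 2 ≤ (K4 * T) / L ^ 2 := by
    refine (hsq P (Cp / l) (by positivity) ((cP.pow 2).intervalIntegrable _ _) hPb).trans
      (le_of_eq ?_)
    rw [hK4, hl]
    field_simp
  -- (3)
  have q3 : ∫ t in a0..b0, D' t ^ 2 ≤ (K3 * T) * L ^ 2 := by
    have h8X : 8 * (X : ℝ) * (1 + Real.log X) ≤ T := by
      refine le_trans ?_ g2
      gcongr
    have hone : ∀ c d : ℝ, c ≤ d → d - c ≤ T → ∫ t in c..d, gd l X t ^ 2 ≤ Cg * (2 * T) * (2 * L) ^ 2 := by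
      intro c d hcd hdc
      refine (hgd l X c d hl0 hX1 hcd).trans ?_
      have h1 : d - c + 8 * (X : ℝ) * (1 + Real.log X) ≤ 2 * T := by linarith
      have h2 : 1 + Real.log X ≤ 2 * L := by linarith
      have h3 : 0 ≤ d - c + 8 * (X : ℝ) * (1 + Real.log X) := by
        have : 0 ≤ 8 * (X : ℝ) * (1 + Real.log X) := by positivity
        linarith
      gcongr
    have h1 : ∫ t in a0..b0, D' t ^ 2 ≤ ∫ t in a0..b0, (2 * gd l X (t + h) ^ 2 + 2 * gd l X t ^ 2) := by
      refine intervalIntegral.integral_mono_on hab ((cD'.pow 2).intervalIntegrable _ _) ?_ fun t _ => ?_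
      · exact ((continuous_const.mul (((gd_cont l X).comp
          (continuous_id.add continuous_const)).pow 2)).add
          (continuous_const.mul ((gd_cont l X).pow 2))).intervalIntegrable _ _
      · have : D' t = gd l X (t + h) - gd l X t := rfl
        rw [this]
        nlinarith only [sq_nonneg (gd l X (t + h) + gd l X t)]
    have i1 : IntervalIntegrable (fun t => 2 * gd l X (t + h) ^ 2) volume a0 b0 :=
      (continuous_const.mul (((gd_cont l X).comp
        (continuous_id.add continuous_const)).pow 2)).intervalIntegrable _ _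
    have i2 : IntervalIntegrable (fun t => 2 * gd l X t ^ 2) volume a0 b0 :=
      (continuous_const.mul ((gd_cont l X).pow 2)).intervalIntegrable _ _
    rw [intervalIntegral.integral_add i1 i2, intervalIntegral.integral_const_mul,
      intervalIntegral.integral_const_mul,
      hshift (fun t => gd l X t ^ 2) ((gd_cont l X).pow 2)] at h1
    have h2 := hone (a0 + h) (b0 + h) (by linarith) (by linarith)
    have h3 := hone a0 b0 hab hbaT
    have e : (K3 * T) * L ^ 2 = 4 * (Cg * (2 * T) * (2 * L) ^ 2) := by rw [hK3]; ring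
    rw [e]
    linarith
  -- (5)
  have hms := hDms T hTT3 a ha (by rw [one_mul]; exact haL)
  have q5 : ∫ t in a0..b0, D t ^ 2 ≤ (G * T) * ρ := by
    have h1 := (abs_le.1 hms).2
    have h2 : T / Real.pi ^ 2 * Real.log a + Cd * T ≤ (G * T) * ρ := by
      have h3 : (G * T) * ρ = (1 / Real.pi ^ 2 + Cd + 4 * Cp * lam * Cq) * T * (1 + Real.log a) := by
        rw [hG, hρ]
      rw [h3]
      have h4 : 0 ≤ Real.log a := by linarith
      have h5 : 0 ≤ 1 / Real.pi ^ 2 * T := by positivity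
      have h6 : 0 ≤ Cd * T * Real.log a := by positivity
      have h7 : 0 ≤ 4 * Cp * lam * Cq * T * (1 + Real.log a) := by positivity
      have e2 : T / Real.pi ^ 2 * Real.log a = 1 / Real.pi ^ 2 * T * Real.log a := by ring
      rw [e2]
      linarith
    have e3 : ∫ t in a0..b0, D t ^ 2 = ∫ t in (T + Real.log T)..(2 * T - Real.log T - 7),
        Db (Real.log T / lam) (2 * Real.pi * a / Real.log T) (XT T) t ^ 2 := rfl
    rw [e3]
    linarith
  -- by parts
  have q6 : |∫ t in a0..b0, (D' t * P t + D t * E t)| ≤ G * T := by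
    have hGc : Continuous fun t => D t * P t := (Db_contt l h X).mul cP
    have hGd : ∀ t, HasDerivWithinAt (fun t => D t * P t) (D' t * P t + D t * E t) (Iio t) t := by
      intro t
      have h1 : HasDerivWithinAt D (D' t) (Iio t) t := (Db_deriv l h X t).hasDerivWithinAt
      have h2 : HasDerivWithinAt P (E t) (Iio t) t := by
        have h3 : HasDerivWithinAt (fun t => PP (t + h)) (EE l S (t + h)) (Iio t) t := by
          have h4 := hPPd (t + h)
          have h5 : HasDerivWithinAt (fun t : ℝ => t + h) 1 (Iio t) t :=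
            ((hasDerivAt_id' t).add_const h).hasDerivWithinAt
          have h6 : MapsTo (fun t : ℝ => t + h) (Iio t) (Iio (t + h)) := by
            intro u hu
            have : u < t := hu
            show u + h < t + h
            linarith
          have h7 := h4.comp t h5 h6
          rw [mul_one] at h7
          exact h7
        exact h3.sub (hPPd t)
      exact h1.mul h2
    have hi : IntervalIntegrable (fun t => D' t * P t + D t * E t) volume a0 b0 :=
      ((cD'.mul cP).intervalIntegrable _ _).add ((bD.mul bE).ii _ _)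
    rw [int_left hab hGc hGd hi]
    have hbd : ∀ t, |D t * P t| ≤ 2 * Cp * lam * Cq * T := by
      intro t
      rw [abs_mul]
      have h1 : |D t| ≤ X := Db_bd hl0 h X t
      have h2 := hPb t
      have h3 := hpt T hTT4 U1 U2 hU1 hU2' t
      have h4 := hpt T hTT4 U1 U2 hU1 hU2' (t + h)
      have h5 : |P t| ≤ 2 * Cp * lam * Cq * Real.exp (L / 64) := by
        refine h2.trans ?_
        calc Cp / l * (WW l S (t + h) + WW l S t) ≤
            Cp / l * (Cq * L * Real.exp (L / 64) + Cq * L * Real.exp (L / 64)) := by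
              gcongr
          _ = _ := by rw [hl]; field_simp; ring
      have hE0 := Real.exp_pos (L / 64)
      calc |D t| * |P t| ≤ T ^ (1 / 8 : ℝ) * (2 * Cp * lam * Cq * Real.exp (L / 64)) :=
            mul_le_mul (h1.trans hXT) h5 (abs_nonneg _) (by positivity)
        _ = 2 * Cp * lam * Cq * (T ^ (1 / 8 : ℝ) * Real.exp (L / 64)) := by ring
        _ ≤ _ := by gcongr
    refine (abs_sub _ _).trans ?_
    have h1 := hbd b0
    have h2 := hbd a0
    have h3 : 4 * Cp * lam * Cq * T ≤ G * T := by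
      rw [hG]
      have : 0 ≤ (1 / Real.pi ^ 2 + Cd) * T := by positivity
      linarith
    linarith
  have hfin := abs_var hab hL0 hρ1 bf bD bE br cD' cP (fun t => rfl) q1 (by positivity) q2 q3 q4 q5 q6
  have e1 : ∫ t in a0..b0, f t ^ 2 = ∫ t in (T + Real.log T)..(2 * T - Real.log T - 7),
      (Nb S (t + 2 * Real.pi * a / Real.log T) - Nb S t - a) ^ 2 := by
    refine intervalIntegral.integral_congr fun t _ => ?_
    show (Nb S (t + h) - Nb S t - a) ^ 2 = _
    rw [hh]
  rw [← e1]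
  have e2 : (∫ t in a0..b0, f t ^ 2) - T / Real.pi ^ 2 * Real.log a =
      ((∫ t in a0..b0, f t ^ 2) - ∫ t in a0..b0, D t ^ 2) +
      ((∫ t in a0..b0, D t ^ 2) - T / Real.pi ^ 2 * Real.log a) := by ring
  rw [e2]
  refine (abs_add_le _ _).trans ((add_le_add hfin hms).trans (le_of_eq ?_))
  ring

end Pool.Agent.W2helper93.NV
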