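import Pool.Agent.W2helper93.NV.Prob
import Pool.Agent.Y21.FW.Zeros

set_option autoImplicit false

/-! # Zeros that are multiple or off the critical line -/

namespace Pool.Agent.W2helper93.NV

open Complex Filter Topology MeasureTheory Set

lemma ord_ne_top {s : ℂ} (hs : s ≠ 1) : analyticOrderAt riemannZeta s ≠ ⊤ := by
  intro h
  rw [analyticOrderAt_eq_top] at h
  have h2 : ∃ᶠ z in 𝓝[≠] s, riemannZeta z = 0 :=
    (h.filter_mono nhdsWithin_le_nhds).frequently
  have hz := AnalyticOnNhd.eqOn_zero_of_preconnected_of_frequently_eq_zero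
    (f := riemannZeta) (U := {1}ᶜ) (fun s hs => Pool.Agent.Y21.FW.zeta_an hs)
    Pool.Agent.Y21.FW.preconn hs h2
  exact Pool.Agent.Y21.FW.zeta_two_ne (hz (by simp : (2 : ℂ) ∈ ({1}ᶜ : Set ℂ)))

lemma zmult_pos {s : ℂ} (hs : s.im ≠ 0) (h0 : riemannZeta s = 0) : 1 ≤ zmult s :=
  (Pool.Agent.Y21.FW.mult_pos_iff (Pool.Agent.Y21.FW.ne_one hs)).2 h0

lemma zmult_two {s : ℂ} (hs : s.im ≠ 0) (h0 : riemannZeta s = 0) (h1 : deriv riemannZeta s = 0) :
    2 ≤ zmult s := by
  have hne := Pool.Agent.Y21.FW.ne_one hs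
  have han := Pool.Agent.Y21.FW.zeta_an hne
  have h2 : (1 : ℕ) ≤ analyticOrderAt (deriv riemannZeta) s := by
    rw [natCast_le_analyticOrderAt_iff_iteratedDeriv_eq_zero han.deriv]
    intro i hi
    have : i = 0 := by omega
    subst this
    simpa using h1
  rw [analyticOrderAt_deriv_ge_iff han h0] at h2
  have h3 : ((analyticOrderNatAt riemannZeta s : ℕ) : ℕ∞) = analyticOrderAt riemannZeta s :=
    Nat.cast_analyticOrderNatAt (ord_ne_top hne)
  rw [← h3] at h2
  have h4 : (2 : ℕ) ≤ analyticOrderNatAt riemannZeta s := by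
    have : ((2 : ℕ) : ℕ∞) ≤ ((analyticOrderNatAt riemannZeta s : ℕ) : ℕ∞) := by
      refine le_trans (le_of_eq ?_) h2
      norm_num
    exact_mod_cast this
  exact h4

/-- pairs at the same height see the bad zeros -/
theorem bad_le (T : ℝ) : NT T + Nbad T ≤ NE T := by
  classical
  set F := (NT_fin T).toFinset with hF
  have hmem : ∀ s, s ∈ F ↔ s ∈ ZZ ∧ 0 < s.im ∧ s.im ≤ T := by
    intro s
    rw [hF, Set.Finite.mem_toFinset]
    rfl
  have hbfin : {s : ℂ | s ∈ ZZ ∧ 0 < s.im ∧ s.im ≤ T ∧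
      (s.re ≠ 1 / 2 ∨ deriv riemannZeta s = 0)}.Finite :=
    (NT_fin T).subset fun s hs => ⟨hs.1, hs.2.1, hs.2.2.1⟩
  have e1 : NT T = ∑ s ∈ F, zmult s := by
    unfold NT
    rw [finsum_mem_eq_finite_toFinset_sum _ (NT_fin T)]
  have e2 : Nbad T = ∑ s ∈ F, if (s.re ≠ 1 / 2 ∨ deriv riemannZeta s = 0) then zmult s else 0 := by
    unfold Nbad
    rw [finsum_mem_eq_finite_toFinset_sum _ hbfin, ← Finset.sum_filter]
    refine Finset.sum_congr ?_ fun _ _ => rfl
    ext s
    rw [Set.Finite.mem_toFinset, Finset.mem_filter, hmem]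
    constructor
    · rintro ⟨h1, h2, h3, h4⟩
      exact ⟨⟨h1, h2, h3⟩, h4⟩
    · rintro ⟨⟨h1, h2, h3⟩, h4⟩
      exact ⟨h1, h2, h3, h4⟩
  have e3 : NE T = ∑ s ∈ F, ∑ s' ∈ F, if s.im = s'.im then zmult s * zmult s' else 0 := by
    unfold NE
    rw [finsum_mem_eq_finite_toFinset_sum _ (NE_fin T)]
    rw [← Finset.sum_product (s := F) (t := F)
      (f := fun p : ℂ × ℂ => if p.1.im = p.2.im then zmult p.1 * zmult p.2 else 0),
      ← Finset.sum_filter]
    refine Finset.sum_congr ?_ fun _ _ => rfl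
    ext p
    rw [Set.Finite.mem_toFinset, Finset.mem_filter, Finset.mem_product, hmem, hmem]
    constructor
    · rintro ⟨h1, h2, h3, h4, h5⟩
      exact ⟨⟨⟨h1, h3, h4⟩, ⟨h2, h5 ▸ h3, h5 ▸ h4⟩⟩, h5⟩
    · rintro ⟨⟨⟨h1, h3, h4⟩, ⟨h2, _, _⟩⟩, h5⟩
      exact ⟨h1, h2, h3, h4, h5⟩
  rw [e1, e2, e3, ← Finset.sum_add_distrib]
  refine Finset.sum_le_sum fun s hs => ?_
  have hs' := (hmem s).1 hs
  obtain ⟨⟨hz, hr0, hr1⟩, hi0, hiT⟩ := hs'
  have h1 := zmult_pos hi0.ne' hz
  have hself : zmult s * zmult s ≤ ∑ s' ∈ F, if s.im = s'.im then zmult s * zmult s' else 0 := by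
    have := Finset.single_le_sum (f := fun s' => if s.im = s'.im then zmult s * zmult s' else 0)
      (fun _ _ => Nat.zero_le _) hs
    simpa using this
  by_cases hb : s.re ≠ 1 / 2 ∨ deriv riemannZeta s = 0
  · rw [if_pos hb]
    by_cases hr : s.re = 1 / 2
    · have hd : deriv riemannZeta s = 0 := by
        rcases hb with h | h
        · exact absurd hr h
        · exact h
      have h2 := zmult_two hi0.ne' hz hd
      nlinarith
    · set s2 : ℂ := 1 - (starRingEnd ℂ) s with hs2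
      have him : s2.im = s.im := by simp [hs2]
      have hre : s2.re = 1 - s.re := by simp [hs2]
      have hmul : zmult s2 = zmult s := Pool.Agent.Y21.FW.mult_symm hi0.ne'
      have hz2 : riemannZeta s2 = 0 := by
        rw [← Pool.Agent.Y21.FW.mult_pos_iff (Pool.Agent.Y21.FW.ne_one (by rw [him]; exact hi0.ne'))]
        show 0 < zmult s2
        rw [hmul]
        exact h1
      have hs2F : s2 ∈ F := by
        rw [hmem]
        exact ⟨⟨hz2, by rw [hre]; linarith, by rw [hre]; linarith⟩, by rw [him]; exact hi0,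
          by rw [him]; exact hiT⟩
      have hne : s ≠ s2 := by
        intro h
        apply hr
        have : s.re = s2.re := by rw [← h]
        rw [hre] at this
        linarith
      have hpair : ∑ s' ∈ ({s, s2} : Finset ℂ), (if s.im = s'.im then zmult s * zmult s' else 0) ≤
          ∑ s' ∈ F, if s.im = s'.im then zmult s * zmult s' else 0 := by
        apply Finset.sum_le_sum_of_subset
        intro x hx
        rw [Finset.mem_insert, Finset.mem_singleton] at hx
        rcases hx with rfl | rfl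
        · exact hs
        · exact hs2F
      rw [Finset.sum_pair hne, if_pos rfl, if_pos him.symm, hmul] at hpair
      nlinarith
  · rw [if_neg hb]
    nlinarith

end Pool.Agent.W2helper93.NV
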