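import Pool.Agent.W2helper93.NV.Loc
import Pool.Agent.W2helper93.NV.Var2

set_option autoImplicit false

/-! # The second moment of the window count over a dyadic block -/

namespace Pool.Agent.W2helper93.NV

open Complex Filter Topology MeasureTheory Set
open H370 (zz hh mult Zf zset AA good_zeta mem_Zf NN NN_add NN_mono zcount nn_asymp finsum_Zf)

/-- bookkeeping: splitting the second moment -/
lemma split_sq {F : ℝ → ℝ} (hF : BM F) {p q r w a K : ℝ} (hpq : p ≤ q) (_ : q ≤ r) (hrw : r ≤ w)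
    (h0 : ∀ t, 0 ≤ F t) (h1 : ∀ t, F t ≤ K) (ha : 0 ≤ a) :
    |(∫ t in p..w, F t ^ 2) - ((∫ t in q..r, (F t - a) ^ 2) + 2 * a * (∫ t in p..w, F t) -
      a ^ 2 * (w - p))| ≤ ((q - p) + (w - r)) * (K ^ 2 + 2 * a * K + a ^ 2) := by
  have hK : 0 ≤ K := (h0 0).trans (h1 0)
  have i1 : ∀ x y, IntervalIntegrable F volume x y := fun x y => hF.ii x y
  have i2 : ∀ x y, IntervalIntegrable (fun t => F t ^ 2) volume x y := by
    intro x y
    simp_rw [sq]
    exact (hF.mul hF).ii x y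
  have e1 : ∫ t in p..w, F t ^ 2 = (∫ t in p..q, F t ^ 2) + (∫ t in q..r, F t ^ 2) +
      ∫ t in r..w, F t ^ 2 := by
    rw [intervalIntegral.integral_add_adjacent_intervals (i2 _ _) (i2 _ _),
      intervalIntegral.integral_add_adjacent_intervals (i2 _ _) (i2 _ _)]
  have e2 : ∫ t in p..w, F t = (∫ t in p..q, F t) + (∫ t in q..r, F t) +
      ∫ t in r..w, F t := by
    rw [intervalIntegral.integral_add_adjacent_intervals (i1 _ _) (i1 _ _),
      intervalIntegral.integral_add_adjacent_intervals (i1 _ _) (i1 _ _)]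
  have e3 : ∫ t in q..r, (F t - a) ^ 2 = (∫ t in q..r, F t ^ 2) - 2 * a * (∫ t in q..r, F t) +
      a ^ 2 * (r - q) := by
    have e : ∀ t, (F t - a) ^ 2 = F t ^ 2 - (2 * a * F t - a ^ 2) := fun t => by ring
    simp_rw [e]
    rw [intervalIntegral.integral_sub (i2 _ _)
      (((i1 _ _).const_mul _).sub (continuous_const.intervalIntegrable _ _)),
      intervalIntegral.integral_sub ((i1 _ _).const_mul _) (continuous_const.intervalIntegrable _ _),
      intervalIntegral.integral_const_mul, intervalIntegral.integral_const, smul_eq_mul]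
    ring
  have hb : ∀ x y, x ≤ y → 0 ≤ (∫ t in x..y, F t) ∧ (∫ t in x..y, F t) ≤ (y - x) * K := by
    intro x y hxy
    refine ⟨intervalIntegral.integral_nonneg hxy fun t _ => h0 t, ?_⟩
    have := intervalIntegral.integral_mono_on hxy (i1 x y)
      (continuous_const.intervalIntegrable (μ := volume) x y) fun t _ => h1 t
    rwa [intervalIntegral.integral_const, smul_eq_mul] at this
  have hb2 : ∀ x y, x ≤ y → 0 ≤ (∫ t in x..y, F t ^ 2) ∧ (∫ t in x..y, F t ^ 2) ≤ (y - x) * K ^ 2 := by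
    intro x y hxy
    refine ⟨intervalIntegral.integral_nonneg hxy fun t _ => sq_nonneg _, ?_⟩
    have := intervalIntegral.integral_mono_on hxy (i2 x y)
      (continuous_const.intervalIntegrable (μ := volume) x y)
      fun t _ => pow_le_pow_left₀ (h0 t) (h1 t) 2
    rwa [intervalIntegral.integral_const, smul_eq_mul] at this
  obtain ⟨a1, a2⟩ := hb p q hpq
  obtain ⟨a3, a4⟩ := hb r w hrw
  obtain ⟨b1, b2⟩ := hb2 p q hpq
  obtain ⟨b3, b4⟩ := hb2 r w hrw
  rw [e1, e3, e2]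
  have c1 : 0 ≤ a * (∫ t in p..q, F t) := mul_nonneg ha a1
  have c2 : 0 ≤ a * (∫ t in r..w, F t) := mul_nonneg ha a3
  have c3 : a * (∫ t in p..q, F t) ≤ a * ((q - p) * K) := mul_le_mul_of_nonneg_left a2 ha
  have c4 : a * (∫ t in r..w, F t) ≤ a * ((w - r) * K) := mul_le_mul_of_nonneg_left a4 ha
  have c5 : 0 ≤ a ^ 2 * (q - p) := mul_nonneg (sq_nonneg a) (by linarith)
  have c6 : 0 ≤ a ^ 2 * (w - r) := mul_nonneg (sq_nonneg a) (by linarith)
  have c7 : 0 ≤ K ^ 2 * (q - p) := mul_nonneg (sq_nonneg K) (by linarith)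
  have c8 : 0 ≤ K ^ 2 * (w - r) := mul_nonneg (sq_nonneg K) (by linarith)
  rw [abs_le]
  have c9 : 0 ≤ a * ((q - p) * K) := mul_nonneg ha (mul_nonneg (by linarith) hK)
  have c10 : 0 ≤ a * ((w - r) * K) := mul_nonneg ha (mul_nonneg (by linarith) hK)
  constructor <;> linarith

theorem block {lam : ℝ} (hlam : 16 ≤ lam) (hW : WMom lam) : ∃ C V0 : ℝ, 0 < C ∧ 10 ≤ V0 ∧
    ∀ V : ℝ, V0 ≤ V → ∀ T : ℝ, 2 * V ≤ T → T ≤ V ^ 2 → ∀ a h : ℝ, lam ≤ a →
      a * Real.log a ≤ Real.log V → h = 2 * Real.pi * a / Real.log V →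
      |(∫ t in V..(2 * V), (Nb (Zf riemannZeta 1 T) (t + h) - Nb (Zf riemannZeta 1 T) t) ^ 2) -
        ((Real.log V / Real.pi * (NN riemannZeta V (2 * V) : ℝ) -
          Real.log V ^ 2 * V / (4 * Real.pi ^ 2)) * h ^ 2 + V / Real.pi ^ 2 * Real.log a)| ≤
      C * V := by
  obtain ⟨Cv, V1, hCv, hV1, hvar⟩ := variance hlam hW
  obtain ⟨Cl, T1, hCl, hT1, hloc⟩ := loc
  have hpi := Real.pi_pos
  set K : ℝ := 2 * Cl with hK
  have hK0 : 0 < K := by positivity
  have ev1 : ∀ᶠ T : ℝ in atTop, Real.log T ^ 3 ≤ T := by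
    have h1 : (fun T : ℝ => Real.log T ^ 3) =o[atTop] fun T : ℝ => T ^ (1 : ℝ) := by
      have := isLittleO_log_rpow_rpow_atTop (s := 1) 3 (by norm_num : (0 : ℝ) < 1)
      refine this.congr' ?_ (Eventually.of_forall fun _ => rfl)
      filter_upwards with T
      norm_cast
    have h2 := h1.bound (c := 1) one_pos
    filter_upwards [h2, eventually_ge_atTop 1] with T hT hT1
    rw [one_mul, Real.rpow_one, Real.norm_of_nonneg (by linarith : (0 : ℝ) ≤ T)] at hT
    exact (le_abs_self _).trans hT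
  have ev2 : ∀ᶠ T : ℝ in atTop, 2 * Real.log T + 7 ≤ T := by
    have h1 : (fun T : ℝ => 2 * Real.log T + 7) =o[atTop] fun T : ℝ => T :=
      (Real.isLittleO_log_id_atTop.const_mul_left 2).add (Asymptotics.isLittleO_const_id_atTop _)
    have h2 := h1.bound (c := 1) (by norm_num)
    filter_upwards [h2, eventually_ge_atTop 1] with T hT hT1
    rw [Real.norm_of_nonneg (by linarith : (0 : ℝ) ≤ T)] at hT
    have := (le_abs_self _).trans hT
    linarith
  obtain ⟨V2, hV2⟩ := (ev1.and ev2).exists_forall_of_atTop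
  refine ⟨Cv + 28 * K + 9 * (K ^ 2 + 2 * K + 1), max (max V1 T1) V2, by positivity,
    hV1.trans ((le_max_left _ _).trans (le_max_left _ _)), fun V hV T hT2 hTV a h ha haL hh => ?_⟩
  have hVV1 : V1 ≤ V := ((le_max_left _ _).trans (le_max_left _ _)).trans hV
  have hVT1 : T1 ≤ V := ((le_max_right _ _).trans (le_max_left _ _)).trans hV
  obtain ⟨g1, g2⟩ := hV2 V ((le_max_right _ _).trans hV)
  have hV10 : 10 ≤ V := hV1.trans hVV1
  set l := Real.log V with hl
  have hl2 : 1 < l := by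
    rw [hl, Real.lt_log_iff_exp_lt (by linarith)]
    have := Real.exp_one_lt_d9
    linarith
  have hl0 : 0 < l := by linarith
  obtain ⟨hh0, hh7, hhl, hla1⟩ := h_size (hlam.trans ha) hl0 haL
  rw [← hh] at hh0 hh7 hhl
  have ha0 : 0 < a := by linarith
  have hal : a ≤ l := by
    have : a * 1 ≤ a * Real.log a := mul_le_mul_of_nonneg_left hla1 ha0.le
    linarith
  set S := Zf riemannZeta 1 T with hS
  set F : ℝ → ℝ := fun t => Nb S (t + h) - Nb S t with hF
  have hFB : BM F := ((Nb_BM S).shift h).sub (Nb_BM S)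
  have hF0 : ∀ t, 0 ≤ F t := fun t => sub_nonneg.2 (Nb_mono S (by linarith))
  have hlT : Real.log T ≤ 2 * l := by
    have := Real.log_le_log (by linarith) hTV
    rw [Real.log_pow] at this
    simpa using this
  have hF1 : ∀ t, F t ≤ K * l := by
    intro t
    have k1 : Nb S (t + h) ≤ Nb S (t + 7) := Nb_mono S (by linarith)
    have k2 := hloc T (by linarith) t
    have k3 := mul_le_mul_of_nonneg_left hlT hCl.le
    have k4 : Cl * (2 * l) = K * l := by rw [hK]; ring
    show Nb S (t + h) - Nb S t ≤ K * l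
    linarith
  obtain ⟨U1, U2, hU1, hU1', hU2, hU2', hv⟩ := hvar V hVV1
  have hv2 := hv a ha haL
  have e1 : ∫ t in (V + l)..(2 * V - l - 7), (F t - a) ^ 2 =
      ∫ t in (V + l)..(2 * V - l - 7), (Nb (Zf riemannZeta U1 U2) (t + 2 * Real.pi * a / l) -
        Nb (Zf riemannZeta U1 U2) t - a) ^ 2 := by
    refine intervalIntegral.integral_congr fun t ht => ?_
    rw [Set.uIcc_of_le (by linarith)] at ht
    show (Nb S (t + h) - Nb S t - a) ^ 2 = _
    rw [Nb_local (by linarith) hT2 hU1 (by linarith [ht.1]) (by linarith [ht.2]) hU2' hh0.le, hh]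
  rw [← hl, ← e1] at hv2
  have hsp := split_sq hFB (p := V) (q := V + l) (r := 2 * V - l - 7) (w := 2 * V)
    (by linarith) (by linarith) (by linarith) hF0 hF1 ha0.le
  have hone := int_one (c := V) (d := 2 * V) (by linarith) hh0.le S
  rw [Nc_block (by linarith) hT2] at hone
  set N : ℝ := (NN riemannZeta V (2 * V) : ℝ) with hN
  have hb1 : h * (Nb S (V + h) - Nb S V) ≤ 7 * (K * l) :=
    mul_le_mul hh7 (hF1 V) (hF0 V) (by norm_num)
  have hb2 : h * (Nb S (2 * V + h) - Nb S (2 * V)) ≤ 7 * (K * l) :=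
    mul_le_mul hh7 (hF1 (2 * V)) (hF0 (2 * V)) (by norm_num)
  have hone2 : |(∫ t in V..(2 * V), F t) - h * N| ≤ 14 * (K * l) := by
    refine hone.trans ?_
    linarith
  have e2 : 2 * a * (h * N) - a ^ 2 * (2 * V - V) =
      (l / Real.pi * N - l ^ 2 * V / (4 * Real.pi ^ 2)) * h ^ 2 := by
    rw [hh]
    field_simp
    ring
  have l3 : 0 ≤ l ^ 3 := by positivity
  have m1 : 2 * a * (14 * (K * l)) ≤ 28 * K * l ^ 3 := by
    have : a * l ≤ l * l := mul_le_mul_of_nonneg_right hal hl0.le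
    have h3 : l * l ≤ l ^ 3 := by nlinarith only [mul_pos hl0 hl0, hl2]
    have h4 : 2 * a * (14 * (K * l)) = 28 * K * (a * l) := by ring
    rw [h4]
    exact mul_le_mul_of_nonneg_left (this.trans h3) (by positivity)
  have m2 : ((V + l - V) + (2 * V - (2 * V - l - 7))) * ((K * l) ^ 2 + 2 * a * (K * l) + a ^ 2) ≤
      9 * (K ^ 2 + 2 * K + 1) * l ^ 3 := by
    have h3 : (V + l - V) + (2 * V - (2 * V - l - 7)) ≤ 9 * l := by linarith
    have h4 : (K * l) ^ 2 + 2 * a * (K * l) + a ^ 2 ≤ (K ^ 2 + 2 * K + 1) * l ^ 2 := by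
      have : a ^ 2 ≤ l ^ 2 := pow_le_pow_left₀ ha0.le hal 2
      have h5 : a * (K * l) ≤ l * (K * l) := mul_le_mul_of_nonneg_right hal (by positivity)
      have h6 : (K ^ 2 + 2 * K + 1) * l ^ 2 = (K * l) ^ 2 + 2 * (l * (K * l)) + l ^ 2 := by ring
      rw [h6]
      linarith
    calc _ ≤ 9 * l * ((K ^ 2 + 2 * K + 1) * l ^ 2) :=
          mul_le_mul h3 h4 (by positivity) (by positivity)
      _ = _ := by ring
  have hfin : |(∫ t in V..(2 * V), F t ^ 2) - ((l / Real.pi * N - l ^ 2 * V / (4 * Real.pi ^ 2)) * h ^ 2 +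
      V / Real.pi ^ 2 * Real.log a)| ≤
      9 * (K ^ 2 + 2 * K + 1) * l ^ 3 + Cv * V + 28 * K * l ^ 3 := by
    rw [← e2]
    have hone3 : |2 * a * ((∫ t in V..(2 * V), F t) - h * N)| ≤ 28 * K * l ^ 3 := by
      rw [abs_mul, abs_of_nonneg (by positivity : (0 : ℝ) ≤ 2 * a)]
      exact (mul_le_mul_of_nonneg_left hone2 (by positivity)).trans m1
    have hsp2 := hsp.trans m2
    rw [abs_le] at hsp2 hv2 hone3 ⊢
    constructor <;> linarith [hsp2.1, hsp2.2, hv2.1, hv2.2, hone3.1, hone3.2]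
  refine hfin.trans ?_
  have : (28 * K + 9 * (K ^ 2 + 2 * K + 1)) * l ^ 3 ≤ (28 * K + 9 * (K ^ 2 + 2 * K + 1)) * V :=
    mul_le_mul_of_nonneg_left g1 (by positivity)
  linarith

end Pool.Agent.W2helper93.NV
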