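import Pool.Agent.W2helper93.NV.DBd

set_option autoImplicit false

/-! # The number variance: the second moment of the number of ordinates in a window -/

namespace Pool.Agent.W2helper93.NV

open Complex Filter Topology MeasureTheory Set
open Pool.Agent.TH850.UV
open H370 (zz hh mult Zf zset AA good_zeta mem_Zf)
open H370.A2 (lamC lamC_norm)

/-- bounded measurable functions -/
def BM (f : ℝ → ℝ) : Prop := Measurable f ∧ ∃ M : ℝ, ∀ t, |f t| ≤ M

lemma BM.add {f g : ℝ → ℝ} (hf : BM f) (hg : BM g) : BM (fun t => f t + g t) := by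
  obtain ⟨hf, M, hM⟩ := hf
  obtain ⟨hg, M', hM'⟩ := hg
  exact ⟨hf.add hg, M + M', fun t => (abs_add_le _ _).trans (add_le_add (hM t) (hM' t))⟩

lemma BM.sub {f g : ℝ → ℝ} (hf : BM f) (hg : BM g) : BM (fun t => f t - g t) := by
  obtain ⟨hf, M, hM⟩ := hf
  obtain ⟨hg, M', hM'⟩ := hg
  exact ⟨hf.sub hg, M + M', fun t => (abs_sub _ _).trans (add_le_add (hM t) (hM' t))⟩

lemma BM.mul {f g : ℝ → ℝ} (hf : BM f) (hg : BM g) : BM (fun t => f t * g t) := by
  obtain ⟨hf, M, hM⟩ := hf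
  obtain ⟨hg, M', hM'⟩ := hg
  refine ⟨hf.mul hg, M * M', fun t => ?_⟩
  rw [abs_mul]
  exact mul_le_mul (hM t) (hM' t) (abs_nonneg _) ((abs_nonneg _).trans (hM t))

lemma BM.const (c : ℝ) : BM (fun _ => c) := ⟨measurable_const, |c|, fun _ => le_rfl⟩

lemma BM.shift {f : ℝ → ℝ} (hf : BM f) (h : ℝ) : BM (fun t => f (t + h)) := by
  obtain ⟨hf, M, hM⟩ := hf
  exact ⟨hf.comp (measurable_id.add_const h), M, fun t => hM (t + h)⟩

lemma BM.ii {f : ℝ → ℝ} (hf : BM f) (a b : ℝ) : IntervalIntegrable f volume a b := by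
  obtain ⟨hf, M, hM⟩ := hf
  exact NV.ii hf M hM a b

lemma Nb_BM (S : Finset ℂ) : BM (Nb S) := by
  refine ⟨?_, ∑ s ∈ S, mm s, fun t => ?_⟩
  · unfold Nb
    exact Finset.measurable_sum _ fun s _ =>
      Measurable.ite measurableSet_Ioi measurable_const measurable_const
  · unfold Nb
    refine (Finset.abs_sum_le_sum_abs _ _).trans (Finset.sum_le_sum fun s _ => ?_)
    split_ifs
    · rw [abs_of_nonneg (mm_nonneg s)]
    · rw [abs_zero]; exact mm_nonneg s

lemma WW_BM (l : ℝ) (S : Finset ℂ) : BM (WW l S) := by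
  refine ⟨(WW_cont l S).measurable, ∑ s ∈ S, mm s * Real.exp (Real.pi * |yy l s|), fun t => ?_⟩
  rw [abs_of_nonneg (WW_nonneg l S t)]
  unfold WW
  refine Finset.sum_le_sum fun s _ => mul_le_mul_of_nonneg_left ?_ (mm_nonneg s)
  apply div_le_self (Real.exp_pos _).le
  nlinarith [sq_nonneg (xx l s t)]

lemma EE_eq {l : ℝ} (hl : 0 < l) (S : Finset ℂ) (t : ℝ) :
    EE l S t = (∑ s ∈ S, mm s * Qk (yy l s) (xx l s t)) - Nb S t := by
  unfold EE Nb
  rw [← Finset.sum_sub_distrib]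
  refine Finset.sum_congr rfl fun s _ => ?_
  rw [Qk_Jk hl]
  split_ifs <;> ring

lemma EE_BM {l : ℝ} (hl : 0 < l) (S : Finset ℂ) : BM (EE l S) := by
  obtain ⟨C, hC, h⟩ := EE_le
  obtain ⟨-, M, hM⟩ := WW_BM l S
  refine ⟨?_, C * M, fun t => (h l S t).trans ?_⟩
  · have e : EE l S = fun t => (∑ s ∈ S, mm s * Qk (yy l s) (xx l s t)) - Nb S t :=
      funext (EE_eq hl S)
    rw [e]
    refine Measurable.sub ?_ (Nb_BM S).1
    refine (continuous_finsetSum _ fun s _ => continuous_const.mul ?_).measurable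
    exact continuous_iff_continuousAt.2 fun t => (Qk_deriv l s t).continuousAt
  · have := hM t
    rw [abs_of_nonneg (WW_nonneg l S t)] at this
    exact mul_le_mul_of_nonneg_left this hC.le

lemma WW_pt {lam : ℝ} (hlam : 16 ≤ lam) : ∃ C T0 : ℝ, 0 < C ∧ 10 ≤ T0 ∧ ∀ T : ℝ, T0 ≤ T →
    ∀ U1 U2 : ℝ, T ≤ U1 → U2 ≤ 2 * T → ∀ t : ℝ,
      WW (Real.log T / lam) (Zf riemannZeta U1 U2) t ≤
        C * Real.log T * Real.exp (Real.log T / 64) := by
  obtain ⟨C, hC, hloc⟩ := H370.local_sum good_zeta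
  have hpi := Real.pi_pos
  have hlam0 : 0 < lam := by linarith
  have hsum : Summable (fun k : ℤ => 1 / (1 + (k : ℝ) ^ 2)) := by
    have h1 : Summable (fun m : ℤ => 1 / (m : ℝ) ^ 2) :=
      Real.summable_one_div_int_pow.2 (by norm_num)
    have h2 : Summable (fun m : ℤ => if m = 0 then (1 : ℝ) else 0) := by
      refine summable_of_ne_finset_zero (s := {0}) fun m hm => ?_
      rw [Finset.mem_singleton] at hm
      simp [hm]
    refine Summable.of_nonneg_of_le (fun m => by positivity) (fun m => ?_) (h1.add h2)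
    by_cases hm : m = 0
    · simp [hm]
    · have hm2 : (0 : ℝ) < (m : ℝ) ^ 2 := by positivity
      rw [if_neg hm, add_zero]
      exact one_div_le_one_div_of_le hm2 (by linarith)
  set S0 := ∑' k : ℤ, 1 / (1 + (k : ℝ) ^ 2) with hS0
  have hS00 : 0 ≤ S0 := tsum_nonneg fun k => by positivity
  refine ⟨C * (3 * S0 + 1), max 10 (Real.exp (2 * Real.pi * lam)), by positivity,
    le_max_left _ _, fun T hT U1 U2 hU1 hU2 t => ?_⟩
  have hT10 : 10 ≤ T := (le_max_left _ _).trans hT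
  have hTpos : 0 < T := by linarith
  have hTe : Real.exp (2 * Real.pi * lam) ≤ T := (le_max_right _ _).trans hT
  set L := Real.log T with hL
  have hL1 : 2 * Real.pi * lam ≤ L := by rw [hL, Real.le_log_iff_exp_le hTpos]; exact hTe
  have hL0 : 0 < L := lt_of_lt_of_le (by positivity) hL1
  have hU : 1 ≤ U1 := by linarith
  set l := L / lam with hl
  have hl2 : 2 * Real.pi ≤ l := by rw [hl, le_div_iff₀ hlam0]; exact hL1
  have hc : 1 ≤ l / (2 * Real.pi) := by rw [le_div_iff₀ (by positivity), one_mul]; exact hl2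
  have h := hloc T (by linarith) U1 U2 hU1 hU2 t
    (fun k => 3 * Real.exp (L / 64) * (1 / (1 + (k : ℝ) ^ 2))) (fun k => by positivity)
    (fun s => Real.exp (Real.pi * |yy l s|) / (1 + xx l s t ^ 2)) (fun s hs => ?_)
  · have e : WW l (Zf riemannZeta U1 U2) t = ∑ s ∈ Zf riemannZeta U1 U2, (mult riemannZeta s : ℝ) *
        (Real.exp (Real.pi * |yy l s|) / (1 + xx l s t ^ 2)) := rfl
    rw [e]
    refine h.trans ?_
    rw [← Finset.mul_sum]
    have h2 : ∑ k ∈ (Zf riemannZeta U1 U2).image (fun s => ⌊s.im - t⌋), 1 / (1 + (k : ℝ) ^ 2) ≤ S0 :=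
      hsum.sum_le_tsum _ (fun k _ => by positivity)
    have hE := Real.exp_pos (L / 64)
    calc C * L * (3 * Real.exp (L / 64) *
        ∑ k ∈ (Zf riemannZeta U1 U2).image (fun s => ⌊s.im - t⌋), 1 / (1 + (k : ℝ) ^ 2)) ≤
        C * L * (3 * Real.exp (L / 64) * S0) := by gcongr
      _ ≤ C * (3 * S0 + 1) * L * Real.exp (L / 64) := by
          have : 0 ≤ C * L * Real.exp (L / 64) := by positivity
          nlinarith
  · rw [mem_Zf good_zeta hU] at hs
    have h1 := hs.1
    have h2 := hs.2.1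
    have h3 : |s.re - 1 / 2| ≤ 1 / 2 := by
      rw [abs_le]; constructor <;> linarith
    have h4 : Real.pi * |yy l s| ≤ L / 64 := by
      unfold yy
      rw [abs_mul, abs_of_pos (by positivity : 0 < l / (2 * Real.pi))]
      calc Real.pi * (|s.re - 1 / 2| * (l / (2 * Real.pi))) ≤
          Real.pi * (1 / 2 * (l / (2 * Real.pi))) := by gcongr
        _ = l / 4 := by field_simp; ring
        _ ≤ L / 64 := by
            rw [hl, div_div]
            apply div_le_div_of_nonneg_left hL0.le (by norm_num)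
            linarith
    set v := s.im - t with hv
    set k : ℤ := ⌊v⌋ with hk
    have h5 : (k : ℝ) ≤ v := Int.floor_le v
    have h6 : v < k + 1 := Int.lt_floor_add_one v
    have h7 : v ^ 2 ≤ xx l s t ^ 2 := by
      have : xx l s t = -(v * (l / (2 * Real.pi))) := by unfold xx; rw [hv]; ring
      rw [this, neg_sq, mul_pow]
      have h8 : 1 ≤ (l / (2 * Real.pi)) ^ 2 := one_le_pow₀ hc
      nlinarith [sq_nonneg v]
    have h9 : 1 + (k : ℝ) ^ 2 ≤ 3 * (1 + v ^ 2) := by
      have hw : (v - (k : ℝ)) ^ 2 ≤ 1 := by nlinarith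
      nlinarith [sq_nonneg (v + (v - (k : ℝ))), sq_nonneg v]
    have h10 : 1 / (1 + xx l s t ^ 2) ≤ 3 * (1 / (1 + (k : ℝ) ^ 2)) := by
      rw [mul_one_div, div_le_div_iff₀ (by positivity) (by positivity)]
      nlinarith
    calc Real.exp (Real.pi * |yy l s|) / (1 + xx l s t ^ 2) =
        Real.exp (Real.pi * |yy l s|) * (1 / (1 + xx l s t ^ 2)) := by ring
      _ ≤ Real.exp (L / 64) * (3 * (1 / (1 + (k : ℝ) ^ 2))) :=
          mul_le_mul (Real.exp_le_exp.2 h4) h10 (by positivity) (Real.exp_pos _).le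
      _ = _ := by ring

end Pool.Agent.W2helper93.NV
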