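import Pool.Agent.W2helper93.NV.Prim

set_option autoImplicit false

/-! # The prime sum: derivative and mean squares -/

namespace Pool.Agent.W2helper93.NV

open Complex Filter Topology MeasureTheory Set
open Pool.Agent.TH850.UV
open ArithmeticFunction (vonMangoldt)
open H370.A2 (lamC lamC_norm)

/-- `∑ Λ(n)² / n ≤ C (1 + log X)²` -/
lemma lam_sq : ∃ C : ℝ, 0 < C ∧ ∀ X : ℕ, 1 ≤ X →
    ∑ n ∈ Finset.Icc 1 X, vonMangoldt n ^ 2 / n ≤ C * (1 + Real.log X) ^ 2 := by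
  obtain ⟨C, hC, hW⟩ := Pool.Agent.TH850.UR.WW_bound
  refine ⟨8 * C, by positivity, fun X hX => ?_⟩
  have hXR : (1 : ℝ) ≤ X := by exact_mod_cast hX
  have hlog : 0 ≤ Real.log X := Real.log_nonneg hXR
  set K := ⌊Real.log X⌋₊ with hK
  have hK1 : (K : ℝ) ≤ Real.log X := Nat.floor_le hlog
  have h1 : ∑ n ∈ Finset.Icc 1 X, vonMangoldt n ^ 2 / n ≤
      ∑ n ∈ Finset.Icc 1 X, ∑ k ∈ Finset.range (K + 1),
        2 * (vonMangoldt n ^ 2 / n * Real.exp (-((k : ℝ) - Real.log n) ^ 2 / 2)) := by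
    refine Finset.sum_le_sum fun n hn => ?_
    rw [Finset.mem_Icc] at hn
    have hn1 : (1 : ℝ) ≤ n := by exact_mod_cast hn.1
    have hnX : (n : ℝ) ≤ X := by exact_mod_cast hn.2
    have hln : 0 ≤ Real.log n := Real.log_nonneg hn1
    set j := ⌊Real.log n⌋₊ with hj
    have hjK : j ∈ Finset.range (K + 1) := by
      rw [Finset.mem_range, Nat.lt_succ_iff]
      exact Nat.floor_le_floor (Real.log_le_log (by linarith) hnX)
    have h2 : (j : ℝ) ≤ Real.log n := Nat.floor_le hln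
    have h3 : Real.log n < j + 1 := Nat.lt_floor_add_one _
    have h4 : 1 / 2 ≤ Real.exp (-((j : ℝ) - Real.log n) ^ 2 / 2) := by
      have h5 : -(1 / 2 : ℝ) ≤ -((j : ℝ) - Real.log n) ^ 2 / 2 := by nlinarith
      have h6 := Real.add_one_le_exp (-(1 / 2 : ℝ))
      exact le_trans (by linarith) (Real.exp_le_exp.2 h5)
    have h7 : 0 ≤ vonMangoldt n ^ 2 / n := by positivity
    calc vonMangoldt n ^ 2 / n ≤
        2 * (vonMangoldt n ^ 2 / n * Real.exp (-((j : ℝ) - Real.log n) ^ 2 / 2)) := by nlinarith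
      _ ≤ _ := Finset.single_le_sum (f := fun k : ℕ => 2 * (vonMangoldt n ^ 2 / n *
          Real.exp (-((k : ℝ) - Real.log n) ^ 2 / 2))) (fun k _ => by positivity) hjK
  refine h1.trans ?_
  rw [Finset.sum_comm]
  have h2 : ∀ k ∈ Finset.range (K + 1), ∑ n ∈ Finset.Icc 1 X,
      2 * (vonMangoldt n ^ 2 / n * Real.exp (-((k : ℝ) - Real.log n) ^ 2 / 2)) ≤
      2 * (C * (1 + Real.log X)) := by
    intro k hk
    rw [← Finset.mul_sum]
    apply mul_le_mul_of_nonneg_left _ (by norm_num)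
    have h3 := hW X k (Nat.cast_nonneg k)
    have hk2 : (k : ℝ) ≤ K := by
      have := Finset.mem_range.1 hk
      exact_mod_cast Nat.lt_succ_iff.1 this
    have h4 : C * (1 + (k : ℝ)) ≤ C * (1 + Real.log X) := by gcongr; linarith
    exact le_trans h3 h4
  refine (Finset.sum_le_sum h2).trans ?_
  rw [Finset.sum_const, Finset.card_range, nsmul_eq_mul]
  push_cast
  have h3 : (K : ℝ) + 1 ≤ 1 + Real.log X := by linarith
  calc ((K : ℝ) + 1) * (2 * (C * (1 + Real.log X))) ≤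
      (1 + Real.log X) * (2 * (C * (1 + Real.log X))) := by gcongr
    _ ≤ 8 * C * (1 + Real.log X) ^ 2 := by nlinarith [mul_pos hC (by positivity : 0 < (1 + Real.log X) ^ 2)]

/-- the density of the prime sum -/
noncomputable def gd (l : ℝ) (X : ℕ) (t : ℝ) : ℝ :=
  l / (2 * Real.pi) * (2 * (1 / Real.sqrt (2 * Real.pi)) * (DDo lamC l X t).re)

lemma gd_cont (l : ℝ) (X : ℕ) : Continuous (gd l X) := by
  unfold gd
  exact continuous_const.mul (continuous_const.mul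
    (Complex.continuous_re.comp (DDo_cont lamC l X)))

lemma Db_int (l h : ℝ) (X : ℕ) (t : ℝ) : Db l h X t = ∫ τ in t..(t + h), gd l X τ :=
  Db_eq l h X t

lemma Db_deriv (l h : ℝ) (X : ℕ) (t : ℝ) :
    HasDerivAt (Db l h X) (gd l X (t + h) - gd l X t) t := by
  have hc := gd_cont l X
  have e : Db l h X = fun t => (∫ τ in (0 : ℝ)..(t + h), gd l X τ) - ∫ τ in (0 : ℝ)..t, gd l X τ := by
    funext t
    rw [Db_int, intervalIntegral.integral_interval_sub_left (hc.intervalIntegrable _ _)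
      (hc.intervalIntegrable _ _)]
  rw [e]
  have h1 : HasDerivAt (fun x => ∫ τ in (0 : ℝ)..x, gd l X τ) (gd l X (t + h)) (t + h) :=
    (hc.integral_hasStrictDerivAt 0 (t + h)).hasDerivAt
  have h2 : HasDerivAt (fun x => ∫ τ in (0 : ℝ)..x, gd l X τ) (gd l X t) t :=
    (hc.integral_hasStrictDerivAt 0 t).hasDerivAt
  have h3 := h1.comp_add_const t h
  exact h3.sub h2

lemma Db_contt (l h : ℝ) (X : ℕ) : Continuous (Db l h X) :=
  continuous_iff_continuousAt.2 fun t => (Db_deriv l h X t).continuousAt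

lemma Db_bd {l : ℝ} (hl : 0 < l) (h : ℝ) (X : ℕ) (t : ℝ) : |Db l h X t| ≤ X := by
  unfold Db
  refine (Complex.abs_re_le_norm _).trans ((norm_sum_le _ _).trans ?_)
  have h1 : ∀ n ∈ Finset.Icc 2 X, ‖kap l h n * (n : ℂ) ^ (-(t : ℂ) * I)‖ ≤ 1 := by
    intro n hn
    have hn2 := (Finset.mem_Icc.1 hn).1
    have hn0 : (0 : ℝ) < n := by exact_mod_cast (by omega : 0 < n)
    rw [norm_mul]
    have h2 : ‖(n : ℂ) ^ (-(t : ℂ) * I)‖ = 1 := by
      rw [show (n : ℂ) = ((n : ℝ) : ℂ) by push_cast; rfl, Complex.norm_cpow_eq_rpow_re_of_pos hn0]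
      simp
    rw [h2, mul_one]
    exact kap_le hl h n hn2
  refine (Finset.sum_le_sum h1).trans ?_
  rw [Finset.sum_const, Nat.card_Icc, nsmul_eq_mul, mul_one]
  exact_mod_cast (by omega : X + 1 - 2 ≤ X)

/-- mean square of the density -/
theorem gd_ms : ∃ C : ℝ, 0 < C ∧ ∀ (l : ℝ) (X : ℕ) (T1 T2 : ℝ), 0 < l → 1 ≤ X → T1 ≤ T2 →
    ∫ t in T1..T2, gd l X t ^ 2 ≤ C * (T2 - T1 + 8 * X * (1 + Real.log X)) * (1 + Real.log X) ^ 2 := by
  obtain ⟨C, hC, hL⟩ := lam_sq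
  have hpi := Real.pi_pos
  refine ⟨C, hC, fun l X T1 T2 hl hX hT => ?_⟩
  have hXR : (1 : ℝ) ≤ X := by exact_mod_cast hX
  have hlog : 0 ≤ Real.log X := Real.log_nonneg hXR
  have hDc := DDo_cont lamC l X
  have hmv := H370.mean_value (fun n => lamC n * (Real.sqrt n : ℂ)⁻¹ * (ggo l n : ℂ)) X T1 T2 hT
  have hs : 0 < Real.sqrt (2 * Real.pi) := Real.sqrt_pos.2 (by positivity)
  have hs2 : Real.sqrt (2 * Real.pi) ^ 2 = 2 * Real.pi := Real.sq_sqrt (by positivity)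
  have h1 : ∑ n ∈ Finset.Icc 1 X, ‖lamC n * (Real.sqrt n : ℂ)⁻¹ * (ggo l n : ℂ)‖ ^ 2 ≤
      2 * Real.pi / l ^ 2 * (C * (1 + Real.log X) ^ 2) := by
    refine le_trans ?_ (mul_le_mul_of_nonneg_left (hL X hX) (by positivity))
    rw [Finset.mul_sum]
    refine Finset.sum_le_sum fun n hn => ?_
    have hn1 : 1 ≤ n := (Finset.mem_Icc.mp hn).1
    have hn0 : (0 : ℝ) < n := by exact_mod_cast hn1
    rw [norm_mul, norm_mul, norm_inv, Complex.norm_real, Complex.norm_real,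
      Real.norm_of_nonneg (Real.sqrt_nonneg _), Real.norm_of_nonneg (ggo_nonneg l n), mul_pow,
      mul_pow, inv_pow, Real.sq_sqrt hn0.le, lamC_norm]
    have h2 := ggo_le hl n
    have h3 := ggo_nonneg l n
    have h4 : ggo l n ^ 2 ≤ 2 * Real.pi / l ^ 2 := by
      calc ggo l n ^ 2 ≤ (Real.sqrt (2 * Real.pi) / l) ^ 2 := by gcongr
        _ = _ := by rw [div_pow, hs2]
    calc vonMangoldt n ^ 2 * (n : ℝ)⁻¹ * ggo l n ^ 2 ≤
        vonMangoldt n ^ 2 * (n : ℝ)⁻¹ * (2 * Real.pi / l ^ 2) := by gcongr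
      _ = _ := by ring
  have h2 : ∫ t in T1..T2, ‖DDo lamC l X t‖ ^ 2 ≤ (T2 - T1 + 8 * X * (1 + Real.log X)) *
      (2 * Real.pi / l ^ 2 * (C * (1 + Real.log X) ^ 2)) := by
    refine le_trans hmv (mul_le_mul_of_nonneg_left h1 ?_)
    have : 0 ≤ 8 * X * (1 + Real.log X) := by positivity
    linarith
  have h3 : ∫ t in T1..T2, gd l X t ^ 2 ≤
      ∫ t in T1..T2, (l ^ 2 / (2 * Real.pi) ^ 3 * 4) * ‖DDo lamC l X t‖ ^ 2 := by
    refine intervalIntegral.integral_mono_on hT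
      (((gd_cont l X).pow 2).intervalIntegrable _ _)
      ((continuous_const.mul (hDc.norm.pow 2)).intervalIntegrable _ _) fun t _ => ?_
    unfold gd
    have h4 : (DDo lamC l X t).re ^ 2 ≤ ‖DDo lamC l X t‖ ^ 2 := by
      rw [← sq_abs]
      have := Complex.abs_re_le_norm (DDo lamC l X t)
      gcongr
    calc (l / (2 * Real.pi) * (2 * (1 / Real.sqrt (2 * Real.pi)) * (DDo lamC l X t).re)) ^ 2 =
        l ^ 2 / (2 * Real.pi) ^ 2 * 4 / Real.sqrt (2 * Real.pi) ^ 2 * (DDo lamC l X t).re ^ 2 := by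
          ring
      _ = (l ^ 2 / (2 * Real.pi) ^ 3 * 4) * (DDo lamC l X t).re ^ 2 := by rw [hs2]; ring
      _ ≤ _ := by gcongr
  refine h3.trans ?_
  rw [intervalIntegral.integral_const_mul]
  have h5 : l ^ 2 / (2 * Real.pi) ^ 3 * 4 * ((T2 - T1 + 8 * X * (1 + Real.log X)) *
      (2 * Real.pi / l ^ 2 * (C * (1 + Real.log X) ^ 2))) =
      4 / (2 * Real.pi) ^ 2 * (C * (T2 - T1 + 8 * X * (1 + Real.log X)) * (1 + Real.log X) ^ 2) := by
    field_simp
  calc l ^ 2 / (2 * Real.pi) ^ 3 * 4 * ∫ t in T1..T2, ‖DDo lamC l X t‖ ^ 2 ≤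
      l ^ 2 / (2 * Real.pi) ^ 3 * 4 * ((T2 - T1 + 8 * X * (1 + Real.log X)) *
      (2 * Real.pi / l ^ 2 * (C * (1 + Real.log X) ^ 2))) :=
        mul_le_mul_of_nonneg_left h2 (by positivity)
    _ = 4 / (2 * Real.pi) ^ 2 *
        (C * (T2 - T1 + 8 * X * (1 + Real.log X)) * (1 + Real.log X) ^ 2) := h5
    _ ≤ 1 * (C * (T2 - T1 + 8 * X * (1 + Real.log X)) * (1 + Real.log X) ^ 2) := by
        apply mul_le_mul_of_nonneg_right
        · rw [div_le_one (by positivity)]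
          nlinarith [Real.pi_gt_three]
        · have : 0 ≤ T2 - T1 := by linarith
          positivity
    _ = _ := by ring

end Pool.Agent.W2helper93.NV
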