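import Pool.Agent.TH850.UV.DbMs
import Pool.Agent.TH850.UV.Kern
import Pool.Agent.TH850.UR.Maj

set_option autoImplicit false

/-!
# The number of ordinates in a window as a prime sum plus a small error: pointwise

`Nb(t + h) - Nb(t) = L h / 2π - Db(t) - (EE(t + h) - EE(t)) + small`.
-/

namespace Pool.Agent.W2helper93.NV

open Complex Filter Topology MeasureTheory Set
open Pool.Agent.TH850.UV
open H370 (zz hh mult Zf zset AA good_zeta mem_Zf)
open H370.A2 (lamC lamC_norm)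

/-- multiplicity -/
noncomputable def mm (s : ℂ) : ℝ := (mult riemannZeta s : ℝ)

lemma mm_nonneg (s : ℂ) : 0 ≤ mm s := Nat.cast_nonneg _

/-- scaled distance from the critical line -/
noncomputable def yy (l : ℝ) (s : ℂ) : ℝ := (s.re - 1 / 2) * (l / (2 * Real.pi))

/-- scaled difference of the heights -/
noncomputable def xx (l : ℝ) (s : ℂ) (t : ℝ) : ℝ := (t - s.im) * (l / (2 * Real.pi))

/-- the smoothed count minus the count -/
noncomputable def EE (l : ℝ) (S : Finset ℂ) (t : ℝ) : ℝ :=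
  ∑ s ∈ S, mm s * Jk (yy l s) (xx l s t)

/-- the number of zeros below `t` -/
noncomputable def Nb (S : Finset ℂ) (t : ℝ) : ℝ := ∑ s ∈ S, if s.im < t then mm s else 0

/-- weighted number of zeros near `t` -/
noncomputable def WW (l : ℝ) (S : Finset ℂ) (t : ℝ) : ℝ :=
  ∑ s ∈ S, mm s * (Real.exp (Real.pi * |yy l s|) / (1 + xx l s t ^ 2))

lemma WW_nonneg (l : ℝ) (S : Finset ℂ) (t : ℝ) : 0 ≤ WW l S t :=
  Finset.sum_nonneg fun s _ => mul_nonneg (mm_nonneg s) (by positivity)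

lemma WW_cont (l : ℝ) (S : Finset ℂ) : Continuous (WW l S) := by
  unfold WW
  refine continuous_finsetSum _ fun s _ => continuous_const.mul ?_
  refine continuous_const.div (by unfold xx; fun_prop) fun t => ?_
  positivity

lemma arg_eq (l : ℝ) (s : ℂ) (t : ℝ) :
    (zz s - t) * ((l / (2 * Real.pi) : ℝ) : ℂ) = -((xx l s t : ℂ) + (yy l s : ℂ) * I) := by
  have h : zz s = (s.im : ℂ) - (s.re - 1 / 2 : ℝ) * I := by
    apply Complex.ext
    · rw [H370.zz_re]; simp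
    · rw [H370.zz_im]; simp
  rw [h]
  unfold xx yy
  push_cast
  ring

/-- the real part of the kernel at a zero -/
lemma kC_re (l : ℝ) (s : ℂ) (t : ℝ) :
    (kC ((zz s - t) * ((l / (2 * Real.pi) : ℝ) : ℂ))).re = qk (yy l s) (xx l s t) := by
  rw [arg_eq, kC_neg]
  rfl

lemma xx_cont (l : ℝ) (s : ℂ) : Continuous (xx l s) := by
  unfold xx; fun_prop

lemma qk_xx_cont (l : ℝ) (s : ℂ) : Continuous fun t : ℝ => qk (yy l s) (xx l s t) :=
  (KernAux.cont_y (yy l s)).comp (xx_cont l s)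

/-- the sum of the kernels -/
noncomputable def K0 (l : ℝ) (S : Finset ℂ) (t : ℝ) : ℝ :=
  ∑ s ∈ S, mm s * qk (yy l s) (xx l s t)

lemma K0_cont (l : ℝ) (S : Finset ℂ) : Continuous (K0 l S) := by
  unfold K0
  exact continuous_finsetSum _ fun s _ => continuous_const.mul (qk_xx_cont l s)

lemma Qk_deriv (l : ℝ) (s : ℂ) (t : ℝ) :
    HasDerivAt (fun τ => Qk (yy l s) (xx l s τ)) (l / (2 * Real.pi) * qk (yy l s) (xx l s t)) t := by
  have hq : Continuous (qk (yy l s)) := KernAux.cont_y (yy l s)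
  have h1 : HasDerivAt (Qk (yy l s)) (qk (yy l s) (xx l s t)) (xx l s t) := by
    unfold Qk
    exact ((hq.integral_hasStrictDerivAt 0 (xx l s t)).hasDerivAt).const_add _
  have h2 : HasDerivAt (fun τ => xx l s τ) (l / (2 * Real.pi)) t := by
    unfold xx
    have := ((hasDerivAt_id' t).sub_const s.im).mul_const (l / (2 * Real.pi))
    simpa using this
  have h3 := h1.comp t h2
  rw [mul_comm]
  exact h3

lemma Qk_Jk {l : ℝ} (hl : 0 < l) (s : ℂ) (t : ℝ) :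
    Qk (yy l s) (xx l s t) = Jk (yy l s) (xx l s t) + if s.im < t then 1 else 0 := by
  unfold Jk
  have hc : 0 < l / (2 * Real.pi) := by positivity
  have h : (0 < xx l s t) ↔ s.im < t := by
    unfold xx
    rw [mul_pos_iff_of_pos_right hc, sub_pos]
  simp only [h]
  ring

lemma dens {l : ℝ} (hl : 0 < l) (S : Finset ℂ) (t t' : ℝ) :
    ∫ τ in t..t', l / (2 * Real.pi) * K0 l S τ = (Nb S t' - Nb S t) + (EE l S t' - EE l S t) := by
  have hc := K0_cont l S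
  have h1 : ∀ τ ∈ Set.uIcc t t', HasDerivAt (fun τ => ∑ s ∈ S, mm s * Qk (yy l s) (xx l s τ))
      (l / (2 * Real.pi) * K0 l S τ) τ := by
    intro τ _
    have h2 : HasDerivAt (fun τ => ∑ s ∈ S, mm s * Qk (yy l s) (xx l s τ))
        (∑ s ∈ S, mm s * (l / (2 * Real.pi) * qk (yy l s) (xx l s τ))) τ :=
      HasDerivAt.fun_sum fun s _ => (Qk_deriv l s τ).const_mul _
    refine h2.congr_deriv ?_
    unfold K0
    rw [Finset.mul_sum]
    exact Finset.sum_congr rfl fun s _ => by ring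
  rw [intervalIntegral.integral_eq_sub_of_hasDerivAt h1
    ((continuous_const.mul hc).intervalIntegrable _ _)]
  unfold Nb EE
  rw [← Finset.sum_sub_distrib, ← Finset.sum_sub_distrib, ← Finset.sum_sub_distrib,
    ← Finset.sum_add_distrib]
  refine Finset.sum_congr rfl fun s _ => ?_
  rw [Qk_Jk hl, Qk_Jk hl]
  split_ifs <;> ring

lemma gau_sub {v : ℂ} (hv : |v.im| ≤ 1 / 2) : ‖cexp (-v ^ 2 / 2) - 1‖ ≤ 12 * ‖v‖ ^ 2 := by
  by_cases h : |v.re| ≤ 1 / 2
  · have := Pool.Agent.TH850.UR.gau_near hv h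
    rw [norm_sub_rev]
    have h2 := sq_nonneg ‖v‖
    linarith
  · push Not at h
    have h1 := Pool.Agent.TH850.UR.gau_le hv
    have h2 : |v.re| ≤ ‖v‖ := Complex.abs_re_le_norm v
    have h3 : 1 / 2 ≤ ‖v‖ := h.le.trans h2
    have h4 : 1 / 4 ≤ ‖v‖ ^ 2 := by nlinarith
    calc ‖cexp (-v ^ 2 / 2) - 1‖ ≤ ‖cexp (-v ^ 2 / 2)‖ + ‖(1 : ℂ)‖ := norm_sub_le _ _
      _ ≤ 2 + 1 := by rw [norm_one]; linarith
      _ ≤ _ := by linarith

/-- removing the Gaussian -/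
lemma gau_corr : ∃ C : ℝ, 0 < C ∧ ∀ (l : ℝ) (S : Finset ℂ), 0 < l →
    (∀ s ∈ S, |s.re - 1 / 2| ≤ 1 / 2) → ∀ t : ℝ,
    |(∑ s ∈ S, (mult riemannZeta s : ℂ) * cexp (-(zz s - t) ^ 2 / 2) *
      kC ((zz s - t) * (l / (2 * Real.pi) : ℝ))).re - K0 l S t| ≤ C / l ^ 2 * WW l S t := by
  obtain ⟨C, hC, hk⟩ := kC_decay
  refine ⟨12 * (2 * Real.pi) ^ 2 * C, by positivity, fun l S hl hS t => ?_⟩
  have hpi := Real.pi_pos
  have e1 : (∑ s ∈ S, (mult riemannZeta s : ℂ) * cexp (-(zz s - t) ^ 2 / 2) *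
      kC ((zz s - t) * (l / (2 * Real.pi) : ℝ))).re - K0 l S t =
      (∑ s ∈ S, (mult riemannZeta s : ℂ) * ((cexp (-(zz s - t) ^ 2 / 2) - 1) *
      kC ((zz s - t) * (l / (2 * Real.pi) : ℝ)))).re := by
    have e2 : K0 l S t = (∑ s ∈ S, (mult riemannZeta s : ℂ) *
        kC ((zz s - t) * (l / (2 * Real.pi) : ℝ))).re := by
      unfold K0
      rw [Complex.re_sum]
      refine Finset.sum_congr rfl fun s _ => ?_
      rw [← kC_re, ← Complex.ofReal_natCast, Complex.re_ofReal_mul]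
      rfl
    rw [e2, ← Complex.sub_re, ← Finset.sum_sub_distrib]
    congr 1
    exact Finset.sum_congr rfl fun s _ => by ring
  rw [e1]
  refine (Complex.abs_re_le_norm _).trans ((norm_sum_le _ _).trans ?_)
  unfold WW
  rw [Finset.mul_sum]
  refine Finset.sum_le_sum fun s hs => ?_
  have him : |(zz s - t).im| ≤ 1 / 2 := by
    rw [Complex.sub_im, H370.zz_im, Complex.ofReal_im, sub_zero, abs_neg]
    exact hS s hs
  set v : ℂ := zz s - t with hv
  set w : ℂ := v * (l / (2 * Real.pi) : ℝ) with hw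
  have h1 := gau_sub him
  have h2 := hk w
  have hwn : ‖w‖ ^ 2 = ‖v‖ ^ 2 * (l / (2 * Real.pi)) ^ 2 := by
    rw [hw, norm_mul, Complex.norm_real, Real.norm_of_nonneg (by positivity), mul_pow]
  have hwx : w = -((xx l s t : ℂ) + (yy l s : ℂ) * I) := arg_eq l s t
  have hwi : |w.im| = |yy l s| := by
    rw [hwx]; simp
  have hw2 : ‖w‖ ^ 2 = xx l s t ^ 2 + yy l s ^ 2 := by
    rw [hwx, norm_neg, Complex.sq_norm, Complex.normSq_apply]
    simp
    ring
  rw [hwi] at h2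
  have hm : ‖(mult riemannZeta s : ℂ)‖ = mm s := by
    rw [Complex.norm_natCast]; rfl
  rw [norm_mul, norm_mul, hm]
  have hvn : ‖v‖ ^ 2 = (2 * Real.pi) ^ 2 / l ^ 2 * ‖w‖ ^ 2 := by
    rw [hwn]; field_simp
  have h3 : ‖cexp (-v ^ 2 / 2) - 1‖ * ‖kC w‖ ≤
      12 * (2 * Real.pi) ^ 2 * C / l ^ 2 * (Real.exp (Real.pi * |yy l s|) / (1 + xx l s t ^ 2)) := by
    have h4 : ‖kC w‖ ≤ C * Real.exp (Real.pi * |yy l s|) / (1 + ‖w‖ ^ 2) ^ 2 := by
      rw [le_div_iff₀ (by positivity)]; exact h2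
    have h5 : ‖w‖ ^ 2 / (1 + ‖w‖ ^ 2) ^ 2 ≤ 1 / (1 + xx l s t ^ 2) := by
      rw [div_le_div_iff₀ (by positivity) (by positivity)]
      have : xx l s t ^ 2 ≤ ‖w‖ ^ 2 := by rw [hw2]; nlinarith [sq_nonneg (yy l s)]
      nlinarith [sq_nonneg ‖w‖, sq_nonneg (xx l s t)]
    calc ‖cexp (-v ^ 2 / 2) - 1‖ * ‖kC w‖ ≤ (12 * ‖v‖ ^ 2) *
          (C * Real.exp (Real.pi * |yy l s|) / (1 + ‖w‖ ^ 2) ^ 2) :=
          mul_le_mul h1 h4 (norm_nonneg _) (by positivity)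
      _ = 12 * (2 * Real.pi) ^ 2 * C / l ^ 2 * (Real.exp (Real.pi * |yy l s|) *
          (‖w‖ ^ 2 / (1 + ‖w‖ ^ 2) ^ 2)) := by rw [hvn]; ring
      _ ≤ 12 * (2 * Real.pi) ^ 2 * C / l ^ 2 * (Real.exp (Real.pi * |yy l s|) *
          (1 / (1 + xx l s t ^ 2))) := by gcongr
      _ = _ := by ring
  calc mm s * (‖cexp (-v ^ 2 / 2) - 1‖ * ‖kC w‖) ≤ mm s *
      (12 * (2 * Real.pi) ^ 2 * C / l ^ 2 *
        (Real.exp (Real.pi * |yy l s|) / (1 + xx l s t ^ 2))) :=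
        mul_le_mul_of_nonneg_left h3 (mm_nonneg s)
    _ = _ := by ring

end Pool.Agent.W2helper93.NV
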