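import Pool.Agent.W2helper93.NV.Dec

set_option autoImplicit false

/-! # The number of ordinates in a window: the explicit formula -/

namespace Pool.Agent.W2helper93.NV

open Complex Filter Topology MeasureTheory Set
open Pool.Agent.TH850.UV
open H370 (zz hh mult Zf zset AA good_zeta mem_Zf)
open H370.A2 (lamC lamC_norm)

theorem dec {lam : ℝ} (hlam : 16 ≤ lam) : ∃ C T0 : ℝ, 0 < C ∧ 10 ≤ T0 ∧ ∀ T : ℝ, T0 ≤ T →
    ∃ U1 U2 : ℝ, T ≤ U1 ∧ U1 ≤ T + 1 ∧ 2 * T - 1 ≤ U2 ∧ U2 ≤ 2 * T ∧
      ∀ h : ℝ, 0 ≤ h → h ≤ 7 → ∀ t : ℝ, T + Real.log T ≤ t → t ≤ 2 * T - Real.log T - 7 →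
        |(Nb (Zf riemannZeta U1 U2) (t + h) - Nb (Zf riemannZeta U1 U2) t) -
          Real.log T / (2 * Real.pi) * h + Db (Real.log T / lam) h (XT T) t +
          (EE (Real.log T / lam) (Zf riemannZeta U1 U2) (t + h) -
            EE (Real.log T / lam) (Zf riemannZeta U1 U2) t)| ≤
        C * h + C / Real.log T * ∫ τ in t..(t + h), WW (Real.log T / lam) (Zf riemannZeta U1 U2) τ := by
  obtain ⟨C1, T1, hC1, hT1, hA⟩ := Ac_est hlam
  obtain ⟨C2, hC2, hG⟩ := gau_corr
  have hpi := Real.pi_pos
  have hlam0 : 0 < lam := by linarith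
  refine ⟨C1 + C2 * lam, T1, by positivity, hT1, fun T hT => ?_⟩
  obtain ⟨U1, U2, hU1, hU1', hU2, hU2', hK⟩ := hA T hT
  refine ⟨U1, U2, hU1, hU1', hU2, hU2', fun h hh0 hh7 t ht1 ht2 => ?_⟩
  have hT10 : 10 ≤ T := hT1.trans hT
  have hU : 1 ≤ U1 := by linarith
  set L := Real.log T with hL
  have hL0 : 0 < L := Real.log_pos (by linarith)
  set l := L / lam with hl
  have hl0 : 0 < l := by positivity
  set S := Zf riemannZeta U1 U2 with hS
  set X := XT T with hX
  have hSre : ∀ s ∈ S, |s.re - 1 / 2| ≤ 1 / 2 := by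
    intro s hs
    rw [hS, mem_Zf good_zeta hU] at hs
    have h1 := hs.1
    have h2 := hs.2.1
    rw [abs_le]
    constructor <;> linarith
  set K : ℝ → ℝ := fun τ => 2 * (HTo l U1 U2 τ).re with hKdef
  have hKc : Continuous K := HTo_re_cont l hU
  have hK0c := K0_cont l S
  have hWc := WW_cont l S
  have hDc := DDo_cont lamC l X
  set c0 : ℝ := 1 / Real.sqrt (2 * Real.pi) with hc0
  have hKs : ∀ τ, |K τ - K0 l S τ| ≤ C2 / l ^ 2 * WW l S τ := by
    intro τ
    have h1 := hG l S hl0 hSre τ
    have h2 := fullo (U2 := U2) l hU τ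
    have h3 : (∑ s ∈ S, (mult riemannZeta s : ℂ) * cexp (-(zz s - τ) ^ 2 / 2) *
      kC ((zz s - τ) * (l / (2 * Real.pi) : ℝ))).re = K τ := by
      rw [hS, h2, Complex.ofReal_re]
    rw [h3] at h1
    exact h1
  have hM : ∀ τ ∈ Set.Icc t (t + h), |K τ - (lam - 2 * c0 * (DDo lamC l X τ).re)| ≤ C1 / L := by
    intro τ hτ
    exact hK τ (by linarith [hτ.1]) (by linarith [hτ.2])
  have hd := dens hl0 S t (t + h)
  have hDb := Db_eq l h X t
  have hle : t ≤ t + h := by linarith
  set M : ℝ → ℝ := fun τ => lam - 2 * c0 * (DDo lamC l X τ).re with hMdef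
  have hMc : Continuous M := by
    simp only [hMdef]
    exact continuous_const.sub (continuous_const.mul (Complex.continuous_re.comp hDc))
  have e1 : (Nb S (t + h) - Nb S t) - L / (2 * Real.pi) * h + Db l h X t +
      (EE l S (t + h) - EE l S t) = ∫ τ in t..(t + h), l / (2 * Real.pi) * (K0 l S τ - M τ) := by
    have e2 : ∫ τ in t..(t + h), l / (2 * Real.pi) * M τ =
        L / (2 * Real.pi) * h - Db l h X t := by
      rw [hDb]
      have e3 : ∫ τ in t..(t + h), l / (2 * Real.pi) * M τ =
          (∫ τ in t..(t + h), l / (2 * Real.pi) * lam) -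
          ∫ τ in t..(t + h), l / (2 * Real.pi) * (2 * c0 * (DDo lamC l X τ).re) := by
        rw [← intervalIntegral.integral_sub]
        · refine intervalIntegral.integral_congr fun τ _ => ?_
          simp only [hMdef]
          ring
        · exact continuous_const.intervalIntegrable _ _
        · exact (continuous_const.mul (continuous_const.mul
            (Complex.continuous_re.comp hDc))).intervalIntegrable _ _
      rw [e3, intervalIntegral.integral_const, smul_eq_mul]
      have e4 : (t + h - t) * (l / (2 * Real.pi) * lam) = L / (2 * Real.pi) * h := by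
        have : l * lam = L := by rw [hl]; field_simp
        rw [← this]; ring
      rw [e4]
    have e5 : ∫ τ in t..(t + h), l / (2 * Real.pi) * (K0 l S τ - M τ) =
        (∫ τ in t..(t + h), l / (2 * Real.pi) * K0 l S τ) -
        ∫ τ in t..(t + h), l / (2 * Real.pi) * M τ := by
      rw [← intervalIntegral.integral_sub]
      · refine intervalIntegral.integral_congr fun τ _ => ?_
        ring
      · exact (continuous_const.mul hK0c).intervalIntegrable _ _
      · exact (continuous_const.mul hMc).intervalIntegrable _ _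
    rw [e5, e2, hd]
    ring
  rw [e1]
  have hb : ∀ τ ∈ Set.Icc t (t + h), |l / (2 * Real.pi) * (K0 l S τ - M τ)| ≤
      C1 + C2 * lam / L * WW l S τ := by
    intro τ hτ
    have h1 := hKs τ
    have h2 := hM τ hτ
    have hw := WW_nonneg l S τ
    have h3 : |K0 l S τ - M τ| ≤ C2 / l ^ 2 * WW l S τ + C1 / L := by
      have : K0 l S τ - M τ = -(K τ - K0 l S τ) + (K τ - M τ) := by ring
      rw [this]
      refine (abs_add_le _ _).trans (add_le_add ?_ h2)
      rw [abs_neg]; exact h1
    rw [abs_mul, abs_of_pos (by positivity : 0 < l / (2 * Real.pi))]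
    have h2pi : 1 ≤ 2 * Real.pi := by linarith [Real.pi_gt_three]
    have hlL : l ≤ L := by
      rw [hl]; exact div_le_self hL0.le (by linarith)
    calc l / (2 * Real.pi) * |K0 l S τ - M τ| ≤ l / 1 * (C2 / l ^ 2 * WW l S τ + C1 / L) := by
          gcongr
      _ = C1 * (l / L) + C2 / l * WW l S τ := by field_simp; ring
      _ ≤ C1 * 1 + C2 / l * WW l S τ := by
          gcongr
          rw [div_le_one hL0]; exact hlL
      _ = C1 + C2 * lam / L * WW l S τ := by
          rw [hl, mul_one]; field_simp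
  have h1 : |∫ τ in t..(t + h), l / (2 * Real.pi) * (K0 l S τ - M τ)| ≤
      ∫ τ in t..(t + h), |l / (2 * Real.pi) * (K0 l S τ - M τ)| :=
    intervalIntegral.abs_integral_le_integral_abs hle
  refine h1.trans ?_
  have h2 : ∫ τ in t..(t + h), |l / (2 * Real.pi) * (K0 l S τ - M τ)| ≤
      ∫ τ in t..(t + h), (C1 + C2 * lam / L * WW l S τ) := by
    refine intervalIntegral.integral_mono_on hle ?_ ?_ hb
    · exact (continuous_const.mul (hK0c.sub hMc)).abs.intervalIntegrable _ _
    · exact (continuous_const.add (continuous_const.mul hWc)).intervalIntegrable _ _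
  refine h2.trans ?_
  have e6 : ∫ τ in t..(t + h), (C1 + C2 * lam / L * WW l S τ) =
      h * C1 + C2 * lam / L * ∫ τ in t..(t + h), WW l S τ := by
    have i1 : IntervalIntegrable (fun _ : ℝ => C1) volume t (t + h) :=
      continuous_const.intervalIntegrable _ _
    have i2 : IntervalIntegrable (fun τ : ℝ => C2 * lam / L * WW l S τ) volume t (t + h) :=
      (continuous_const.mul hWc).intervalIntegrable _ _
    rw [intervalIntegral.integral_add i1 i2, intervalIntegral.integral_const,
      intervalIntegral.integral_const_mul, smul_eq_mul]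
    ring
  rw [e6]
  have hI : 0 ≤ ∫ τ in t..(t + h), WW l S τ :=
    intervalIntegral.integral_nonneg hle fun τ _ => WW_nonneg l S τ
  have h3 : 0 ≤ C2 * lam * h := by positivity
  have h4 : C2 * lam / L * (∫ τ in t..(t + h), WW l S τ) ≤
      (C1 + C2 * lam) / L * ∫ τ in t..(t + h), WW l S τ := by
    gcongr
    linarith
  nlinarith

end Pool.Agent.W2helper93.NV
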