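import Pool.Agent.W2helper93.NV.Glob
import Pool.Agent.W2helper93.NV.Star

set_option autoImplicit false

/-! # The pair counts of the zeros up to `T` -/

namespace Pool.Agent.W2helper93.NV

open Complex Filter Topology MeasureTheory Set
open H370 (zz hh mult Zf zset AA good_zeta mem_Zf NN NN_add NN_mono zcount nn_asymp finsum_Zf)

lemma succ_log {a L : ℝ} (ha : 16 ≤ a) (h : a * Real.log a ≤ L / 2) :
    (a + 1) * Real.log (a + 1) ≤ L := by
  have ha0 : 0 < a := by linarith
  have hlog1 : 1 ≤ Real.log a := by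
    rw [Real.le_log_iff_exp_le ha0]
    have := Real.exp_one_lt_d9
    linarith
  have h1 : Real.log (a + 1) ≤ Real.log a + 1 / a := by
    have e : a + 1 = a * (1 + 1 / a) := by field_simp
    rw [e, Real.log_mul ha0.ne' (by positivity)]
    have := Real.log_le_sub_one_of_pos (by positivity : 0 < 1 + 1 / a)
    linarith
  have h2 : (a + 1) * Real.log (a + 1) ≤ (a + 1) * (Real.log a + 1 / a) :=
    mul_le_mul_of_nonneg_left h1 (by linarith)
  have h3 : (a + 1) * (Real.log a + 1 / a) = a * Real.log a + Real.log a + 1 + 1 / a := by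
    field_simp
    ring
  have h4 : 1 / a ≤ 1 := by rw [div_le_one ha0]; linarith
  have h5 : 15 * 1 ≤ (a - 1) * Real.log a := mul_le_mul (by linarith) hlog1 zero_le_one (by linarith)
  have h6 : (a - 1) * Real.log a = a * Real.log a - Real.log a := by ring
  linarith

theorem fin {lam : ℝ} (hlam : 16 ≤ lam) (hW : WMom lam) : ∃ C T0 : ℝ, 0 < C ∧ 10 ≤ T0 ∧
    ∀ T : ℝ, T0 ≤ T → EQ (Zf riemannZeta 1 T) ≤ C * (T * Real.log T) ∧
      (∀ a : ℝ, 0 < a → a * Real.log a ≤ Real.log T / 2 →
        |RR (Zf riemannZeta 1 T) (2 * Real.pi * a / Real.log T) - T * Real.log T * (a / (2 * Real.pi))| ≤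
          C * (T * Real.log T)) ∧
      (∀ α β : ℝ, 2 * lam ≤ α → α ≤ β → β * Real.log β ≤ Real.log T →
        |(∫ a in α..β, RR (Zf riemannZeta 1 T) (2 * Real.pi * a / Real.log T)) -
          (T * Real.log T / (4 * Real.pi) * (β ^ 2 - α ^ 2) +
            T * Real.log T / (4 * Real.pi ^ 3) * (Real.log β - Real.log α) -
            EQ (Zf riemannZeta 1 T) / 2 * (β - α))| ≤ C * T * (Real.log T + (β ^ 2 - α ^ 2))) := by
  obtain ⟨C, T1, hC, hT1, hglob⟩ := glob hlam hW
  have hpi := Real.pi_gt_three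
  have hpi0 := Real.pi_pos
  have hpi4 := Real.pi_lt_four
  set A0 : ℝ := 2 * lam with hA0
  have hA32 : 32 ≤ A0 := by rw [hA0]; linarith
  have ev : ∀ᶠ T : ℝ in atTop, 2 * ((A0 + 2) * Real.log (A0 + 2)) ≤ Real.log T :=
    Real.tendsto_log_atTop.eventually_ge_atTop _
  obtain ⟨T2, hT2⟩ := ev.exists_forall_of_atTop
  set D : ℝ := 1 + 4 * Real.pi ^ 2 * C with hD
  have hD0 : 0 < D := by positivity
  set E1 : ℝ := D * (2 * A0 + 1) + 1 + 2 * C with hE1
  have hE10 : 0 < E1 := by positivity
  set E2 : ℝ := 2 + 2 * C + 12 * Real.pi ^ 2 * C + E1 with hE2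
  have hE20 : 0 < E2 := by positivity
  refine ⟨E1 + 2 * E2 + (A0 + 1) + 4 * C, max T1 T2, by positivity,
    hT1.trans (le_max_left _ _), fun T hT => ?_⟩
  obtain ⟨κ, hκ, hPS⟩ := hglob T ((le_max_left _ _).trans hT)
  have hTA := hT2 T ((le_max_right _ _).trans hT)
  have hT10 : 10 ≤ T := hT1.trans ((le_max_left _ _).trans hT)
  have hT0 : 0 < T := by linarith
  set L := Real.log T with hL
  have hL1 : 1 ≤ L := by
    rw [hL, Real.le_log_iff_exp_le hT0]
    have := Real.exp_one_lt_d9
    linarith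
  have hL0 : 0 < L := by linarith
  have hTL : 0 < T * L := by positivity
  set S := Zf riemannZeta 1 T with hS
  set c : ℝ := 2 * Real.pi / L with hc
  have hc0 : 0 < c := by positivity
  have hca : ∀ a : ℝ, 2 * Real.pi * a / L = c * a := by intro a; rw [hc]; ring
  simp only [hca] at hPS ⊢
  set μ : ℝ := κ * c ^ 2 with hμ
  have hμT : |μ - T| ≤ 4 * Real.pi ^ 2 * C * (T / L) := by
    have e : μ - T = c ^ 2 * (κ - T * L ^ 2 / (4 * Real.pi ^ 2)) := by
      rw [hμ, hc]; field_simp; ring
    rw [e, abs_mul, abs_of_pos (by positivity : 0 < c ^ 2)]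
    calc c ^ 2 * |κ - T * L ^ 2 / (4 * Real.pi ^ 2)| ≤ c ^ 2 * (C * T * L) :=
          mul_le_mul_of_nonneg_left hκ (by positivity)
      _ = _ := by rw [hc]; field_simp; ring
  have hTL1 : T / L ≤ T := div_le_self hT0.le hL1
  have hμD : μ ≤ D * T := by
    have h1 := (abs_le.1 hμT).2
    have h2 : 4 * Real.pi ^ 2 * C * (T / L) ≤ 4 * Real.pi ^ 2 * C * T :=
      mul_le_mul_of_nonneg_left hTL1 (by positivity)
    rw [hD]
    linarith
  have hPS' : ∀ a, A0 ≤ a → a * Real.log a ≤ L →
      |PSum S (c * a) - (μ * a ^ 2 + T / Real.pi ^ 2 * Real.log a)| ≤ C * T := by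
    intro a ha haL
    have := hPS a ha haL
    have e : κ * (c * a) ^ 2 = μ * a ^ 2 := by rw [hμ]; ring
    rwa [e] at this
  have hTpi : T / Real.pi ^ 2 ≤ T := div_le_self hT0.le (by nlinarith only [hpi])
  have hTpi0 : 0 < T / Real.pi ^ 2 := by positivity
  -- differences
  have hdiff : ∀ a, A0 ≤ a → (a + 1) * Real.log (a + 1) ≤ L →
      |(PSum S (c * (a + 1)) - PSum S (c * a)) - μ * (2 * a + 1)| ≤ (1 + 2 * C) * T := by
    intro a ha haL
    have ha0 : 0 < a := by linarith
    have hmono : a * Real.log a ≤ (a + 1) * Real.log (a + 1) := by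
      apply mul_le_mul (by linarith) (Real.log_le_log ha0 (by linarith))
        (Real.log_nonneg (by linarith)) (by linarith)
    have h1 := hPS' a ha (hmono.trans haL)
    have h2 := hPS' (a + 1) (by linarith) haL
    have h3 : 0 ≤ Real.log (a + 1) - Real.log a := by
      have := Real.log_le_log ha0 (by linarith : a ≤ a + 1)
      linarith
    have h4 : Real.log (a + 1) - Real.log a ≤ 1 := by
      have e : a + 1 = a * (1 + 1 / a) := by field_simp
      rw [e, Real.log_mul ha0.ne' (by positivity)]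
      have h5 := Real.log_le_sub_one_of_pos (by positivity : 0 < 1 + 1 / a)
      have h6 : 1 / a ≤ 1 := by rw [div_le_one ha0]; linarith
      linarith
    have h5 : 0 ≤ T / Real.pi ^ 2 * (Real.log (a + 1) - Real.log a) := mul_nonneg hTpi0.le h3
    have h6 : T / Real.pi ^ 2 * (Real.log (a + 1) - Real.log a) ≤ T * 1 :=
      mul_le_mul hTpi h4 h3 hT0.le
    have e1 : μ * (a + 1) ^ 2 = μ * a ^ 2 + μ * (2 * a + 1) := by ring
    rw [e1] at h2
    rw [abs_le] at h1 h2 ⊢
    constructor <;> linarith [h1.1, h1.2, h2.1, h2.2]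
  have hup : ∀ a, A0 ≤ a → (a + 1) * Real.log (a + 1) ≤ L →
      c * (EQ S + 2 * RR S (c * a)) ≤ μ * (2 * a + 1) + (1 + 2 * C) * T := by
    intro a ha haL
    have h1 := (PSum_diff S (h := c * a) (h' := c * (a + 1)) (by have : 0 < a := by linarith
                                                                 positivity)
      (mul_le_mul_of_nonneg_left (by linarith) hc0.le)).1
    have h2 := (abs_le.1 (hdiff a ha haL)).2
    have e : c * (a + 1) - c * a = c := by ring
    rw [e] at h1
    linarith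
  have hlow : ∀ a, A0 ≤ a → (a + 1) * Real.log (a + 1) ≤ L →
      μ * (2 * a + 1) - (1 + 2 * C) * T ≤ c * (EQ S + 2 * RR S (c * (a + 1))) := by
    intro a ha haL
    have h1 := (PSum_diff S (h := c * a) (h' := c * (a + 1)) (by have : 0 < a := by linarith
                                                                 positivity)
      (mul_le_mul_of_nonneg_left (by linarith) hc0.le)).2
    have h2 := (abs_le.1 (hdiff a ha haL)).1
    have e : c * (a + 1) - c * a = c := by ring
    rw [e] at h1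
    linarith
  have hEQ0 := EQ_nonneg S
  have hA0L : (A0 + 1) * Real.log (A0 + 1) ≤ L / 2 := by
    have h1 : (A0 + 1) * Real.log (A0 + 1) ≤ (A0 + 2) * Real.log (A0 + 2) :=
      mul_le_mul (by linarith) (Real.log_le_log (by linarith) (by linarith))
        (Real.log_nonneg (by linarith)) (by linarith)
    linarith
  -- the equal heights
  have hcEQ : c * EQ S ≤ E1 * T := by
    have h1 := hup A0 le_rfl (by linarith)
    have h2 := RR_nonneg S (c * A0)
    have h3 : c * EQ S ≤ c * (EQ S + 2 * RR S (c * A0)) :=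
      mul_le_mul_of_nonneg_left (by linarith) hc0.le
    have h4 : μ * (2 * A0 + 1) ≤ D * T * (2 * A0 + 1) :=
      mul_le_mul_of_nonneg_right hμD (by linarith)
    rw [hE1]
    linarith
  have hcinv : ∀ x, x = L / (2 * Real.pi) * (c * x) := by
    intro x; rw [hc]; field_simp
  have h2pi : L / (2 * Real.pi) ≤ L := div_le_self hL0.le (by linarith)
  have h2pi0 : 0 < L / (2 * Real.pi) := by positivity
  have hEQ : EQ S ≤ E1 * (T * L) := by
    rw [hcinv (EQ S)]
    calc L / (2 * Real.pi) * (c * EQ S) ≤ L * (E1 * T) :=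
          mul_le_mul h2pi hcEQ (by positivity) hL0.le
      _ = _ := by ring
  -- pointwise
  have hpt : ∀ a, A0 + 1 ≤ a → a * Real.log a ≤ L / 2 →
      |RR S (c * a) - T * L * (a / (2 * Real.pi))| ≤ E2 * (T * L) := by
    intro a ha haL
    have ha0 : 0 < a := by linarith
    have hlog1 : 1 ≤ Real.log a := by
      rw [Real.le_log_iff_exp_le ha0]
      have := Real.exp_one_lt_d9
      linarith
    have haLL : a ≤ L := by
      have : a * 1 ≤ a * Real.log a := mul_le_mul_of_nonneg_left hlog1 ha0.le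
      linarith
    have ha1L := succ_log (by linarith : 16 ≤ a) haL
    have k1 := hup a (by linarith) ha1L
    have k2 := hlow (a - 1) (by linarith) (by
      rw [sub_add_cancel]; linarith)
    rw [sub_add_cancel] at k2
    have hTa : T / L * a ≤ T := by
      rw [div_mul_eq_mul_div, div_le_iff₀ hL0]
      exact mul_le_mul_of_nonneg_left haLL hT0.le
    have hdev : |(μ - T) * a| ≤ 4 * Real.pi ^ 2 * C * T := by
      rw [abs_mul, abs_of_pos ha0]
      calc |μ - T| * a ≤ 4 * Real.pi ^ 2 * C * (T / L) * a :=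
            mul_le_mul_of_nonneg_right hμT ha0.le
        _ = 4 * Real.pi ^ 2 * C * (T / L * a) := by ring
        _ ≤ _ := mul_le_mul_of_nonneg_left hTa (by positivity)
    have hdev1 : |μ - T| ≤ 4 * Real.pi ^ 2 * C * T :=
      hμT.trans (mul_le_mul_of_nonneg_left hTL1 (by positivity))
    rw [abs_le] at hdev hdev1
    have e1 : RR S (c * a) - T * L * (a / (2 * Real.pi)) =
        L / (2 * Real.pi) * (c * RR S (c * a) - T * a) := by
      rw [hc]; field_simp
    have h5 : |c * RR S (c * a) - T * a| ≤ E2 * T := by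
      rw [hE2, abs_le]
      have k3 : 0 ≤ c * EQ S := mul_nonneg hc0.le hEQ0
      have e5 : μ * (2 * a + 1) = 2 * ((μ - T) * a) + (μ - T) + 2 * (T * a) + T := by ring
      have e6 : μ * (2 * (a - 1) + 1) = 2 * ((μ - T) * a) - (μ - T) + 2 * (T * a) - T := by ring
      rw [e5] at k1
      rw [e6] at k2
      constructor
      · linarith [hdev.1, hdev.2, hdev1.1, hdev1.2]
      · linarith [hdev.1, hdev.2, hdev1.1, hdev1.2]
    rw [e1, abs_mul, abs_of_pos h2pi0]
    calc L / (2 * Real.pi) * |c * RR S (c * a) - T * a| ≤ L * (E2 * T) :=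
          mul_le_mul h2pi h5 (abs_nonneg _) hL0.le
      _ = _ := by ring
  refine ⟨?_, ?_, ?_⟩
  · have : 0 ≤ (2 * E2 + (A0 + 1) + 4 * C) * (T * L) := by positivity
    linarith
  · intro a ha haL
    rcases le_or_gt (A0 + 1) a with h1 | h1
    · refine (hpt a h1 haL).trans ?_
      have : 0 ≤ (E1 + E2 + (A0 + 1) + 4 * C) * (T * L) := by positivity
      linarith
    · have h2 := hpt (A0 + 1) le_rfl hA0L
      have h3 := RR_mono S (mul_le_mul_of_nonneg_left h1.le hc0.le : c * a ≤ c * (A0 + 1))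
      have h4 := RR_nonneg S (c * a)
      have h5 : T * L * (a / (2 * Real.pi)) ≤ T * L * (A0 + 1) := by
        apply mul_le_mul_of_nonneg_left _ hTL.le
        rw [div_le_iff₀ (by positivity)]
        nlinarith only [hpi, h1, hA32, ha]
      have h6 : T * L * ((A0 + 1) / (2 * Real.pi)) ≤ T * L * (A0 + 1) := by
        apply mul_le_mul_of_nonneg_left _ hTL.le
        rw [div_le_iff₀ (by positivity)]
        nlinarith only [hpi, hA32]
      have h7 : 0 ≤ T * L * (a / (2 * Real.pi)) := by positivity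
      have h8 := (abs_le.1 h2).2
      have h9 : 0 ≤ (E1 + E2 + 4 * C) * (T * L) := by positivity
      have h10 : 0 ≤ E2 * (T * L) := by positivity
      rw [abs_le]
      have h11 : 0 ≤ T * L * (A0 + 1) := by positivity
      constructor <;> linarith
  · intro α β hα hαβ hβ
    have hα0 : 0 < α := by linarith
    have hβ0 : 0 < β := by linarith
    have hαL : α * Real.log α ≤ L := by
      refine le_trans ?_ hβ
      exact mul_le_mul hαβ (Real.log_le_log hα0 hαβ) (Real.log_nonneg (by linarith)) hβ0.le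
    have k1 := hPS' α hα hαL
    have k2 := hPS' β (hα.trans hαβ) hβ
    rw [RR_int S hc0 hαβ]
    have q1 := PSum_eq S (h := c * α) (by positivity)
    have q2 := PSum_eq S (h := c * β) (by positivity)
    have e1 : (QQ S (c * β) - QQ S (c * α)) / c =
        L / (4 * Real.pi) * (PSum S (c * β) - PSum S (c * α)) - EQ S / 2 * (β - α) := by
      rw [q1, q2, hc]
      field_simp
      ring
    have hsq : 0 ≤ β ^ 2 - α ^ 2 := by nlinarith only [hαβ, hα0]
    have e2 : (QQ S (c * β) - QQ S (c * α)) / c -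
        (T * L / (4 * Real.pi) * (β ^ 2 - α ^ 2) +
          T * L / (4 * Real.pi ^ 3) * (Real.log β - Real.log α) - EQ S / 2 * (β - α)) =
        L / (4 * Real.pi) * (((PSum S (c * β) - (μ * β ^ 2 + T / Real.pi ^ 2 * Real.log β)) -
          (PSum S (c * α) - (μ * α ^ 2 + T / Real.pi ^ 2 * Real.log α))) +
          (μ - T) * (β ^ 2 - α ^ 2)) := by
      rw [e1]
      field_simp
      ring
    rw [e2, abs_mul, abs_of_pos (by positivity : 0 < L / (4 * Real.pi))]
    have h3 : |((PSum S (c * β) - (μ * β ^ 2 + T / Real.pi ^ 2 * Real.log β)) -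
          (PSum S (c * α) - (μ * α ^ 2 + T / Real.pi ^ 2 * Real.log α))) +
          (μ - T) * (β ^ 2 - α ^ 2)| ≤ 2 * C * T + 4 * Real.pi ^ 2 * C * (T / L) * (β ^ 2 - α ^ 2) := by
      refine (abs_add_le _ _).trans (add_le_add ((abs_sub _ _).trans (by linarith)) ?_)
      rw [abs_mul, abs_of_nonneg hsq]
      exact mul_le_mul_of_nonneg_right hμT hsq
    refine (mul_le_mul_of_nonneg_left h3 (by positivity)).trans ?_
    have e3 : L / (4 * Real.pi) * (2 * C * T + 4 * Real.pi ^ 2 * C * (T / L) * (β ^ 2 - α ^ 2)) =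
        C * T * (L / (2 * Real.pi)) + Real.pi * C * T * (β ^ 2 - α ^ 2) := by
      field_simp
      ring
    rw [e3]
    have h4 : C * T * (L / (2 * Real.pi)) ≤ C * T * L := mul_le_mul_of_nonneg_left h2pi (by positivity)
    have h5 : Real.pi * C * T * (β ^ 2 - α ^ 2) ≤ 4 * C * T * (β ^ 2 - α ^ 2) := by
      have h6 : 0 ≤ C * T * (β ^ 2 - α ^ 2) := by positivity
      have h6' := mul_le_mul_of_nonneg_right hpi4.le h6
      linarith
    have h7 : 0 ≤ (E1 + 2 * E2 + (A0 + 1)) * T * (L + (β ^ 2 - α ^ 2)) := by positivity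
    have h8 : 0 ≤ C * T * L := by positivity
    linarith

end Pool.Agent.W2helper93.NV
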