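import Pool.Agent.W2helper93.NV.Block

set_option autoImplicit false

/-! # Dyadic summation -/

namespace Pool.Agent.W2helper93.NV

open Complex Filter Topology MeasureTheory Set
open H370 (zz hh mult Zf zset AA good_zeta mem_Zf NN NN_add NN_mono zcount nn_asymp finsum_Zf)

lemma dy_sum0 (T : ℝ) (J : ℕ) : ∑ j ∈ Finset.range J, T / 2 ^ (j + 1) = T - T / 2 ^ J := by
  induction J with
  | zero => simp
  | succ n ih =>
    rw [Finset.sum_range_succ, ih, pow_succ]
    field_simp
    ring

lemma dy_sum1 {T : ℝ} (hT : 0 ≤ T) (J : ℕ) :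
    ∑ j ∈ Finset.range J, (j + 1 : ℝ) * (T / 2 ^ (j + 1)) ≤ 2 * T := by
  have h : ∀ J : ℕ, ∑ j ∈ Finset.range J, (j + 1 : ℝ) * (T / 2 ^ (j + 1)) =
      2 * T - (J + 2) * (T / 2 ^ J) := by
    intro J
    induction J with
    | zero => simp
    | succ n ih =>
      rw [Finset.sum_range_succ, ih, pow_succ]
      push_cast
      field_simp
      ring
  rw [h]
  have : 0 ≤ ((J : ℝ) + 2) * (T / 2 ^ J) := by positivity
  linarith

/-- the dyadic points down to the square root -/
lemma dy_J {T : ℝ} (hT : 1 ≤ T) : ∃ J : ℕ, Real.sqrt T ≤ T / 2 ^ J ∧ T / 2 ^ J ≤ 2 * Real.sqrt T := by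
  set n := ⌊Real.sqrt T⌋₊ with hn
  have hs1 : 1 ≤ Real.sqrt T := Real.one_le_sqrt.2 hT
  have hs0 : 0 < Real.sqrt T := by linarith
  have hn1 : n ≠ 0 := by
    have : 1 ≤ n := by rw [hn, Nat.one_le_floor_iff]; exact hs1
    omega
  have hss : Real.sqrt T * Real.sqrt T = T := Real.mul_self_sqrt (by linarith)
  refine ⟨Nat.log 2 n, ?_, ?_⟩
  · rw [le_div_iff₀ (by positivity)]
    have h1 : 2 ^ Nat.log 2 n ≤ n := Nat.pow_log_le_self 2 hn1
    have h2 : (2 : ℝ) ^ Nat.log 2 n ≤ n := by exact_mod_cast h1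
    have h3 : (n : ℝ) ≤ Real.sqrt T := Nat.floor_le hs0.le
    calc Real.sqrt T * 2 ^ Nat.log 2 n ≤ Real.sqrt T * Real.sqrt T :=
          mul_le_mul_of_nonneg_left (h2.trans h3) hs0.le
      _ = T := hss
  · rw [div_le_iff₀ (by positivity)]
    have h1 : n < 2 ^ (Nat.log 2 n + 1) := Nat.lt_pow_succ_log_self (by norm_num) n
    have h2 : (n : ℝ) + 1 ≤ 2 ^ (Nat.log 2 n + 1) := by exact_mod_cast h1
    have h3 : Real.sqrt T < n + 1 := Nat.lt_floor_add_one _
    have h4 : Real.sqrt T ≤ 2 * 2 ^ Nat.log 2 n := by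
      rw [pow_succ] at h2
      linarith
    calc T = Real.sqrt T * Real.sqrt T := hss.symm
      _ ≤ Real.sqrt T * (2 * 2 ^ Nat.log 2 n) := mul_le_mul_of_nonneg_left h4 hs0.le
      _ = _ := by ring

theorem glob {lam : ℝ} (hlam : 16 ≤ lam) (hW : WMom lam) : ∃ C T0 : ℝ, 0 < C ∧ 10 ≤ T0 ∧
    ∀ T : ℝ, T0 ≤ T → ∃ κ : ℝ, |κ - T * Real.log T ^ 2 / (4 * Real.pi ^ 2)| ≤ C * T * Real.log T ∧
      ∀ a : ℝ, 2 * lam ≤ a → a * Real.log a ≤ Real.log T →
        |PSum (Zf riemannZeta 1 T) (2 * Real.pi * a / Real.log T) -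
          (κ * (2 * Real.pi * a / Real.log T) ^ 2 + T / Real.pi ^ 2 * Real.log a)| ≤ C * T := by
  obtain ⟨Cb, V0, hCb, hV0, hblock⟩ := block hlam hW
  obtain ⟨Cn, V1, hCn, hV1, hnn⟩ := nn_asymp good_zeta
  obtain ⟨Cl, T1, hCl, hT1, hloc⟩ := loc
  have hpi := Real.pi_gt_three
  have hpi0 := Real.pi_pos
  have ev1 : ∀ᶠ T : ℝ in atTop, (2 * Real.sqrt T + 6) * Real.log T ^ 2 ≤ T := by
    have h1 : (fun T : ℝ => Real.log T ^ 2) =o[atTop] fun T : ℝ => T ^ (1 / 2 : ℝ) := by
      have := isLittleO_log_rpow_rpow_atTop (s := 1 / 2) 2 (by norm_num : (0 : ℝ) < 1 / 2)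
      refine this.congr' ?_ (Eventually.of_forall fun _ => rfl)
      filter_upwards with T
      norm_cast
    have h2 := h1.bound (c := 1 / 8) (by norm_num)
    filter_upwards [h2, eventually_ge_atTop 1] with T hT hT1
    have hs : T ^ (1 / 2 : ℝ) = Real.sqrt T := (Real.sqrt_eq_rpow T).symm
    have hs1 : 1 ≤ Real.sqrt T := Real.one_le_sqrt.2 hT1
    have hss : Real.sqrt T * Real.sqrt T = T := Real.mul_self_sqrt (by linarith)
    rw [hs, Real.norm_of_nonneg (by linarith : (0 : ℝ) ≤ Real.sqrt T)] at hT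
    have h3 := (le_abs_self _).trans hT
    have h4 : 0 ≤ Real.log T ^ 2 := sq_nonneg _
    have h5 : (2 * Real.sqrt T + 6) * Real.log T ^ 2 ≤ (8 * Real.sqrt T) * (1 / 8 * Real.sqrt T) :=
      mul_le_mul (by linarith) h3 h4 (by linarith)
    linarith
  have ev2 : ∀ᶠ T : ℝ in atTop, max (max V0 V1) T1 ≤ Real.sqrt T :=
    (Filter.Tendsto.eventually_ge_atTop Real.tendsto_sqrt_atTop _)
  obtain ⟨T2, hT2⟩ := (ev1.and ev2).exists_forall_of_atTop
  refine ⟨Cb + 4 * Cl ^ 2 + Cn + 4, max T2 10, by positivity, le_max_right _ _, fun T hT => ?_⟩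
  obtain ⟨g1, g2⟩ := hT2 T ((le_max_left _ _).trans hT)
  have hT10 : 10 ≤ T := (le_max_right _ _).trans hT
  have hsV0 : V0 ≤ Real.sqrt T := ((le_max_left _ _).trans (le_max_left _ _)).trans g2
  have hsV1 : V1 ≤ Real.sqrt T := ((le_max_right _ _).trans (le_max_left _ _)).trans g2
  have hsT1 : T1 ≤ Real.sqrt T := (le_max_right _ _).trans g2
  have hs10 : 10 ≤ Real.sqrt T := hV0.trans hsV0
  have hss : Real.sqrt T * Real.sqrt T = T := Real.mul_self_sqrt (by linarith)
  have hsT : Real.sqrt T ≤ T := by nlinarith only [hss, hs10]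
  obtain ⟨J, hJ1, hJ2⟩ := dy_J (by linarith : (1 : ℝ) ≤ T)
  set L := Real.log T with hL
  have hL1 : 1 ≤ L := by
    rw [hL, Real.le_log_iff_exp_le (by linarith)]
    have := Real.exp_one_lt_d9
    linarith
  have hL0 : 0 < L := by linarith
  have hlsq : Real.log (Real.sqrt T) = L / 2 := by
    rw [Real.log_sqrt (by linarith)]
  -- the blocks
  set V : ℕ → ℝ := fun j => T / 2 ^ j with hV
  have hVpos : ∀ j, 0 < V j := fun j => by rw [hV]; positivity
  have hVs : ∀ j, V j = 2 * V (j + 1) := by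
    intro j
    simp only [hV, pow_succ]
    field_simp
  have hVT : ∀ j, V j ≤ T := by
    intro j
    simp only [hV]
    exact div_le_self (by linarith) (one_le_pow₀ (by norm_num))
  have hVJ : ∀ j, j ≤ J → Real.sqrt T ≤ V j := by
    intro j hj
    refine hJ1.trans ?_
    simp only [hV]
    apply div_le_div_of_nonneg_left (by linarith) (by positivity)
    exact pow_le_pow_right₀ (by norm_num) hj
  have hVlog : ∀ j, Real.log (V j) = L - j * Real.log 2 := by
    intro j
    simp only [hV]
    rw [Real.log_div (by linarith) (by positivity), Real.log_pow]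
  have hlog2 : Real.log 2 ≤ 1 := by
    have := Real.log_two_lt_d9
    linarith
  have hlog2p : 0 < Real.log 2 := Real.log_pos one_lt_two
  set lj : ℕ → ℝ := fun j => Real.log (V (j + 1)) with hlj
  have hlj1 : ∀ j, j < J → L / 2 ≤ lj j := by
    intro j hj
    rw [← hlsq]
    exact Real.log_le_log (by linarith) (hVJ (j + 1) hj)
  have hlj2 : ∀ j, lj j ≤ L := fun j => Real.log_le_log (hVpos _) (hVT _)
  set κj : ℕ → ℝ := fun j => lj j / Real.pi * (NN riemannZeta (V (j + 1)) (V j) : ℝ) -
    lj j ^ 2 * V (j + 1) / (4 * Real.pi ^ 2) with hκj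
  have hsum0 : ∑ j ∈ Finset.range J, V (j + 1) = T - V J := dy_sum0 T J
  have hsum1 : ∑ j ∈ Finset.range J, (j + 1 : ℝ) * V (j + 1) ≤ 2 * T := dy_sum1 (by linarith) J
  have hVJL : V J * L ^ 2 ≤ T := by
    have h1 : V J ≤ 2 * Real.sqrt T + 6 := by
      have : V J ≤ 2 * Real.sqrt T := hJ2
      linarith
    exact (mul_le_mul_of_nonneg_right h1 (sq_nonneg L)).trans g1
  refine ⟨∑ j ∈ Finset.range J, κj j, ?_, ?_⟩
  · -- the size of κ
    have h1 : ∀ j ∈ Finset.range J, |κj j - V (j + 1) * L ^ 2 / (4 * Real.pi ^ 2)| ≤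
        Cn * L * V (j + 1) + L * ((j + 1 : ℝ) * V (j + 1)) := by
      intro j hj
      rw [Finset.mem_range] at hj
      have h2 := hnn (V (j + 1)) (hsV1.trans (hVJ _ hj)) (V (j + 1)) (V j) le_rfl (by linarith)
        (by rw [hVs j]; linarith) (by rw [hVs j])
      have hl0 : 0 < lj j := by have := hlj1 j hj; linarith
      have hlL := hlj2 j
      set N : ℝ := (NN riemannZeta (V (j + 1)) (V j) : ℝ) with hN
      set W := V (j + 1) with hW
      have hW0 : 0 < W := hVpos _
      have e1 : κj j - W * L ^ 2 / (4 * Real.pi ^ 2) =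
          lj j / Real.pi * (N - W * lj j / (2 * Real.pi)) -
            W * ((L - lj j) * (L + lj j)) / (4 * Real.pi ^ 2) := by
        simp only [hκj]
        rw [← hN, ← hW]
        field_simp
        ring
      have e2 : L - lj j = (j + 1 : ℝ) * Real.log 2 := by
        simp only [hlj]
        rw [hVlog]
        push_cast
        ring
      rw [e1]
      refine (abs_sub _ _).trans (add_le_add ?_ ?_)
      · rw [abs_mul, abs_of_pos (by positivity : 0 < lj j / Real.pi)]
        have h3 : |N - W * lj j / (2 * Real.pi)| ≤ Cn * W := h2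
        have h4 : lj j / Real.pi ≤ L := by
          rw [div_le_iff₀ hpi0]
          nlinarith only [hlL, hpi, hL0]
        calc lj j / Real.pi * |N - W * lj j / (2 * Real.pi)| ≤ L * (Cn * W) :=
              mul_le_mul h4 h3 (abs_nonneg _) hL0.le
          _ = Cn * L * W := by ring
      · have h5 : 0 ≤ L - lj j := by linarith
        rw [abs_of_nonneg (by positivity), div_le_iff₀ (by positivity)]
        have h6 : (L - lj j) * (L + lj j) ≤ (j + 1 : ℝ) * (2 * L) := by
          rw [e2]
          have : (j + 1 : ℝ) * Real.log 2 ≤ (j + 1 : ℝ) * 1 :=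
            mul_le_mul_of_nonneg_left hlog2 (by positivity)
          rw [mul_one] at this
          exact mul_le_mul this (by linarith) (by linarith) (by positivity)
        have h7 : (2 : ℝ) ≤ 4 * Real.pi ^ 2 := by nlinarith only [hpi]
        calc W * ((L - lj j) * (L + lj j)) ≤ W * ((j + 1 : ℝ) * (2 * L)) :=
              mul_le_mul_of_nonneg_left h6 hW0.le
          _ = L * ((j + 1 : ℝ) * W) * 2 := by ring
          _ ≤ L * ((j + 1 : ℝ) * W) * (4 * Real.pi ^ 2) :=
              mul_le_mul_of_nonneg_left h7 (by positivity)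
    have h2 : |∑ j ∈ Finset.range J, κj j - (T - V J) * L ^ 2 / (4 * Real.pi ^ 2)| ≤
        Cn * L * (T - V J) + L * (2 * T) := by
      have e3 : ∑ j ∈ Finset.range J, κj j - (T - V J) * L ^ 2 / (4 * Real.pi ^ 2) =
          ∑ j ∈ Finset.range J, (κj j - V (j + 1) * L ^ 2 / (4 * Real.pi ^ 2)) := by
        have e4 : ∑ j ∈ Finset.range J, V (j + 1) * L ^ 2 / (4 * Real.pi ^ 2) =
            (T - V J) * L ^ 2 / (4 * Real.pi ^ 2) := by
          rw [← Finset.sum_div, ← Finset.sum_mul, hsum0]
        rw [← e4]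
        exact (Finset.sum_sub_distrib κj
          (fun j => V (j + 1) * L ^ 2 / (4 * Real.pi ^ 2))).symm
      rw [e3]
      refine (Finset.abs_sum_le_sum_abs _ _).trans ((Finset.sum_le_sum h1).trans ?_)
      rw [Finset.sum_add_distrib, ← Finset.mul_sum, ← Finset.mul_sum, hsum0]
      have := mul_le_mul_of_nonneg_left hsum1 hL0.le
      linarith
    have e4 : ∑ j ∈ Finset.range J, κj j - T * L ^ 2 / (4 * Real.pi ^ 2) =
        (∑ j ∈ Finset.range J, κj j - (T - V J) * L ^ 2 / (4 * Real.pi ^ 2)) -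
          V J * L ^ 2 / (4 * Real.pi ^ 2) := by ring
    rw [e4]
    refine (abs_sub _ _).trans ?_
    have h3 : |V J * L ^ 2 / (4 * Real.pi ^ 2)| ≤ T * L := by
      rw [abs_of_nonneg (by have := hVpos J; positivity), div_le_iff₀ (by positivity)]
      have h4 : (1 : ℝ) ≤ 4 * Real.pi ^ 2 := by nlinarith only [hpi]
      have h5 : T ≤ T * L := le_mul_of_one_le_right (by linarith) hL1
      have h6 : T * L * 1 ≤ T * L * (4 * Real.pi ^ 2) :=
        mul_le_mul_of_nonneg_left h4 (by positivity)
      linarith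
    have h4 : Cn * L * (T - V J) ≤ Cn * L * T := by
      have := hVpos J
      apply mul_le_mul_of_nonneg_left (by linarith) (by positivity)
    have h5 : 0 ≤ (Cb + 4 * Cl ^ 2 + 1) * T * L := by positivity
    linarith
  · intro a ha haL
    have ha0 : 0 < a := by linarith
    obtain ⟨hh0, hh7, -, hla1⟩ := h_size (by linarith : 16 ≤ a) hL0 haL
    set h := 2 * Real.pi * a / L with hh
    have hlaL : Real.log a ≤ L := by
      have : 1 * Real.log a ≤ a * Real.log a := mul_le_mul_of_nonneg_right (by linarith) (by linarith)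
      linarith
    set S := Zf riemannZeta 1 T with hS
    set F : ℝ → ℝ := fun t => Nb S (t + h) - Nb S t with hF
    have hFB : BM F := ((Nb_BM S).shift h).sub (Nb_BM S)
    have hF0 : ∀ t, 0 ≤ F t := fun t => sub_nonneg.2 (Nb_mono S (by linarith))
    have hF1 : ∀ t, F t ≤ Cl * L := by
      intro t
      have k1 : Nb S (t + h) ≤ Nb S (t + 7) := Nb_mono S (by linarith)
      have k2 := hloc T (by linarith) t
      show Nb S (t + h) - Nb S t ≤ Cl * L
      linarith
    have i2 : ∀ x y, IntervalIntegrable (fun t => F t ^ 2) volume x y := by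
      intro x y
      simp_rw [sq]
      exact (hFB.mul hFB).ii x y
    have hPS : PSum S h = ∫ t in (-6)..T, F t ^ 2 := by
      refine (int_sq hh0.le S (fun s hs => ?_) fun s hs => ?_).symm
      · rw [hS, mem_Zf good_zeta le_rfl] at hs
        have := hs.2.2.1
        linarith
      · rw [hS, mem_Zf good_zeta le_rfl] at hs
        exact hs.2.2.2.1
    have hsplit : ∫ t in (-6)..T, F t ^ 2 = (∫ t in (-6)..(V J), F t ^ 2) +
        ∑ j ∈ Finset.range J, ∫ t in (V (j + 1))..(V j), F t ^ 2 := by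
      have h1 := intervalIntegral.sum_integral_adjacent_intervals (f := fun t => F t ^ 2)
        (μ := volume) (a := V) (n := J) fun k _ => i2 _ _
      have h2 : ∑ j ∈ Finset.range J, ∫ t in (V (j + 1))..(V j), F t ^ 2 =
          -∑ j ∈ Finset.range J, ∫ t in (V j)..(V (j + 1)), F t ^ 2 := by
        rw [← Finset.sum_neg_distrib]
        exact Finset.sum_congr rfl fun j _ => intervalIntegral.integral_symm _ _
      rw [h2, h1, ← intervalIntegral.integral_symm]
      have h3 : V 0 = T := by simp [hV]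
      rw [h3, intervalIntegral.integral_add_adjacent_intervals (i2 _ _) (i2 _ _)]
    have hlow : |∫ t in (-6)..(V J), F t ^ 2| ≤ Cl ^ 2 * T := by
      have hVJp := hVpos J
      rw [abs_of_nonneg (intervalIntegral.integral_nonneg (by linarith) fun t _ => sq_nonneg _)]
      have h1 := intervalIntegral.integral_mono_on (by linarith : (-6 : ℝ) ≤ V J) (i2 _ _)
        (continuous_const.intervalIntegrable (μ := volume) (-6) (V J))
        fun t _ => pow_le_pow_left₀ (hF0 t) (hF1 t) 2
      rw [intervalIntegral.integral_const, smul_eq_mul] at h1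
      refine h1.trans ?_
      have h2 : V J - -6 ≤ 2 * Real.sqrt T + 6 := by
        have : V J ≤ 2 * Real.sqrt T := hJ2
        linarith
      calc (V J - -6) * (Cl * L) ^ 2 ≤ (2 * Real.sqrt T + 6) * (Cl * L) ^ 2 :=
            mul_le_mul_of_nonneg_right h2 (sq_nonneg _)
        _ = Cl ^ 2 * ((2 * Real.sqrt T + 6) * L ^ 2) := by ring
        _ ≤ Cl ^ 2 * T := mul_le_mul_of_nonneg_left g1 (sq_nonneg _)
    have hbl : ∀ j ∈ Finset.range J, |(∫ t in (V (j + 1))..(V j), F t ^ 2) -
        (κj j * h ^ 2 + V (j + 1) / Real.pi ^ 2 * Real.log a)| ≤ (Cb + 1) * V (j + 1) := by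
      intro j hj
      rw [Finset.mem_range] at hj
      have k1 : L / 2 ≤ lj j := hlj1 j hj
      have k2 : lj j ≤ L := hlj2 j
      have hl0 : 0 < lj j := by linarith
      have hVsq : T ≤ V (j + 1) ^ 2 := by
        have := pow_le_pow_left₀ (by linarith) (hVJ (j + 1) hj) 2
        rw [sq, hss] at this
        exact this
      set aj := a * (lj j / L) with haj
      have r1 : 1 / 2 ≤ lj j / L := by rw [le_div_iff₀ hL0]; linarith
      have r2 : lj j / L ≤ 1 := by rw [div_le_one hL0]; exact k2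
      have haj1 : lam ≤ aj := by
        have : a * (1 / 2) ≤ a * (lj j / L) := mul_le_mul_of_nonneg_left r1 ha0.le
        rw [haj]; linarith
      have haj2 : aj ≤ a := by rw [haj]; exact mul_le_of_le_one_right ha0.le r2
      have hajp : 0 < aj := by linarith
      have hlog1 : Real.log aj ≤ Real.log a := Real.log_le_log hajp haj2
      have hajL : aj * Real.log aj ≤ lj j := by
        calc aj * Real.log aj ≤ aj * Real.log a := mul_le_mul_of_nonneg_left hlog1 hajp.le
          _ = (lj j / L) * (a * Real.log a) := by rw [haj]; ring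
          _ ≤ (lj j / L) * L := mul_le_mul_of_nonneg_left haL (by positivity)
          _ = lj j := by field_simp
      have hheq : h = 2 * Real.pi * aj / lj j := by
        rw [hh, haj]
        field_simp
      have hB := hblock (V (j + 1)) (hsV0.trans (hVJ _ hj)) T (by rw [← hVs]; exact hVT j) hVsq aj h
        haj1 hajL hheq
      rw [← hVs] at hB
      have hlog2' : Real.log a - Real.log aj ≤ 1 := by
        have e : Real.log aj = Real.log a + Real.log (lj j / L) := by
          rw [haj, Real.log_mul ha0.ne' (by positivity)]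
        have : Real.log (1 / 2) ≤ Real.log (lj j / L) := Real.log_le_log (by norm_num) r1
        rw [Real.log_div one_ne_zero two_ne_zero, Real.log_one] at this
        linarith
      have hWp := hVpos (j + 1)
      have e3 : |V (j + 1) / Real.pi ^ 2 * Real.log aj - V (j + 1) / Real.pi ^ 2 * Real.log a| ≤
          V (j + 1) := by
        rw [← mul_sub, abs_mul, abs_of_pos (by positivity : 0 < V (j + 1) / Real.pi ^ 2)]
        have h5 : |Real.log aj - Real.log a| ≤ 1 := by
          rw [abs_le]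
          constructor <;> linarith
        have h6 : V (j + 1) / Real.pi ^ 2 ≤ V (j + 1) :=
          div_le_self hWp.le (by nlinarith only [hpi])
        calc _ ≤ V (j + 1) * 1 := mul_le_mul h6 h5 (abs_nonneg _) hWp.le
          _ = V (j + 1) := mul_one _
      have e4 : (∫ t in (V (j + 1))..(V j), F t ^ 2) -
          (κj j * h ^ 2 + V (j + 1) / Real.pi ^ 2 * Real.log a) =
          ((∫ t in (V (j + 1))..(V j), F t ^ 2) -
            (κj j * h ^ 2 + V (j + 1) / Real.pi ^ 2 * Real.log aj)) +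
          (V (j + 1) / Real.pi ^ 2 * Real.log aj - V (j + 1) / Real.pi ^ 2 * Real.log a) := by ring
      rw [e4]
      refine (abs_add_le _ _).trans ?_
      have : |(∫ t in (V (j + 1))..(V j), F t ^ 2) -
            (κj j * h ^ 2 + V (j + 1) / Real.pi ^ 2 * Real.log aj)| ≤ Cb * V (j + 1) := hB
      linarith
    have hsumb : |(∑ j ∈ Finset.range J, ∫ t in (V (j + 1))..(V j), F t ^ 2) -
        ((∑ j ∈ Finset.range J, κj j) * h ^ 2 + (T - V J) / Real.pi ^ 2 * Real.log a)| ≤
        (Cb + 1) * (T - V J) := by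
      have e5 : (∑ j ∈ Finset.range J, ∫ t in (V (j + 1))..(V j), F t ^ 2) -
          ((∑ j ∈ Finset.range J, κj j) * h ^ 2 + (T - V J) / Real.pi ^ 2 * Real.log a) =
          ∑ j ∈ Finset.range J, ((∫ t in (V (j + 1))..(V j), F t ^ 2) -
            (κj j * h ^ 2 + V (j + 1) / Real.pi ^ 2 * Real.log a)) := by
        have e7 : ∑ j ∈ Finset.range J, V (j + 1) / Real.pi ^ 2 * Real.log a =
            (T - V J) / Real.pi ^ 2 * Real.log a := by
          rw [← Finset.sum_mul, ← Finset.sum_div, hsum0]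
        have e8 : ∑ j ∈ Finset.range J, κj j * h ^ 2 = (∑ j ∈ Finset.range J, κj j) * h ^ 2 :=
          (Finset.sum_mul _ _ _).symm
        rw [← e7, ← e8]
        rw [← Finset.sum_add_distrib]
        exact (Finset.sum_sub_distrib _ _).symm
      rw [e5]
      refine (Finset.abs_sum_le_sum_abs _ _).trans ((Finset.sum_le_sum hbl).trans ?_)
      rw [← Finset.mul_sum, hsum0]
    rw [hPS, hsplit]
    have hVJp := hVpos J
    have hlast : |V J / Real.pi ^ 2 * Real.log a| ≤ T := by
      rw [abs_of_nonneg (by positivity)]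
      have h6 : V J / Real.pi ^ 2 ≤ V J := div_le_self hVJp.le (by nlinarith only [hpi])
      calc V J / Real.pi ^ 2 * Real.log a ≤ V J * L :=
            mul_le_mul h6 hlaL (by linarith) hVJp.le
        _ ≤ V J * L ^ 2 := by
            apply mul_le_mul_of_nonneg_left _ hVJp.le
            nlinarith only [hL1]
        _ ≤ T := hVJL
    have e6 : (∫ t in (-6)..(V J), F t ^ 2) + (∑ j ∈ Finset.range J, ∫ t in (V (j + 1))..(V j), F t ^ 2) -
        ((∑ j ∈ Finset.range J, κj j) * h ^ 2 + T / Real.pi ^ 2 * Real.log a) =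
        (∫ t in (-6)..(V J), F t ^ 2) + ((∑ j ∈ Finset.range J, ∫ t in (V (j + 1))..(V j), F t ^ 2) -
        ((∑ j ∈ Finset.range J, κj j) * h ^ 2 + (T - V J) / Real.pi ^ 2 * Real.log a)) -
        V J / Real.pi ^ 2 * Real.log a := by ring
    rw [e6]
    refine (abs_sub _ _).trans ?_
    refine (add_le_add (abs_add_le _ _) le_rfl).trans ?_
    have h9 : (Cb + 1) * (T - V J) ≤ (Cb + 1) * T := by
      apply mul_le_mul_of_nonneg_left (by linarith) (by linarith)
    have h10 : 0 ≤ (3 * Cl ^ 2 + Cn + 2) * T := by positivity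
    linarith

end Pool.Agent.W2helper93.NV
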