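import Pool.Agent.W2helper93.NV.Pair

set_option autoImplicit false

/-! # Local counts of zeros -/

namespace Pool.Agent.W2helper93.NV

open Complex Filter Topology MeasureTheory Set
open H370 (zz hh mult Zf zset AA good_zeta mem_Zf NN NN_add NN_mono zcount nn_asymp finsum_Zf)

lemma Nb_sub_eq (S : Finset ℂ) {x y : ℝ} (h : x ≤ y) :
    Nb S y - Nb S x = ∑ s ∈ S.filter (fun s => x ≤ s.im ∧ s.im < y), mm s := by
  unfold Nb
  rw [← Finset.sum_sub_distrib, Finset.sum_filter]
  refine Finset.sum_congr rfl fun s _ => ?_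
  by_cases h1 : s.im < x
  · rw [if_pos h1, if_pos (by linarith), if_neg (fun h => absurd h.1 (not_le.2 h1)), sub_self]
  · push Not at h1
    rw [if_neg (not_lt.2 h1)]
    by_cases h2 : s.im < y
    · rw [if_pos h2, if_pos ⟨h1, h2⟩, sub_zero]
    · rw [if_neg h2, if_neg (fun h => h2 h.2), sub_zero]

lemma NN_sum {a b : ℝ} (ha : 1 ≤ a) : (NN riemannZeta a b : ℝ) = ∑ s ∈ Zf riemannZeta a b, mm s := by
  have h : NN riemannZeta a b = ∑ s ∈ Zf riemannZeta a b, mult riemannZeta s :=
    finsum_Zf good_zeta ha _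
  rw [h]
  push_cast
  rfl

/-- local counts -/
theorem loc : ∃ C T0 : ℝ, 0 < C ∧ 10 ≤ T0 ∧ ∀ T : ℝ, T0 ≤ T → ∀ x : ℝ,
    Nb (Zf riemannZeta 1 T) (x + 7) - Nb (Zf riemannZeta 1 T) x ≤ C * Real.log T := by
  obtain ⟨C, hC, hz⟩ := zcount good_zeta
  set K : ℝ := (NN riemannZeta 1 10 : ℝ) with hK
  have hK0 : 0 ≤ K := Nat.cast_nonneg _
  refine ⟨K + 8 * C, 10, by positivity, le_rfl, fun T hT x => ?_⟩
  have hlog : 1 ≤ Real.log T := by
    rw [Real.le_log_iff_exp_le (by linarith)]
    have := Real.exp_one_lt_d9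
    linarith
  have hR : K * 1 + 0 ≤ (K + 8 * C) * Real.log T := by
    nlinarith
  rw [Nb_sub_eq _ (by linarith)]
  rcases lt_or_ge x 3 with hx | hx
  · have hsub : (Zf riemannZeta 1 T).filter (fun s => x ≤ s.im ∧ s.im < x + 7) ⊆
        Zf riemannZeta 1 10 := by
      intro s hs
      rw [Finset.mem_filter, mem_Zf good_zeta le_rfl] at hs
      rw [mem_Zf good_zeta le_rfl]
      exact ⟨hs.1.1, hs.1.2.1, hs.1.2.2.1, by linarith [hs.2.2], hs.1.2.2.2.2⟩
    have h1 := Finset.sum_le_sum_of_subset_of_nonneg hsub fun s _ _ => mm_nonneg s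
    rw [← NN_sum le_rfl] at h1
    linarith
  · rcases lt_or_ge T x with hTx | hTx
    · have hemp : (Zf riemannZeta 1 T).filter (fun s => x ≤ s.im ∧ s.im < x + 7) = ∅ := by
        rw [Finset.filter_eq_empty_iff]
        intro s hs hs'
        rw [mem_Zf good_zeta le_rfl] at hs
        have := hs.2.2.2.1
        linarith [hs'.1]
      rw [hemp, Finset.sum_empty]
      positivity
    · have hsub : (Zf riemannZeta 1 T).filter (fun s => x ≤ s.im ∧ s.im < x + 7) ⊆
          Zf riemannZeta (x - 1) (x + 7) := by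
        intro s hs
        rw [Finset.mem_filter, mem_Zf good_zeta le_rfl] at hs
        rw [mem_Zf good_zeta (by linarith)]
        exact ⟨hs.1.1, hs.1.2.1, by linarith [hs.2.1], by linarith [hs.2.2], hs.1.2.2.2.2⟩
      have h1 := Finset.sum_le_sum_of_subset_of_nonneg hsub fun s _ _ => mm_nonneg s
      rw [← NN_sum (by linarith)] at h1
      have e1 : NN riemannZeta (x - 1) (x + 7) = NN riemannZeta (x - 1) (x + 1) +
          NN riemannZeta (x + 1) (x + 7) := NN_add good_zeta (by linarith) (by linarith) (by linarith)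
      have e2 : NN riemannZeta (x + 1) (x + 7) = NN riemannZeta (x + 1) (x + 3) +
          NN riemannZeta (x + 3) (x + 7) := NN_add good_zeta (by linarith) (by linarith) (by linarith)
      have e3 : NN riemannZeta (x + 3) (x + 7) = NN riemannZeta (x + 3) (x + 5) +
          NN riemannZeta (x + 5) (x + 7) := NN_add good_zeta (by linarith) (by linarith) (by linarith)
      have z0 := hz x (by linarith)
      have z1 := hz (x + 2) (by linarith)
      have z2 := hz (x + 4) (by linarith)
      have z3 := hz (x + 6) (by linarith)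
      rw [show x + 2 - 1 = x + 1 by ring, show x + 2 + 1 = x + 3 by ring] at z1
      rw [show x + 4 - 1 = x + 3 by ring, show x + 4 + 1 = x + 5 by ring] at z2
      rw [show x + 6 - 1 = x + 5 by ring, show x + 6 + 1 = x + 7 by ring] at z3
      have hl : ∀ y, y ≤ x + 6 → 0 < y → Real.log y ≤ 2 * Real.log T := by
        intro y hy hy0
        have h2 : Real.log y ≤ Real.log (T ^ 2) := by
          apply Real.log_le_log hy0
          nlinarith
        rw [Real.log_pow] at h2
        simpa using h2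
      have l0 := hl x (by linarith) (by linarith)
      have l1 := hl (x + 2) (by linarith) (by linarith)
      have l2 := hl (x + 4) (by linarith) (by linarith)
      have l3 := hl (x + 6) (by linarith) (by linarith)
      rw [e1, e2, e3] at h1
      push_cast at h1
      have m0 := mul_le_mul_of_nonneg_left l0 hC.le
      have m1 := mul_le_mul_of_nonneg_left l1 hC.le
      have m2 := mul_le_mul_of_nonneg_left l2 hC.le
      have m3 := mul_le_mul_of_nonneg_left l3 hC.le
      nlinarith

/-- the count in a block -/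
lemma Nc_block {T V : ℝ} (hV : 1 ≤ V) (hT : 2 * V ≤ T) :
    Nc (Zf riemannZeta 1 T) V (2 * V) = (NN riemannZeta V (2 * V) : ℝ) := by
  rw [NN_sum hV]
  unfold Nc
  have e : Zf riemannZeta V (2 * V) =
      (Zf riemannZeta 1 T).filter (fun s => V < s.im ∧ s.im ≤ 2 * V) := by
    ext s
    rw [Finset.mem_filter, mem_Zf good_zeta le_rfl, mem_Zf good_zeta hV]
    constructor
    · rintro ⟨h1, h2, h3, h4, h5⟩
      exact ⟨⟨h1, h2, by linarith, by linarith, h5⟩, h3, h4⟩
    · rintro ⟨⟨h1, h2, h3, h4, h5⟩, h6, h7⟩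
      exact ⟨h1, h2, h6, h7, h5⟩
  rw [e, Finset.sum_filter]
  refine Finset.sum_congr rfl fun s _ => ?_
  split_ifs <;> simp

/-- inside the block only the zeros of the block are seen -/
lemma Nb_local {T V U1 U2 t h : ℝ} (hV : 1 ≤ V) (hT : 2 * V ≤ T) (h1 : V ≤ U1) (h1' : U1 < t)
    (h2 : t + h ≤ U2) (h2' : U2 ≤ 2 * V) (hh : 0 ≤ h) :
    Nb (Zf riemannZeta 1 T) (t + h) - Nb (Zf riemannZeta 1 T) t =
      Nb (Zf riemannZeta U1 U2) (t + h) - Nb (Zf riemannZeta U1 U2) t := by
  rw [Nb_sub_eq _ (by linarith), Nb_sub_eq _ (by linarith)]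
  refine Finset.sum_congr ?_ fun _ _ => rfl
  ext s
  rw [Finset.mem_filter, Finset.mem_filter, mem_Zf good_zeta le_rfl, mem_Zf good_zeta (by linarith)]
  constructor
  · rintro ⟨⟨k1, k2, k3, k4, k5⟩, k6, k7⟩
    exact ⟨⟨k1, k2, by linarith, by linarith, k5⟩, k6, k7⟩
  · rintro ⟨⟨k1, k2, k3, k4, k5⟩, k6, k7⟩
    exact ⟨⟨k1, k2, by linarith, by linarith, k5⟩, k6, k7⟩

end Pool.Agent.W2helper93.NV
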