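import Pool.Agent.W2helper93.NV.Main

set_option autoImplicit false

/-! # Averages over windows and good points -/

namespace Pool.Agent.W2helper93.NV

open Complex Filter Topology MeasureTheory Set

lemma alog_le {a b X : ℝ} (ha : 0 < a) (hab : a ≤ b) (hX : 0 ≤ X) (hb : b * Real.log b ≤ X) :
    a * Real.log a ≤ X := by
  rcases le_or_gt a 1 with h | h
  · have := Real.log_nonpos ha.le h
    nlinarith
  · exact (mul_le_mul hab (Real.log_le_log ha hab) (Real.log_nonneg h.le) (by linarith)).trans hb

theorem main3 {lam : ℝ} (hlam : 16 ≤ lam) (hW : WMom lam) : ∃ C T0 : ℝ, 0 < C ∧ 10 ≤ T0 ∧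
    ∀ T : ℝ, T0 ≤ T →
      (∀ a : ℝ, 0 < a → a * Real.log a ≤ Real.log T / 2 →
        |(Nstar T a : ℝ) - MM a * (T * Real.log T)| ≤ C * (T * Real.log T)) ∧
      (∀ α β : ℝ, 0 ≤ α → α ≤ β → β * Real.log β ≤ Real.log T / 2 →
        |∫ a in α..β, gg T a| ≤ C * T * (Real.log T + β * (β - α))) := by
  obtain ⟨C, T1, hC, hT1, hm⟩ := main1 hlam hW
  set A0 : ℝ := 2 * lam with hA0
  have hA32 : 32 ≤ A0 := by rw [hA0]; linarith
  refine ⟨C * (2 + A0), T1, by positivity, hT1, fun T hT => ?_⟩
  obtain ⟨m1, m2, m3⟩ := hm T hT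
  have hT10 : 10 ≤ T := hT1.trans hT
  have hT0 : 0 < T := by linarith
  have hT1' : 1 < T := by linarith
  set L := Real.log T with hL
  have hL0 : 0 < L := Real.log_pos hT1'
  have hsmall : ∀ α β : ℝ, 0 ≤ α → α ≤ β → β ≤ A0 → β * Real.log β ≤ L / 2 →
      |∫ a in α..β, gg T a| ≤ C * A0 * (T * L) := by
    intro α β hα hαβ hβ hβL
    have h1 : ∀ x ∈ Set.uIoc α β, ‖gg T x‖ ≤ C * (T * L) := by
      intro x hx
      rw [Set.uIoc_of_le hαβ] at hx
      exact m2 x (by linarith [hx.1]) (alog_le (by linarith [hx.1]) hx.2 (by positivity) hβL)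
    have h2 := intervalIntegral.norm_integral_le_of_norm_le_const h1
    rw [Real.norm_eq_abs, abs_of_nonneg (by linarith : 0 ≤ β - α)] at h2
    refine h2.trans ?_
    have h3 : C * (T * L) * (β - α) ≤ C * (T * L) * A0 :=
      mul_le_mul_of_nonneg_left (by linarith) (by positivity)
    linarith
  constructor
  · intro a ha haL
    refine (m1 a ha haL).trans ?_
    have : 0 ≤ C * (1 + A0) * (T * L) := by positivity
    linarith
  · intro α β hα hαβ hβ
    have hβ0 : 0 ≤ β := hα.trans hαβ
    have hq : 0 ≤ β - α := by linarith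
    have p1 : 0 ≤ C * T * (β * (β - α)) := by positivity
    have p2 : 0 ≤ C * T * L := by positivity
    have p3 : 0 ≤ C * T * L * A0 := by positivity
    have p4 : 0 ≤ C * T * (β * (β - α)) * A0 := by positivity
    have e0 : C * (2 + A0) * T * (L + β * (β - α)) =
        2 * (C * T * L) + C * T * L * A0 + 2 * (C * T * (β * (β - α))) +
          C * T * (β * (β - α)) * A0 := by ring
    rw [e0]
    rcases le_or_gt β A0 with h1 | h1
    · have := hsmall α β hα hαβ h1 hβ
      have e : C * A0 * (T * L) = C * T * L * A0 := by ring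
      linarith
    · rcases le_or_gt A0 α with h2 | h2
      · have := m3 α β h2 hαβ hβ
        have e : C * T * (L + β * (β - α)) = C * T * L + C * T * (β * (β - α)) := by ring
        linarith
      · have hA0L : A0 * Real.log A0 ≤ L / 2 := alog_le (by linarith) h1.le (by positivity) hβ
        have k1 := hsmall α A0 hα h2.le le_rfl hA0L
        have k2 := m3 A0 β le_rfl h1.le hβ
        have e1 : ∫ a in α..β, gg T a = (∫ a in α..A0, gg T a) + ∫ a in A0..β, gg T a := by
          rw [intervalIntegral.integral_add_adjacent_intervals (gg_ii hT1' _ _) (gg_ii hT1' _ _)]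
        rw [e1]
        refine (abs_add_le _ _).trans ((add_le_add k1 k2).trans ?_)
        have h3 : C * T * (β * (β - A0)) ≤ C * T * (β * (β - α)) := by
          apply mul_le_mul_of_nonneg_left _ (by positivity)
          apply mul_le_mul_of_nonneg_left _ hβ0
          linarith
        have e2 : C * T * (L + β * (β - A0)) = C * T * L + C * T * (β * (β - A0)) := by ring
        have e3 : C * A0 * (T * L) = C * T * L * A0 := by ring
        linarith

/-- a function with no downward jumps which avoids a band does not cross it downwards -/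
lemma no_cross {N m : ℝ → ℝ} (hN : Monotone N) {K e : ℝ} (he : 0 < e) (_ : 0 < K)
    (hm : ∀ x y, x ≤ y → m y - m x ≤ K * (y - x)) {p q : ℝ} (hpq : p ≤ q)
    (hbad : ∀ a ∈ Set.Icc p q, e < |N a - m a|) (hp : 0 < N p - m p) : 0 < N q - m q := by
  set n : ℕ := ⌈(q - p) * K / e⌉₊ + 1 with hn
  have hn0 : (0 : ℝ) < n := by rw [hn]; positivity
  have hn1 : (q - p) * K / e ≤ n := by
    rw [hn]; push_cast
    have := Nat.le_ceil ((q - p) * K / e)
    linarith
  set δ : ℝ := (q - p) / n with hδ
  have hδ0 : 0 ≤ δ := div_nonneg (by linarith) hn0.le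
  have hKδ : K * δ ≤ e := by
    rw [hδ, ← mul_div_assoc, div_le_iff₀ hn0]
    rw [div_le_iff₀ he] at hn1
    nlinarith
  have key : ∀ k : ℕ, k ≤ n → 0 < N (p + k * δ) - m (p + k * δ) := by
    intro k
    induction k with
    | zero => intro _; simpa using hp
    | succ k ih =>
      intro hk
      have h1 := ih (by omega)
      have hkn : (k : ℝ) + 1 ≤ n := by exact_mod_cast hk
      have hmem : p + k * δ ∈ Set.Icc p q := by
        constructor
        · have : 0 ≤ (k : ℝ) * δ := by positivity
          linarith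
        · have h2 : (k : ℝ) * δ ≤ n * δ := mul_le_mul_of_nonneg_right (by linarith) hδ0
          have h3 : (n : ℝ) * δ = q - p := by rw [hδ]; field_simp
          linarith
      have h2 := hbad _ hmem
      rw [abs_of_pos h1] at h2
      have h3 : p + k * δ ≤ p + ((k + 1 : ℕ) : ℝ) * δ := by push_cast; nlinarith
      have h4 := hN h3
      have h5 := hm _ _ h3
      have h6 : p + ((k + 1 : ℕ) : ℝ) * δ - (p + k * δ) = δ := by push_cast; ring
      rw [h6] at h5
      linarith
  have h := key n le_rfl
  have e1 : p + (n : ℝ) * δ = q := by rw [hδ]; field_simp; ring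
  rwa [e1] at h

lemma x_small {δ : ℝ} (hδ : 0 < δ) : ∃ L0 : ℝ, ∀ L : ℝ, L0 ≤ L → ∀ x : ℝ, 0 < x →
    x * Real.log x ≤ L / 2 → x ≤ δ * L := by
  refine ⟨Real.exp (1 / δ) / δ, fun L hL x hx hxL => ?_⟩
  have hE := Real.exp_pos (1 / δ)
  have hL0 : 0 < L := lt_of_lt_of_le (by positivity) hL
  rcases le_or_gt x (Real.exp (1 / δ)) with h | h
  · rw [div_le_iff₀ hδ] at hL
    linarith
  · have h1 : 1 / δ < Real.log x := by
      rw [Real.lt_log_iff_exp_lt hx]
      exact h
    have h2 : x * (1 / δ) ≤ L / 2 := (mul_le_mul_of_nonneg_left h1.le hx.le).trans hxL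
    rw [mul_one_div, div_le_iff₀ hδ] at h2
    nlinarith

theorem main4 {lam : ℝ} (hlam : 16 ≤ lam) (hW : WMom lam) : ∃ C T0 : ℝ, 0 < C ∧ 10 ≤ T0 ∧
    (∀ T : ℝ, T0 ≤ T →
      (∀ a : ℝ, 0 < a → a * Real.log a ≤ Real.log T / 2 →
        |(Nstar T a : ℝ) - MM a * (T * Real.log T)| ≤ C * (T * Real.log T)) ∧
      (∀ α β : ℝ, 0 ≤ α → α ≤ β → β * Real.log β ≤ Real.log T / 2 →
        |∫ a in α..β, gg T a| ≤ C * T * (Real.log T + β * (β - α)))) ∧
    (∀ ε : ℝ, 0 < ε → ∃ T1 : ℝ, ∀ T : ℝ, T1 ≤ T → ∀ α : ℝ, 0 ≤ α →
      (α + C / ε) * Real.log (α + C / ε) ≤ Real.log T / 2 →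
        ∃ a ∈ Set.Icc α (α + C / ε), |gg T a| ≤ ε * (T * Real.log T)) := by
  obtain ⟨C, T0, hC, hT0, hm⟩ := main3 hlam hW
  refine ⟨4 * C, T0, by positivity, hT0, fun T hT => ?_, fun ε hε => ?_⟩
  · obtain ⟨m1, m2⟩ := hm T hT
    have hT10 : 10 ≤ T := hT0.trans hT
    have hL0 : 0 < Real.log T := Real.log_pos (by linarith)
    constructor
    · intro a ha haL
      refine (m1 a ha haL).trans ?_
      have : 0 ≤ 3 * C * (T * Real.log T) := by
        have : 0 < T := by linarith
        positivity
      linarith
    · intro α β hα hαβ hβ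
      refine (m2 α β hα hαβ hβ).trans ?_
      have h1 : 0 ≤ β * (β - α) := mul_nonneg (hα.trans hαβ) (by linarith)
      have h2 : 0 < T := by linarith
      have : 0 ≤ 3 * C * T * (Real.log T + β * (β - α)) := by positivity
      linarith
  · set w : ℝ := 2 * C / ε with hw
    have hw0 : 0 < w := by positivity
    have e2w : 4 * C / ε = 2 * w := by rw [hw]; ring
    rw [e2w]
    obtain ⟨L0, hL0⟩ := x_small (δ := 1 / (2 * w)) (by positivity)
    obtain ⟨T1, hT1⟩ := (Real.tendsto_log_atTop.eventually_ge_atTop L0).exists_forall_of_atTop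
    refine ⟨max T0 T1, fun T hT α hα hαL => ?_⟩
    obtain ⟨-, m2⟩ := hm T ((le_max_left _ _).trans hT)
    have hLL0 := hT1 T ((le_max_right _ _).trans hT)
    have hT10 : 10 ≤ T := hT0.trans ((le_max_left _ _).trans hT)
    have hTp : 0 < T := by linarith
    have hT1' : 1 < T := by linarith
    set L := Real.log T with hL
    have hLp : 0 < L := Real.log_pos hT1'
    set x := α + 2 * w with hx
    have hx0 : 0 < x := by rw [hx]; positivity
    have hxs := hL0 L hLL0 x hx0 hαL
    have hxw : x * w < L := by
      rw [div_mul_eq_mul_div, one_mul, le_div_iff₀ (by positivity)] at hxs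
      nlinarith [mul_pos hx0 hw0]
    by_contra hcon
    push Not at hcon
    set e := ε * (T * L) with he
    have he0 : 0 < e := by positivity
    have hew : e * w = 2 * C * (T * L) := by rw [he, hw]; field_simp
    -- a positive point in the first window
    have hp : ∃ p ∈ Set.Icc α (α + w), 0 < gg T p := by
      by_contra hno
      push Not at hno
      have h1 : ∀ a ∈ Set.Icc α (α + w), gg T a ≤ -e := by
        intro a ha
        have h2 := hno a ha
        have h3 := hcon a ⟨ha.1, by linarith [ha.2]⟩
        rw [abs_of_nonpos h2] at h3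
        linarith
      have h2 := intervalIntegral.integral_mono_on (by linarith : α ≤ α + w) (gg_ii hT1' _ _)
        (continuous_const.intervalIntegrable (μ := volume) α (α + w)) h1
      rw [intervalIntegral.integral_const, smul_eq_mul] at h2
      have h3 := (abs_le.1 (m2 α (α + w) hα (by linarith)
        (alog_le (by linarith) (by linarith) (by positivity) hαL))).1
      have e1 : α + w - α = w := by ring
      rw [e1] at h2 h3
      have h4 : (α + w) * w ≤ x * w := mul_le_mul_of_nonneg_right (by linarith) hw0.le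
      have h5 : C * T * (L + (α + w) * w) < 2 * C * (T * L) := by
        have : C * T * (L + (α + w) * w) < C * T * (L + L) := by
          apply mul_lt_mul_of_pos_left _ (by positivity)
          linarith
        linarith
      have h6 : w * -e = -(e * w) := by ring
      rw [h6, hew] at h2
      linarith
    have hq : ∃ q ∈ Set.Icc (α + w) x, gg T q < 0 := by
      by_contra hno
      push Not at hno
      have h1 : ∀ a ∈ Set.Icc (α + w) x, e ≤ gg T a := by
        intro a ha
        have h2 := hno a ha
        have h3 := hcon a ⟨by linarith [ha.1], ha.2⟩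
        rw [abs_of_nonneg h2] at h3
        linarith
      have h2 := intervalIntegral.integral_mono_on (by linarith : α + w ≤ x)
        (continuous_const.intervalIntegrable (μ := volume) (α + w) x) (gg_ii hT1' _ _) h1
      rw [intervalIntegral.integral_const, smul_eq_mul] at h2
      have h3 := (abs_le.1 (m2 (α + w) x (by linarith) (by linarith) hαL)).2
      have e1 : x - (α + w) = w := by rw [hx]; ring
      rw [e1] at h2 h3
      have h5 : C * T * (L + x * w) < 2 * C * (T * L) := by
        have : C * T * (L + x * w) < C * T * (L + L) := by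
          apply mul_lt_mul_of_pos_left _ (by positivity)
          linarith
        linarith
      have h6 : w * e = e * w := by ring
      rw [h6, hew] at h2
      linarith
    obtain ⟨p, hp1, hp2⟩ := hp
    obtain ⟨q, hq1, hq2⟩ := hq
    have hNm : Monotone fun a => (Nstar T a : ℝ) + DD T := fun a b hab =>
      add_le_add (Nat.cast_le.2 (Nstar_mono hT1' hab)) le_rfl
    have hgg : ∀ a, gg T a = ((Nstar T a : ℝ) + DD T) - MM a * (T * L) := fun a => rfl
    have hlip : ∀ x y : ℝ, x ≤ y → MM y * (T * L) - MM x * (T * L) ≤ (T * L) * (y - x) := by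
      intro x y hxy
      have h1 := II_mono hxy
      have hpi := Real.pi_gt_three
      have e3 : MM y * (T * L) - MM x * (T * L) =
          (T * L) * (((y - x) - (II y - II x)) / (2 * Real.pi)) := by
        rw [MM_eq, MM_eq]; ring
      rw [e3]
      apply mul_le_mul_of_nonneg_left _ (by positivity)
      rw [div_le_iff₀ (by positivity)]
      nlinarith
    have hfin := no_cross (N := fun a => (Nstar T a : ℝ) + DD T) (m := fun a => MM a * (T * L))
      hNm he0 (by positivity : 0 < T * L) hlip (p := p) (q := q) (by linarith [hp1.2, hq1.1])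
      (fun a ha => by
        have := hcon a ⟨by linarith [hp1.1, ha.1], by linarith [hq1.2, ha.2]⟩
        rwa [hgg] at this) (by rw [← hgg]; exact hp2)
    have h7 : 0 < gg T q := hfin
    linarith

end Pool.Agent.W2helper93.NV
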