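import Pool.Agent.W2helper93.NV.Cross

set_option autoImplicit false

/-! # Pairs of points and the second moment of the window count -/

namespace Pool.Agent.W2helper93.NV

open Complex Filter Topology MeasureTheory Set

/-- the times `t` whose window `[t, t + h)` contains the height of `s` -/
noncomputable def wi (h : ℝ) (s : ℂ) (t : ℝ) : ℝ :=
  (Ioc (s.im - h) s.im).indicator (fun _ => (1 : ℝ)) t

/-- the sum over the pairs of `(h - |γ - γ'|)₊` -/
noncomputable def PSum (S : Finset ℂ) (h : ℝ) : ℝ :=
  ∑ s ∈ S, ∑ s' ∈ S, mm s * mm s' * max 0 (h - |s.im - s'.im|)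

lemma int_ioc_ind {c d : ℝ} (hcd : c ≤ d) (u v : ℝ) :
    ∫ t in c..d, (Ioc u v).indicator (fun _ => (1 : ℝ)) t = max 0 (min d v - max c u) := by
  rw [intervalIntegral.integral_of_le hcd, setIntegral_indicator measurableSet_Ioc,
    Set.Ioc_inter_Ioc]
  simp only [integral_const, smul_eq_mul, mul_one]
  rw [measureReal_restrict_apply_univ, Real.volume_real_Ioc]
  rw [max_comm]

lemma wi_nonneg (h : ℝ) (s : ℂ) (t : ℝ) : 0 ≤ wi h s t := by
  unfold wi
  exact Set.indicator_nonneg (fun _ _ => zero_le_one) _

lemma wi_le (h : ℝ) (s : ℂ) (t : ℝ) : wi h s t ≤ 1 := by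
  unfold wi
  by_cases ht : t ∈ Ioc (s.im - h) s.im
  · rw [Set.indicator_of_mem ht]
  · rw [Set.indicator_of_notMem ht]; exact zero_le_one

lemma wi_BM (h : ℝ) (s : ℂ) : BM (wi h s) := by
  refine ⟨measurable_const.indicator measurableSet_Ioc, 1, fun t => ?_⟩
  rw [abs_of_nonneg (wi_nonneg h s t)]
  exact wi_le h s t

lemma Nb_diff {h : ℝ} (hh : 0 ≤ h) (S : Finset ℂ) (t : ℝ) :
    Nb S (t + h) - Nb S t = ∑ s ∈ S, mm s * wi h s t := by
  unfold Nb
  rw [← Finset.sum_sub_distrib]
  refine Finset.sum_congr rfl fun s _ => ?_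
  unfold wi
  by_cases h1 : s.im < t
  · have h2 : s.im < t + h := by linarith
    have h3 : t ∉ Ioc (s.im - h) s.im := fun h => absurd h.2 (not_le.2 h1)
    rw [if_pos h1, if_pos h2, Set.indicator_of_notMem h3]
    ring
  · push Not at h1
    by_cases h2 : s.im < t + h
    · have h3 : t ∈ Ioc (s.im - h) s.im := ⟨by linarith, h1⟩
      rw [if_neg (not_lt.2 h1), if_pos h2, Set.indicator_of_mem h3]
      ring
    · have h3 : t ∉ Ioc (s.im - h) s.im := fun h' => h2 (by linarith [h'.1])
      rw [if_neg (not_lt.2 h1), if_neg h2, Set.indicator_of_notMem h3]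
      ring

lemma wi_mul_int {A B h : ℝ} (hh : 0 ≤ h) {s s' : ℂ} (h1 : A ≤ s.im - h) (h2 : s.im ≤ B) :
    ∫ t in A..B, wi h s t * wi h s' t = max 0 (h - |s.im - s'.im|) := by
  have e : ∀ t, wi h s t * wi h s' t =
      (Ioc (max (s.im - h) (s'.im - h)) (min s.im s'.im)).indicator (fun _ => (1 : ℝ)) t := by
    intro t
    unfold wi
    rw [← Set.Ioc_inter_Ioc]
    by_cases k1 : t ∈ Ioc (s.im - h) s.im
    · by_cases k2 : t ∈ Ioc (s'.im - h) s'.im
      · rw [Set.indicator_of_mem k1, Set.indicator_of_mem k2,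
          Set.indicator_of_mem (Set.mem_inter k1 k2), one_mul]
      · have k3 : t ∉ Ioc (s.im - h) s.im ∩ Ioc (s'.im - h) s'.im := fun k => k2 k.2
        rw [Set.indicator_of_notMem k2, Set.indicator_of_notMem k3, mul_zero]
    · have k3 : t ∉ Ioc (s.im - h) s.im ∩ Ioc (s'.im - h) s'.im := fun k => k1 k.1
      rw [Set.indicator_of_notMem k1, Set.indicator_of_notMem k3, zero_mul]
  simp_rw [e]
  rw [int_ioc_ind (by linarith)]
  congr 1
  rcases le_total s.im s'.im with h3 | h3
  · rw [min_eq_left h3, max_eq_right (by linarith : s.im - h ≤ s'.im - h), min_eq_right h2,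
      max_eq_right (by linarith : A ≤ s'.im - h), abs_of_nonpos (by linarith)]
    ring
  · rw [min_eq_right h3, max_eq_left (by linarith : s'.im - h ≤ s.im - h),
      min_eq_right (h3.trans h2), max_eq_right h1, abs_of_nonneg (by linarith)]
    ring

/-- the second moment of the window count is a sum over pairs -/
theorem int_sq {A B h : ℝ} (hh : 0 ≤ h) (S : Finset ℂ)
    (h1 : ∀ s ∈ S, A ≤ s.im - h) (h2 : ∀ s ∈ S, s.im ≤ B) :
    ∫ t in A..B, (Nb S (t + h) - Nb S t) ^ 2 = PSum S h := by
  have e : ∀ t, (Nb S (t + h) - Nb S t) ^ 2 =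
      ∑ s ∈ S, ∑ s' ∈ S, mm s * mm s' * (wi h s t * wi h s' t) := by
    intro t
    rw [Nb_diff hh, sq, Finset.sum_mul_sum]
    refine Finset.sum_congr rfl fun s _ => Finset.sum_congr rfl fun s' _ => ?_
    ring
  simp_rw [e]
  unfold PSum
  have i1 : ∀ s s' : ℂ, IntervalIntegrable (fun t => mm s * mm s' * (wi h s t * wi h s' t))
      volume A B := fun s s' => (((wi_BM h s).mul (wi_BM h s')).ii A B).const_mul _
  rw [intervalIntegral.integral_finsetSum fun s _ => by
    have := IntervalIntegrable.sum S (f := fun s' t => mm s * mm s' * (wi h s t * wi h s' t))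
      (μ := volume) (a := A) (b := B) fun s' _ => i1 s s'
    refine this.congr fun t _ => ?_
    simp [Finset.sum_apply]]
  refine Finset.sum_congr rfl fun s hs => ?_
  rw [intervalIntegral.integral_finsetSum fun s' _ => i1 s s']
  refine Finset.sum_congr rfl fun s' _ => ?_
  rw [intervalIntegral.integral_const_mul, wi_mul_int hh (h1 s hs) (h2 s hs)]

lemma wi_int_near {c d h : ℝ} (hcd : c ≤ d) (hh : 0 ≤ h) (s : ℂ) :
    |(∫ t in c..d, wi h s t) - h * (if c < s.im ∧ s.im ≤ d then 1 else 0)| ≤
      h * ((if s.im < c + h then 1 else 0) - (if s.im < c then 1 else 0)) +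
      h * ((if s.im < d + h then 1 else 0) - (if s.im < d then 1 else 0)) := by
  have e : ∫ t in c..d, wi h s t = max 0 (min d s.im - max c (s.im - h)) := by
    unfold wi
    exact int_ioc_ind hcd _ _
  rw [e]
  rcases lt_trichotomy s.im c with h1 | h1 | h1
  · have k1 : min d s.im - max c (s.im - h) ≤ 0 := by
      have := min_le_right d s.im
      have := le_max_left c (s.im - h)
      linarith
    rw [max_eq_left k1, if_neg (fun h => absurd h.1 (not_lt.2 h1.le)), if_pos (by linarith),
      if_pos h1, if_pos (by linarith), if_pos (by linarith)]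
    simp
  · have k1 : min d s.im - max c (s.im - h) ≤ 0 := by
      have := min_le_right d s.im
      have := le_max_left c (s.im - h)
      linarith
    rw [max_eq_left k1, if_neg (fun h => absurd h.1 (not_lt.2 h1.le))]
    have e4 : ∀ x y : ℝ, x ≤ y → (0 : ℝ) ≤ h * ((if s.im < y then 1 else 0) - (if s.im < x then 1 else 0)) := by
      intro x y hxy
      apply mul_nonneg hh
      by_cases h3 : s.im < x
      · rw [if_pos h3, if_pos (by linarith)]; simp
      · rw [if_neg h3]
        split_ifs <;> simp
    have := e4 c (c + h) (by linarith)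
    have := e4 d (d + h) (by linarith)
    rw [mul_zero, sub_zero, abs_zero]
    linarith
  · rcases le_or_gt s.im d with h2 | h2
    · rw [if_pos ⟨h1, h2⟩, if_neg (not_lt.2 h1.le), min_eq_right h2]
      rcases le_or_gt (c + h) s.im with h3 | h3
      · rw [max_eq_right (by linarith : c ≤ s.im - h), if_neg (not_lt.2 h3)]
        have k : max 0 (s.im - (s.im - h)) = h := by
          rw [max_eq_right] <;> linarith
        rw [k]
        have e4 : (0 : ℝ) ≤ h * ((if s.im < d + h then 1 else 0) - (if s.im < d then 1 else 0)) := by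
          apply mul_nonneg hh
          by_cases h3 : s.im < d
          · rw [if_pos h3, if_pos (by linarith)]; simp
          · rw [if_neg h3]
            split_ifs <;> simp
        rw [mul_one, sub_self, abs_zero]
        linarith
      · rw [if_pos h3, max_eq_left (by linarith : s.im - h ≤ c)]
        have k : max 0 (s.im - c) = s.im - c := max_eq_right (by linarith)
        rw [k]
        have e4 : (0 : ℝ) ≤ h * ((if s.im < d + h then 1 else 0) - (if s.im < d then 1 else 0)) := by
          apply mul_nonneg hh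
          by_cases h3 : s.im < d
          · rw [if_pos h3, if_pos (by linarith)]; simp
          · rw [if_neg h3]
            split_ifs <;> simp
        rw [abs_le]
        constructor <;> nlinarith
    · rw [if_neg (fun h => absurd h.2 (not_le.2 h2)), min_eq_left h2.le, if_neg (not_lt.2 h2.le),
        if_neg (not_lt.2 h1.le)]
      have e4 : (0 : ℝ) ≤ h * ((if s.im < c + h then 1 else 0) - 0) := by
        apply mul_nonneg hh
        split_ifs <;> simp
      rcases le_or_gt (d + h) s.im with h3 | h3
      · have k1 : d - max c (s.im - h) ≤ 0 := by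
          have := le_max_right c (s.im - h)
          linarith
        rw [max_eq_left k1, if_neg (not_lt.2 h3)]
        simp only [mul_zero, sub_zero, abs_zero, sub_self, add_zero]
        simpa using e4
      · rw [if_pos h3]
        have k1 : 0 ≤ max 0 (d - max c (s.im - h)) := le_max_left _ _
        have k2 : max 0 (d - max c (s.im - h)) ≤ h := by
          apply max_le hh
          have := le_max_right c (s.im - h)
          linarith
        rw [mul_zero, sub_zero, abs_of_nonneg k1]
        linarith

/-- the number of points of `S` with height in `(c, d]` -/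
noncomputable def Nc (S : Finset ℂ) (c d : ℝ) : ℝ :=
  ∑ s ∈ S, mm s * (if c < s.im ∧ s.im ≤ d then 1 else 0)

/-- the first moment over `[c, d]` -/
theorem int_one {c d h : ℝ} (hcd : c ≤ d) (hh : 0 ≤ h) (S : Finset ℂ) :
    |(∫ t in c..d, (Nb S (t + h) - Nb S t)) - h * Nc S c d| ≤
      h * (Nb S (c + h) - Nb S c) + h * (Nb S (d + h) - Nb S d) := by
  simp_rw [Nb_diff hh]
  rw [intervalIntegral.integral_finsetSum fun s _ => ((wi_BM h s).ii c d).const_mul _]
  unfold Nc
  rw [Finset.mul_sum, ← Finset.sum_sub_distrib]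
  have e0 : ∀ x : ℝ, h * (∑ s ∈ S, mm s * wi h s x) =
      ∑ s ∈ S, mm s * (h * ((if s.im < x + h then 1 else 0) - (if s.im < x then 1 else 0))) := by
    intro x
    rw [← Nb_diff hh]
    unfold Nb
    rw [← Finset.sum_sub_distrib, Finset.mul_sum]
    refine Finset.sum_congr rfl fun s _ => ?_
    split_ifs <;> ring
  rw [e0, e0, ← Finset.sum_add_distrib]
  refine (Finset.abs_sum_le_sum_abs _ _).trans (Finset.sum_le_sum fun s _ => ?_)
  have e1 : (∫ t in c..d, mm s * wi h s t) - h * (mm s * if c < s.im ∧ s.im ≤ d then 1 else 0) =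
      mm s * ((∫ t in c..d, wi h s t) - h * (if c < s.im ∧ s.im ≤ d then 1 else 0)) := by
    rw [intervalIntegral.integral_const_mul]; ring
  rw [e1, abs_mul, abs_of_nonneg (mm_nonneg s), ← mul_add]
  exact mul_le_mul_of_nonneg_left (wi_int_near hcd hh s) (mm_nonneg s)

lemma Nb_mono (S : Finset ℂ) {x y : ℝ} (h : x ≤ y) : Nb S x ≤ Nb S y := by
  unfold Nb
  refine Finset.sum_le_sum fun s _ => ?_
  by_cases h1 : s.im < x
  · rw [if_pos h1, if_pos (by linarith)]
  · rw [if_neg h1]
    split_ifs
    · exact mm_nonneg s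
    · exact le_rfl

end Pool.Agent.W2helper93.NV
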