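import Pool.Agent.W2helper93.NV.Dec2

set_option autoImplicit false

/-! # The primitive of the error, its size, and auxiliary lemmas -/

namespace Pool.Agent.W2helper93.NV

open Complex Filter Topology MeasureTheory Set
open Pool.Agent.TH850.UV
open H370 (zz hh mult Zf zset AA good_zeta mem_Zf)
open H370.A2 (lamC lamC_norm)

theorem EE_le : ∃ C : ℝ, 0 < C ∧ ∀ (l : ℝ) (S : Finset ℂ) (t : ℝ), |EE l S t| ≤ C * WW l S t := by
  obtain ⟨C, hC, h⟩ := Jk_le
  refine ⟨C, hC, fun l S t => ?_⟩
  unfold EE WW
  rw [Finset.mul_sum]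
  refine (Finset.abs_sum_le_sum_abs _ _).trans (Finset.sum_le_sum fun s _ => ?_)
  rw [abs_mul, abs_of_nonneg (mm_nonneg s)]
  have h1 := h (yy l s) (xx l s t)
  calc mm s * |Jk (yy l s) (xx l s t)| ≤
      mm s * (C * Real.exp (Real.pi * |yy l s|) / (1 + xx l s t ^ 2)) :=
        mul_le_mul_of_nonneg_left h1 (mm_nonneg s)
    _ = _ := by ring

theorem prim : ∃ C : ℝ, 0 < C ∧ ∀ (l : ℝ) (S : Finset ℂ), 0 < l → ∃ PP : ℝ → ℝ, Continuous PP ∧
    (∀ t, HasDerivWithinAt PP (EE l S t) (Iio t) t) ∧ ∀ t, |PP t| ≤ C / l * WW l S t := by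
  obtain ⟨C, hC, h⟩ := Pk_exists
  choose P hP1 hP2 hP3 using h
  have hpi := Real.pi_pos
  refine ⟨2 * Real.pi * C, by positivity, fun l S hl =>
    ⟨fun t => ∑ s ∈ S, mm s * (2 * Real.pi / l * P (yy l s) (xx l s t)), ?_, fun t => ?_,
      fun t => ?_⟩⟩
  · refine continuous_finsetSum _ fun s _ => continuous_const.mul (continuous_const.mul ?_)
    exact (hP1 (yy l s)).comp (xx_cont l s)
  · unfold EE
    refine HasDerivWithinAt.fun_sum fun s _ => ?_
    have hc : 0 < l / (2 * Real.pi) := by positivity
    have h1 := hP2 (yy l s) (xx l s t)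
    have h2 : HasDerivWithinAt (xx l s) (l / (2 * Real.pi)) (Iio t) t := by
      unfold xx
      have := (((hasDerivAt_id' t).sub_const s.im).mul_const (l / (2 * Real.pi))).hasDerivWithinAt
        (s := Iio t)
      simpa using this
    have h3 : MapsTo (xx l s) (Iio t) (Iio (xx l s t)) := by
      intro u hu
      have hu' : u < t := hu
      show xx l s u < xx l s t
      unfold xx
      exact mul_lt_mul_of_pos_right (by linarith) hc
    have h4 := (h1.comp t h2 h3).const_mul (2 * Real.pi / l)
    have h5 := h4.const_mul (mm s)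
    refine h5.congr_deriv ?_
    field_simp
  · unfold WW
    rw [Finset.mul_sum]
    refine (Finset.abs_sum_le_sum_abs _ _).trans (Finset.sum_le_sum fun s _ => ?_)
    rw [abs_mul, abs_of_nonneg (mm_nonneg s), abs_mul, abs_of_pos (by positivity : 0 < 2 * Real.pi / l)]
    have h1 := hP3 (yy l s) (xx l s t)
    calc mm s * (2 * Real.pi / l * |P (yy l s) (xx l s t)|) ≤
        mm s * (2 * Real.pi / l *
          (C * Real.exp (Real.pi * |yy l s|) / (1 + xx l s t ^ 2))) := by
          apply mul_le_mul_of_nonneg_left _ (mm_nonneg s)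
          exact mul_le_mul_of_nonneg_left h1 (by positivity)
      _ = _ := by ring

/-- the fundamental theorem for left derivatives -/
lemma int_left {f f' : ℝ → ℝ} {a b : ℝ} (hab : a ≤ b) (hc : Continuous f)
    (hd : ∀ x, HasDerivWithinAt f (f' x) (Iio x) x) (hi : IntervalIntegrable f' volume a b) :
    ∫ x in a..b, f' x = f b - f a := by
  have h1 : ∫ y in (-b)..(-a), (fun y => -f' (-y)) y = (fun y => f (-y)) (-a) - (fun y => f (-y)) (-b) := by
    refine intervalIntegral.integral_eq_sub_of_hasDeriv_right_of_le (by linarith)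
      (hc.comp continuous_neg).continuousOn (fun x _ => ?_) ?_
    · have h2 := hd (-x)
      have h3 : HasDerivWithinAt (fun y : ℝ => -y) (-1) (Ioi x) x :=
        (hasDerivAt_neg x).hasDerivWithinAt
      have h4 : MapsTo (fun y : ℝ => -y) (Ioi x) (Iio (-x)) := by
        intro y hy
        have : x < y := hy
        show -y < -x
        linarith
      have h5 := h2.comp x h3 h4
      refine h5.congr_deriv ?_
      ring
    · have h2 : IntervalIntegrable (fun y => f' (-y)) volume (-b) (-a) := by
        have := hi.comp_sub_left 0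
        simp only [zero_sub] at this
        exact this.symm
      exact h2.neg
  simp only [neg_neg] at h1
  have h6 := intervalIntegral.integral_comp_neg (a := a) (b := b) (fun y => -f' (-y))
  simp only [neg_neg] at h6
  rw [intervalIntegral.integral_neg] at h6
  linarith

/-- bounded measurable functions are integrable on intervals -/
lemma ii {f : ℝ → ℝ} (hf : Measurable f) (M : ℝ) (hM : ∀ t, |f t| ≤ M) (a b : ℝ) :
    IntervalIntegrable f volume a b := by
  rw [intervalIntegrable_iff]
  refine Measure.integrableOn_of_bounded (M := M) ?_ hf.aestronglyMeasurable ?_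
  · rw [Set.uIoc]
    exact measure_Ioc_lt_top.ne
  · exact Eventually.of_forall fun t => by rw [Real.norm_eq_abs]; exact hM t

/-- the integral of moving integrals -/
lemma moving {W : ℝ → ℝ} (hW : Continuous W) (h0 : ∀ t, 0 ≤ W t) {a b h : ℝ} (hab : a ≤ b)
    (hh : 0 ≤ h) : ∫ t in a..b, (∫ τ in t..(t + h), W τ) ≤ h * ∫ τ in a..(b + h), W τ := by
  set F : ℝ → ℝ := fun x => ∫ τ in a..x, W τ with hF
  have hFc : Continuous F := intervalIntegral.continuous_primitive
    (fun x y => hW.intervalIntegrable x y) a
  have hFm : ∀ x y, a ≤ x → x ≤ y → F x ≤ F y := by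
    intro x y hx hxy
    have : F y = F x + ∫ τ in x..y, W τ := by
      simp only [hF]
      rw [intervalIntegral.integral_add_adjacent_intervals (hW.intervalIntegrable _ _)
        (hW.intervalIntegrable _ _)]
    rw [this]
    have := intervalIntegral.integral_nonneg (f := W) (μ := volume) hxy (fun τ _ => h0 τ)
    linarith
  have hF0 : F a = 0 := by simp only [hF, intervalIntegral.integral_same]
  have e1 : ∀ t, ∫ τ in t..(t + h), W τ = F (t + h) - F t := by
    intro t
    simp only [hF]
    rw [intervalIntegral.integral_interval_sub_left (hW.intervalIntegrable _ _)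
      (hW.intervalIntegrable _ _)]
  simp_rw [e1]
  have iF : ∀ x y, IntervalIntegrable F volume x y := fun x y => hFc.intervalIntegrable x y
  have iF2 : ∀ x y, IntervalIntegrable (fun t => F (t + h)) volume x y := fun x y =>
    (hFc.comp (continuous_id.add continuous_const)).intervalIntegrable x y
  rw [intervalIntegral.integral_sub (iF2 _ _) (iF _ _),
    intervalIntegral.integral_comp_add_right (fun t => F t) h]
  have e2 : ∫ x in a..(b + h), F x = (∫ x in a..(a + h), F x) + ∫ x in (a + h)..(b + h), F x :=
    (intervalIntegral.integral_add_adjacent_intervals (iF _ _) (iF _ _)).symm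
  have e3 : ∫ x in a..(b + h), F x = (∫ x in a..b, F x) + ∫ x in b..(b + h), F x :=
    (intervalIntegral.integral_add_adjacent_intervals (iF _ _) (iF _ _)).symm
  have e4 : 0 ≤ ∫ x in a..(a + h), F x := by
    refine intervalIntegral.integral_nonneg (by linarith) fun x hx => ?_
    rw [← hF0]
    exact hFm a x le_rfl hx.1
  have e5 : ∫ x in b..(b + h), F x ≤ h * F (b + h) := by
    have h1 : ∫ x in b..(b + h), F x ≤ ∫ x in b..(b + h), F (b + h) := by
      refine intervalIntegral.integral_mono_on (by linarith) (iF _ _)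
        (continuous_const.intervalIntegrable _ _) fun x hx => ?_
      exact hFm x (b + h) (hab.trans hx.1) hx.2
    rw [intervalIntegral.integral_const, smul_eq_mul] at h1
    have : b + h - b = h := by ring
    rwa [this] at h1
  have e6 : (∫ x in (a + h)..(b + h), F x) - ∫ x in a..b, F x =
      (∫ x in b..(b + h), F x) - ∫ x in a..(a + h), F x := by linarith
  rw [e6]
  simp only [hF] at e5 ⊢
  linarith

/-- Cauchy-Schwarz for an interval -/
lemma cs_int {W : ℝ → ℝ} (hW : Continuous W) {t h : ℝ} (hh : 0 ≤ h) :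
    (∫ τ in t..(t + h), W τ) ^ 2 ≤ h * ∫ τ in t..(t + h), W τ ^ 2 := by
  rcases hh.eq_or_lt with rfl | hpos
  · simp
  set A := ∫ τ in t..(t + h), W τ with hA
  have h1 : 0 ≤ ∫ τ in t..(t + h), (W τ - A / h) ^ 2 :=
    intervalIntegral.integral_nonneg (by linarith) fun τ _ => sq_nonneg _
  have e1 : ∫ τ in t..(t + h), (W τ - A / h) ^ 2 =
      (∫ τ in t..(t + h), W τ ^ 2) - 2 * (A / h) * A + h * (A / h) ^ 2 := by
    have i1 : IntervalIntegrable (fun τ => W τ ^ 2) volume t (t + h) :=
      (hW.pow 2).intervalIntegrable _ _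
    have i2 : IntervalIntegrable (fun τ => 2 * (A / h) * W τ) volume t (t + h) :=
      (continuous_const.mul hW).intervalIntegrable _ _
    have i3 : IntervalIntegrable (fun _ : ℝ => (A / h) ^ 2) volume t (t + h) :=
      continuous_const.intervalIntegrable _ _
    have e2 : ∀ τ, (W τ - A / h) ^ 2 = W τ ^ 2 - 2 * (A / h) * W τ + (A / h) ^ 2 := by
      intro τ; ring
    simp_rw [e2]
    rw [intervalIntegral.integral_add (i1.sub i2) i3, intervalIntegral.integral_sub i1 i2,
      intervalIntegral.integral_const_mul, intervalIntegral.integral_const, smul_eq_mul, ← hA]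
    ring
  rw [e1] at h1
  have e3 : (∫ τ in t..(t + h), W τ ^ 2) - 2 * (A / h) * A + h * (A / h) ^ 2 =
      (∫ τ in t..(t + h), W τ ^ 2) - A ^ 2 / h := by
    field_simp
    ring
  rw [e3, sub_nonneg, div_le_iff₀ hpos] at h1
  linarith

end Pool.Agent.W2helper93.NV
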