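import Pool.Agent.W2helper93.NV.Cross

set_option autoImplicit false

/-! # The number variance with bounded error, from a second moment of the weighted counts -/

namespace Pool.Agent.W2helper93.NV

open Complex Filter Topology MeasureTheory Set
open Pool.Agent.TH850.UV
open H370 (zz hh mult Zf zset AA good_zeta mem_Zf)
open H370.A2 (lamC lamC_norm)

/-- second moment bound for the weighted counts -/
def WMom (lam : ℝ) : Prop := ∃ C T0 : ℝ, 0 < C ∧ 10 ≤ T0 ∧ ∀ T : ℝ, T0 ≤ T → ∀ U1 U2 : ℝ, T ≤ U1 →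
  U2 ≤ 2 * T → ∫ t in (T / 2)..(4 * T), WW (Real.log T / lam) (Zf riemannZeta U1 U2) t ^ 2 ≤ C * T

/-- a sub-interval -/
lemma sub_int {f : ℝ → ℝ} (hf : Continuous f) (h0 : ∀ t, 0 ≤ f t) {a b c d : ℝ} (h1 : a ≤ c)
    (h2 : c ≤ d) (h3 : d ≤ b) : ∫ t in c..d, f t ≤ ∫ t in a..b, f t := by
  have e1 : ∫ t in a..b, f t = (∫ t in a..c, f t) + (∫ t in c..d, f t) + ∫ t in d..b, f t := by
    rw [intervalIntegral.integral_add_adjacent_intervals (hf.intervalIntegrable _ _)
      (hf.intervalIntegrable _ _), intervalIntegral.integral_add_adjacent_intervals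
      (hf.intervalIntegrable _ _) (hf.intervalIntegrable _ _)]
  have e2 : 0 ≤ ∫ t in a..c, f t := intervalIntegral.integral_nonneg h1 fun t _ => h0 t
  have e3 : 0 ≤ ∫ t in d..b, f t := intervalIntegral.integral_nonneg h3 fun t _ => h0 t
  linarith

/-- the abstract computation -/
lemma abs_var {a b ρ K1 K2 K3 K4 G L : ℝ} {f D E r D' P : ℝ → ℝ} (hab : a ≤ b) (hL : 0 < L)
    (hρ : 1 ≤ ρ)
    (hf : BM f) (hD : BM D) (hE : BM E) (hr : BM r) (hD'c : Continuous D') (hPc : Continuous P)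
    (hrel : ∀ t, r t = f t + D t + E t)
    (h1 : ∫ t in a..b, r t ^ 2 ≤ K1 / ρ) (hK1 : 0 ≤ K1)
    (h2 : ∫ t in a..b, E t ^ 2 ≤ K2) (h3 : ∫ t in a..b, D' t ^ 2 ≤ K3 * L ^ 2)
    (h4 : ∫ t in a..b, P t ^ 2 ≤ K4 / L ^ 2) (h5 : ∫ t in a..b, D t ^ 2 ≤ G * ρ)
    (hbp : |∫ t in a..b, (D' t * P t + D t * E t)| ≤ G) :
    |(∫ t in a..b, f t ^ 2) - ∫ t in a..b, D t ^ 2| ≤ 3 * K1 + 2 * K2 + K3 + K4 + 3 * G := by
  have hρ0 : 0 < ρ := by linarith
  have iDD : IntervalIntegrable (fun t => D t ^ 2) volume a b := by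
    simp_rw [sq]; exact (hD.mul hD).ii a b
  have iEE : IntervalIntegrable (fun t => E t ^ 2) volume a b := by
    simp_rw [sq]; exact (hE.mul hE).ii a b
  have irr : IntervalIntegrable (fun t => r t ^ 2) volume a b := by
    simp_rw [sq]; exact (hr.mul hr).ii a b
  have iDE : IntervalIntegrable (fun t => D t * E t) volume a b := (hD.mul hE).ii a b
  have iDr : IntervalIntegrable (fun t => D t * r t) volume a b := (hD.mul hr).ii a b
  have irE : IntervalIntegrable (fun t => (r t - E t) ^ 2) volume a b := by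
    simp_rw [sq]; exact ((hr.sub hE).mul (hr.sub hE)).ii a b
  have iDP : IntervalIntegrable (fun t => D' t * P t) volume a b :=
    (hD'c.mul hPc).intervalIntegrable _ _
  -- expansion
  have e1 : ∫ t in a..b, f t ^ 2 = (∫ t in a..b, D t ^ 2) + (∫ t in a..b, (r t - E t) ^ 2) -
      2 * (∫ t in a..b, D t * r t) + 2 * ∫ t in a..b, D t * E t := by
    have e2 : ∀ t, f t ^ 2 = D t ^ 2 + (r t - E t) ^ 2 - 2 * (D t * r t) + 2 * (D t * E t) := by
      intro t
      have : f t = r t - D t - E t := by rw [hrel t]; ring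
      rw [this]; ring
    simp_rw [e2]
    rw [intervalIntegral.integral_add ((iDD.add irE).sub (iDr.const_mul 2)) (iDE.const_mul 2),
      intervalIntegral.integral_sub (iDD.add irE) (iDr.const_mul 2),
      intervalIntegral.integral_add iDD irE, intervalIntegral.integral_const_mul,
      intervalIntegral.integral_const_mul]
  -- the square of `r - E`
  have b1 : ∫ t in a..b, (r t - E t) ^ 2 ≤ 2 * K1 + 2 * K2 := by
    have h6 : ∫ t in a..b, (r t - E t) ^ 2 ≤ ∫ t in a..b, (2 * r t ^ 2 + 2 * E t ^ 2) :=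
      intervalIntegral.integral_mono_on hab irE ((irr.const_mul 2).add (iEE.const_mul 2))
        fun t _ => by nlinarith [sq_nonneg (r t + E t)]
    rw [intervalIntegral.integral_add (irr.const_mul 2) (iEE.const_mul 2),
      intervalIntegral.integral_const_mul, intervalIntegral.integral_const_mul] at h6
    have h7 : K1 / ρ ≤ K1 := div_le_self hK1 hρ
    linarith
  have b10 : 0 ≤ ∫ t in a..b, (r t - E t) ^ 2 :=
    intervalIntegral.integral_nonneg hab fun t _ => sq_nonneg _
  -- the product with `r`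
  have b2 : |2 * ∫ t in a..b, D t * r t| ≤ G + K1 := by
    have h6 : |∫ t in a..b, D t * r t| ≤ ∫ t in a..b, |D t * r t| :=
      intervalIntegral.abs_integral_le_integral_abs hab
    have h7 : ∫ t in a..b, |D t * r t| ≤ ∫ t in a..b, (1 / (2 * ρ) * D t ^ 2 + ρ / 2 * r t ^ 2) := by
      refine intervalIntegral.integral_mono_on hab iDr.abs
        ((iDD.const_mul _).add (irr.const_mul _)) fun t _ => ?_
      have h8 : 0 ≤ (|D t| - ρ * |r t|) ^ 2 := sq_nonneg _
      have h9 : |D t| ^ 2 = D t ^ 2 := sq_abs _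
      have h10 : |r t| ^ 2 = r t ^ 2 := sq_abs _
      rw [abs_mul]
      have h11 : 2 * ρ * (|D t| * |r t|) ≤ D t ^ 2 + ρ ^ 2 * r t ^ 2 := by nlinarith
      have e3 : 1 / (2 * ρ) * D t ^ 2 + ρ / 2 * r t ^ 2 =
          (D t ^ 2 + ρ ^ 2 * r t ^ 2) / (2 * ρ) := by field_simp
      rw [e3, le_div_iff₀ (by positivity)]
      linarith
    rw [intervalIntegral.integral_add (iDD.const_mul _) (irr.const_mul _),
      intervalIntegral.integral_const_mul, intervalIntegral.integral_const_mul] at h7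
    have h8 : 1 / (2 * ρ) * (∫ t in a..b, D t ^ 2) ≤ G / 2 := by
      calc 1 / (2 * ρ) * (∫ t in a..b, D t ^ 2) ≤ 1 / (2 * ρ) * (G * ρ) := by gcongr
        _ = G / 2 := by field_simp
    have h9 : ρ / 2 * (∫ t in a..b, r t ^ 2) ≤ K1 / 2 := by
      calc ρ / 2 * (∫ t in a..b, r t ^ 2) ≤ ρ / 2 * (K1 / ρ) := by gcongr
        _ = K1 / 2 := by field_simp
    rw [abs_mul, abs_of_pos (by norm_num : (0 : ℝ) < 2)]
    linarith
  -- the product with `E`
  have b3 : |2 * ∫ t in a..b, D t * E t| ≤ 2 * G + K3 + K4 := by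
    rw [intervalIntegral.integral_add iDP iDE] at hbp
    have h6 : |∫ t in a..b, D' t * P t| ≤ (K3 + K4) / 2 := by
      refine (intervalIntegral.abs_integral_le_integral_abs hab).trans ?_
      have i3 : IntervalIntegrable (fun t => D' t ^ 2) volume a b :=
        (hD'c.pow 2).intervalIntegrable _ _
      have i4 : IntervalIntegrable (fun t => P t ^ 2) volume a b :=
        (hPc.pow 2).intervalIntegrable _ _
      have h7 : ∫ t in a..b, |D' t * P t| ≤
          ∫ t in a..b, (1 / (2 * L ^ 2) * D' t ^ 2 + L ^ 2 / 2 * P t ^ 2) := by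
        refine intervalIntegral.integral_mono_on hab iDP.abs
          ((i3.const_mul _).add (i4.const_mul _)) fun t _ => ?_
        have h8 : 0 ≤ (|D' t| - L ^ 2 * |P t|) ^ 2 := sq_nonneg _
        have h9 : |D' t| ^ 2 = D' t ^ 2 := sq_abs _
        have h10 : |P t| ^ 2 = P t ^ 2 := sq_abs _
        rw [abs_mul]
        have h11 : 2 * L ^ 2 * (|D' t| * |P t|) ≤ D' t ^ 2 + (L ^ 2) ^ 2 * P t ^ 2 := by nlinarith
        have e3 : 1 / (2 * L ^ 2) * D' t ^ 2 + L ^ 2 / 2 * P t ^ 2 =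
            (D' t ^ 2 + (L ^ 2) ^ 2 * P t ^ 2) / (2 * L ^ 2) := by field_simp
        rw [e3, le_div_iff₀ (by positivity)]
        linarith
      rw [intervalIntegral.integral_add (i3.const_mul _) (i4.const_mul _),
        intervalIntegral.integral_const_mul, intervalIntegral.integral_const_mul] at h7
      have h8 : 1 / (2 * L ^ 2) * (∫ t in a..b, D' t ^ 2) ≤ K3 / 2 := by
        calc 1 / (2 * L ^ 2) * (∫ t in a..b, D' t ^ 2) ≤ 1 / (2 * L ^ 2) * (K3 * L ^ 2) := by gcongr
          _ = K3 / 2 := by field_simp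
      have h9 : L ^ 2 / 2 * (∫ t in a..b, P t ^ 2) ≤ K4 / 2 := by
        calc L ^ 2 / 2 * (∫ t in a..b, P t ^ 2) ≤ L ^ 2 / 2 * (K4 / L ^ 2) := by gcongr
          _ = K4 / 2 := by field_simp
      linarith
    rw [abs_mul, abs_of_pos (by norm_num : (0 : ℝ) < 2)]
    have h7 : |∫ t in a..b, D t * E t| ≤ G + (K3 + K4) / 2 := by
      have e4 : ∫ t in a..b, D t * E t = ((∫ t in a..b, D' t * P t) + ∫ t in a..b, D t * E t) -
          ∫ t in a..b, D' t * P t := by ring
      rw [e4]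
      exact (abs_sub _ _).trans (add_le_add hbp h6)
    linarith
  rw [e1]
  rw [abs_le] at b2 b3 ⊢
  constructor <;> linarith [b2.1, b2.2, b3.1, b3.2]

end Pool.Agent.W2helper93.NV
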